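import Pool.Agent.Lib.MP_1c8e06_ag.CY.Defs

set_option autoImplicit false

open Polynomial
open scoped Classical

namespace Pool.Agent.MP_1c8e06_ag.CY

open Pool.Agent.MP_1c8e06_ag.AJ

noncomputable section

section
variable {B : Type} [CommRing B] {G : Type} [Group G] [Fintype G] {S : SC B G} {v : B → ℝ}

/-- The seminorm `a ↦ w (act g a)`. -/
def MS.tw (W : MS S v) (g : G) : MS S v where
  w a := W.w (Al.act S g a)
  nonneg a := W.nonneg _
  one := by rw [map_one, W.one]
  mul a b := by rw [map_mul, W.mul]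
  add a b := by rw [map_add]; exact W.add _ _
  cst c := by rw [Al.act_cst, W.cst]

theorem MS.tw_w (W : MS S v) (g : G) (a : Al S) : (W.tw g).w a = W.w (Al.act S g a) := rfl

/-- `g` is in the (wild) inertia group of `W`. -/
def InJ (W : MS S v) (g : G) : Prop := ∀ a, W.w a ≤ 1 → W.w (Al.act S g a - a) < 1

/-- `g` is in the decomposition group of `W`. -/
def InD (W : MS S v) (g : G) : Prop := ∀ a, W.w (Al.act S g a) = W.w a

theorem MS.zero (W : MS S v) (h0 : v 0 = 0) : W.w 0 = 0 := by
  rw [← map_zero (Al.cst S), W.cst, h0]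

end

end

end Pool.Agent.MP_1c8e06_ag.CY
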