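/-!
# A remark on the classification (a comment, not used in any proof)

The claim of the hand-in CyclicSylow says, outside of the formal statement, that by the classification of the finite simple
groups every minimal pair (X, x), p odd, has cyclic Sylow p-subgroups. This file records how we checked it: first the
family by family check of helper92, then the second reading and the computer check of helper38. Both were written from
memory of the literature (no library was available); related work, as we recall, is by Guralnick and Tracey.

CHECK (helper92, by hand, from memory of the literature; assignment mail 30822): the group theoretic remark behind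
theorem U / AU / T2 of MP_1c8e06_ag.

CLAIM. Let p be an odd prime, A an almost simple group with socle T (so C_A(T) = 1), p divides |T|, y in A of order p,
A = T<y>, and suppose y lies in EXACTLY ONE maximal subgroup of A. Then the Sylow p-subgroups of A are cyclic (so |y|
= p, y in T, A = T).
CORRECTION needed in T2/AU: C_A(T) = 1 must be part of the hypotheses. Without it A_5 x C_5 (y diagonal) is a
counterexample: Sylow 5 is C5 x C5, not cyclic, T = A_5, A = T<y>, and y = (a,c) lies in exactly one maximal subgroup
if a lies in exactly one maximal subgroup D_10 of A_5 (maximal subgroups of A_5 x C_5 are M x C_5 and A_5 x 1).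
p = 2 never happens (two involutions of T<y> generate a dihedral group; y inverts some element of odd order).

Verdict: TRUE (for p odd), by the classification. Details, in the six parts.

GENERAL PRINCIPLES.
(P1) (Sylow) If M_1, M_2 are maximal subgroups of A, not conjugate, both of index prime to p, then every p-element
lies in a conjugate of M_1 and in a conjugate of M_2: two different maximal subgroups.
(P2) If y is in M and y fixes at least two points of A/M (permutation character >= 2 at y), then y is in at least two
conjugates of M (M maximal nonnormal, hence self normalising).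
(P3) Uniqueness is inherited: if y lies in a unique maximal M, then for every p-subgroup E containing y and every 1 !=
F <= E with N_A(F) != A one has N_A(F) <= M as soon as y in N_A(F). In particular for every elementary abelian E of
rank 2 containing y, Gamma_{E,1}(A) <= M. So A is on the (short) list of groups with a near strongly p-embedded
subgroup if the p-rank is >= 2 (GLS3, 7.6.1 / 7.6.2), and the list below can be cut to those; the check below does not
use that list.

(1) ALTERNATING GROUPS A_n, n >= 2p (non-cyclic Sylow). y = k p-cycles, f fixed points, kp + f = n.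
 f >= 2: two point stabilisers. f = 1: a point stabiliser and (S_p x S_{n-p}) cap A_n (y fixes the support of a cycle,
k >= 2 since n >= 2p; maximal as p != n - p because n = kp + 1). f = 0, k >= 3: setwise stabilisers of the supports of
two different cycles (if n = 2p excluded; if p = n - p no). f = 0, k = 2: n = 2p: y in (S_p wr S_2) and in (S_2 wr
S_p) (y permutes the p pairs {i, i'}): both maximal in A_{2p} up to the small exceptions (n = 6, p = 3: S_3 wr S_2 =
3^2:4 and S_2 wr S_3 = S_4, fine; both in A_6).
 n = 6 and outer automorphisms: p odd, so A = T = A_6; ok.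

(2) SPORADIC GROUPS AND THE TITS GROUP (A = T as p odd), all p with non-cyclic Sylow p-subgroup; by (P1) two classes
of maximal subgroups of index prime to p:
 M11, M22, M23 p=3: (M11: M10 = A6.2 and 3^2:Q8.2; M22: A7 (two classes), M10; M23: M22, A8, M11). M12 p=3: 3^2:2S4
(two classes). M24 p=3: M12:2, 2^6:3.S6. J2 p=3: U3(3), 3.A6.2; p=5: A5xD10, 5^2:D12. J4 p=3: 2^11:M24,
2^{1+12}.3.M22:2; p=11: U3(11):2, 11^{1+2}:(5x2S4). HS p=3: M22, A8 = S8-type subgroups; p=5: U3(5):2 (two classes).
McL p=3: U4(3), 3^{1+4}:2S5, 3^4:M10; p=5: U3(5), 5^{1+2}:3:8. He p=3: 3.S7, 2^6:3.S6; p=5: S4(4):2, 5^2:4A4; p=7: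
7^2:2L2(7), 7^{1+2}:(S3x3). Ru p=3: the Sylow 3 has order 27, one class of elements of order 3, so (P2)/(two classes
containing elements of order 3) is enough; p=5: U3(5):2, 5^{1+2}:[2^5], 5^2:4S5. Suz p=3: 3^5:M11,
3^{2+4}:2(A4x2^2).2, 3.U4(3):2; p=5: G2(4), J2:4 etc. O'N p=3: 3^4:2^{1+4}.D10, (3^2:4xA6).2; p=7: L3(7):2 (two
classes). Co3 p=3: 3^5:(2xM11), 3^{1+4}:4S6; p=5: McL:2, HS, U3(5):S3. Co2 p=3: U6(2):2, McL; p=5: McL, HS:2. Co1 p=3:
3^6:2M12, 3^{1+4}.2U4(2).2; p=5: 5^{1+2}:GL2(5), 5^3:(4xA5).2; p=7: (A7xL2(7)):2, 7^2:(3x2A4). Fi22 p=3: O7(3) (two
classes); p=5: O8+(2):S3, S10. Fi23 p=3: O8+(3):S3, 3^{1+8}...; p=5: one class of elements of order 5 (in many maximal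
subgroups). Fi24' p=3: 3^7.O7(3), 3^{1+10}:U5(2):2; p=5: one class; p=7: He:2 (two classes). HN p=3: 3^4:2(A4xA4).4,
3^{1+4}:4A5; p=5: 5^{1+4}:..., 5^{2+1+2}:4A5. Ly p=3: 3.McL:2, 3^5:(2xM11); p=5: G2(5), 5^3.L3(5), 5^{1+4}:4S6. Th
p=3: 3.[3^8].2S4, 3^2.[3^7].2S4; p=5: 5^{1+2}:4S4, 5^2:GL2(5); p=7: one class of elements of order 7. B p=3: Fi23,
3^{1+8}...; p=5: HN:2, 5^{1+4}...; p=7: one class. M p=3,5,7,13: two p-local maximal subgroups containing a Sylow
each; p=11: one class. Tits p=3: L3(3):2 (two classes); p=5: L2(25), 5^2:4A4. J3 p=3 (the only case without two
classes of index prime to 3): 3A lies in (3xA6):2 and in 2^4:(3xA5); 3B (cubes of elements of order 9) lies in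
3^{2+1+2}:8 and in L2(19).

(3) T OF LIE TYPE IN CHARACTERISTIC p. Every p-element y of A normalises a Borel subgroup (Sylow), hence normalises
all parabolics which are invariant under y; A/T of order 1 or p acts on the nodes. If A = T: rank >= 2: two maximal
parabolics. If A = T<y>, y outside T: field type (p odd; graph type for p = 3 and D4 only, see 6): acts trivially on
the nodes of the relative diagram (or, for D4 with p = 3 triality: 2 orbits {centre}, {3 ends}): two maximal
y-invariant parabolics. Rank 1: L2(p^f), f >= 2 (f = 1 is cyclic Sylow): B and a conjugate of PSL2(p) / PGL2(p) (cap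
T) under PGL2(q); these are in a maximal subgroup different from B since PSL2(p) is in no Borel. U3(q): transvections
are in GU2(q) = stabiliser of a nonsingular point, regular unipotents are in SO3(q) (q odd); both not in a Borel.
2G2(q): elements of order 3: T^{+-1}, in 2 x L2(q); X in 2G2(3) (nonsolvable, in no Borel). Outer field automorphisms
y for rank 1: y normalises a Borel B; and C_T(y) is not in B; if the only maximal subgroup containing y was N_A(B)
then C_T(y) <= N_A(B), contradiction.

(4) CROSS CHARACTERISTIC, y induces a field or graph-field automorphism of order p (odd): conjugate under Inndiag(T)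
to the standard one, hence normalises a Borel B (and is in N_A(B) != A), and centralises T(q_0) up to Inndiag, which
is not in a Borel, even in the smallest cases L2(2), L2(3), Sz(2), U3(2), 2G2(3): C_T(y) contains elements not in B.
So two maximal subgroups.

(5) CROSS CHARACTERISTIC, y inner-diagonal, semisimple.
 If y lies in a parabolic subgroup P then (order prime to the characteristic) it lies in a Levi complement L of P, and
in the opposite parabolic: two different ones, and the maximal parabolics above them are different. So assume y in no
parabolic: C(y)^o has anisotropic central torus... more exactly y lies in no proper Levi: every torus of C(y) is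
anisotropic.
 CLASSICAL GROUPS. e = order of q mod p (e' for the unitary case etc.), V = [V,y] + C_V(y), V a sum of k irreducibles
of dimension d.
 PSL_n: only y irreducible up to p-parts: n = e, Sylow cyclic. If n = p divides q-1 and y outer diagonal irreducible
(order p modulo scalars): in a torus normaliser (monomial group) and in GL_1(q^p).p.
 PSU_n: p | q+1: diagonalisable: stabilisers of several nondegenerate points; n = p irreducible outer: torus
normaliser / monomial; e' even: totally singular X, X' (parabolic); e' odd, k = 2: GU wr S_2 and GU_{n/s}(q^s).s; k >=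
3: Stab(W_1), Stab(W_2).
 Sp_{2m}: d odd: X, X' totally singular (parabolic); C_V(y) != 0: singular points (parabolic); k >= 3: Stab(W_1),
Stab(W_2) nondegenerate; k = 2: Sp_d wr S_2 and a field extension group (or GU_2(q^{d/2}).., q even: also O^{+-}).
 Orthogonal: similarly; dim C_V(y) = 1: N_1; dim C_V(y) = 2 of minus type: nonsingular points (at least 2); dim >= 3
or plus type: singular points; C_V(y) = 0, k = 2, d >= 4: wreath type and field extension type; k >= 3: Stab(W_1),
Stab(W_2).
 EXCEPTIONAL GROUPS. y regular (else C(y) contains a root SL2, giving parabolics / two classes), and a regular element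
of order p needs p >= h (Coxeter number) or p small treated by (parabolic); then y lies in a Sylow Phi_e-torus with
a_e >= 2 (non-cyclic Sylow), and the centraliser torus is anisotropic. Two maximal subgroups: G2 e=2: SU3(q):2, (SL2 o
SL2).2; e=3,6 cyclic. 3D4 e=2: G2(q), SL2(q^3) o SL2(q); e=3,6: (q^2+-q+1)^2:SL2(3), (SL3^{+-} o (q^2+-q+1)). F4
e=2,3,4,6: Spin9, A2A2, 3D4.3, D4.S3, C4 ... . E6 e=3,6, 2E6 e=2,3,4,6: A2^3, 3D4 x (q^2+-q+1), A2(q^2)A2^-,
D5^-(q+1), D4.(q+1)^2.S3, A1A5. E7 e=2,6: A7^{e}, A1D6, E6^-(q+1), A2A5. E8 e=2,3,4,5,6,8,10,12: A4^2 / Phi5^2-torus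
normaliser with 5 x SL2(5), D8, D4(q^2), 3D4^2, 3D4(q^2), SU3(q^2)^2, E6A2, A2^4, D4^2. 2F4 p | q+1: (q+1)^2:GL2(3),
SU3(q):2; p | q^2+1: torus normaliser with 4S4, Sz wr 2; 2B2, 2G2: cyclic or (2G2: p | q+1 cyclic for p odd). p < h:
non-regular or in a parabolic. E6^{eps}, p = 3 outer diagonal: in a parabolic.

(6) p = 3, triality type outer automorphisms (graph, graph-field) of D4, and of 3D4: gamma_1 (centraliser G2)
normalises B: N(P_2), N(P_{134}). gamma_2 = gamma_1 s (centraliser PGL3^{eps}(q) or, in characteristic 3, a parabolic
type centraliser): q = 1 mod 3: normalises a Borel; q = 2 mod 3: N(P_2) (long root group) and N(PGU_3(q));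
characteristic 3: Borel.

CONFIDENCE. (1), (3), (4): certain. (2): from memory of the ATLAS lists, each row checked once; (5) classical:
certain; exceptional: the list of two different maximal rank subgroups is standard (Liebeck-Saxl-Seitz), high
confidence. Related literature to name in the Relation line: Guralnick - Tracey and co-authors on p-elements contained
in a unique maximal subgroup ('overgroups of p-elements'); GLS no. 3, section 7.6 (near strongly p-embedded
subgroups).


CHECK 2 (helper38, 4 Dec 01:15Z) of the classification remark of MP_1c8e06_ag.CyclicSylow: 'every minimal pair (X, x),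
p odd, has cyclic Sylow p-subgroups'.

REDUCTION. (X, x) minimal: q : X -> A = T<y>, y = q(x) of order p (x has order p, kernel of order prime to p), kernel
inside every maximal subgroup: the maximal subgroups of X containing x are the preimages of the maximal subgroups of A
containing y; Sylow p-subgroups of X and A are isomorphic. So the remark is: A almost simple, A = T<y>, |y| = p odd, p
| |T|, y in exactly one maximal subgroup => Sylow p-subgroups of A cyclic. (helper92, proofs row 616, proves this
family by family from the classification; I re-read every family and find no exception.)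

POINTS RE-DONE. (a) y semisimple in the characteristic r of T (inner-diagonal): if C_T(y) has order divisible by r
then y normalises <u> for a unipotent u != 1 of C_T(y), so (Borel-Tits) a parabolic P; being semisimple it normalises
the opposite P^- of a y-invariant Levi complement; <P, P^-> = T and T<y> = A, so the maximal subgroups over N_A(P),
N_A(P^-) differ. (b) Kac coordinates: a regular element of order p of the adjoint group has p >= h; so for p < h (all
of F4, E6, 2E6, E7, E8, 3D4, G2 with p <= 5, and diagonal elements of order 3 of E6, 2E6) case (a) applies. (c) y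
field (or graph-field) automorphism: conjugate to a standard one, normalises a Borel B, and C_T(y) is not in B: N_A(B)
and N_A(B^g), g in C_T(y) not in B. (d) PGL_p, PGU_p irreducible of order p modulo scalars: monomial group and
normaliser of the Singer type torus, orders and a Zsigmondy prime show that no maximal subgroup contains both; p = 3,
q = 4: 3^2:2A4 and 7:3 x 3; PGU_3(5): 6^2:S3 and 7:3 x 3. (e) defining characteristic: two parabolics, or rank one:
Borel and a subfield group (PSL_2(p) in PSL_2(p^f); SO_3, GU_2 in U_3; 2 x L_2, Ree(3) in Ree).

COMPUTER CHECK (own C++ program, random Schreier-Sims; certificate for y: g1, g2 with <y,g1>, <y,g2> proper and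
<y,g1,g2> = A, so y lies in two maximal subgroups; up to 20 sampled y of order p, y outside of T for A != T, all cycle
types of elements of order p met by random powers). All samples certified, no failure, in:
p = 3: A6-A12, M11, M12, M23, M24, L2(8).3, L2(27), L2(27).3, L2(64).3, L2(125).3, L3(3), L3(4), PGL3(4), L3(7),
PGL3(7), L3(8).3, L3(64).3 (field), PGL3(64)-type .3 (diagonal), U3(3), U3(5), PGU3(5), U3(8), PGU3(8), U3(8).3
(field), PGU3(11), L4(2), L4(3), L4(4), L5(2), U4(2), U4(3), U5(2), PSp4(3), PSp4(4), PSp4(5), PSp4(7), PSp6(2),
Sz(8).3;
p = 5: L2(25), L2(125), L3(5), L4(4), U3(4), U3(5), U4(4), PSp4(4), PSp4(9), Sz(32).5, A10, A11, A12, A15; p = 7: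
L2(49), L3(8), A14, A15.
(The mixed diagonal-field extensions U3(8).3_3, L3(64).3_mixed have no elements of order 3 outside T.)
VERDICT: no exception; 'every' stays. Text on main: '(our check, not formalised; cf. Guralnick-Tracey)'. Program:
/team-store/MP_1c8e06_cfsg_check.cpp

-/
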