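import Pool.Agent.Lib.MP_1c8e06_ag.AJ.A1

set_option autoImplicit false

open Polynomial
open scoped Classical

namespace Pool.Agent.MP_1c8e06_ag.CY

open Pool.Agent.MP_1c8e06_ag.AJ

noncomputable section

set_option linter.unusedSectionVars false

/-!
# Campaign CY: groups with cyclic Sylow `p`-subgroups.  Common definitions
-/

/-! ### Laurent polynomials and their expansions -/

/-- The coordinate ring of the punctured line, `K[T, T⁻¹]`. -/
abbrev Lam (K : Type) [CommRing K] : Type := LaurentPolynomial K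

section
variable (K : Type) [Field K]

/-- `T` as a unit of `K((s))`: the expansion at `0`, `T ↦ s`. -/
def sU : (LaurentSeries K)ˣ where
  val := HahnSeries.single (1 : ℤ) 1
  inv := HahnSeries.single (-1 : ℤ) 1
  val_inv := by rw [HahnSeries.single_mul_single, add_neg_cancel, one_mul]; rfl
  inv_val := by rw [HahnSeries.single_mul_single, neg_add_cancel, one_mul]; rfl

/-- Expansion at `0`: `K[T, T⁻¹] → K((s))`, `T ↦ s`. -/
def lz : Lam K →+* LaurentSeries K :=
  LaurentPolynomial.eval₂ (HahnSeries.C : K →+* LaurentSeries K) (sU K)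

/-- Expansion at infinity: `K[T, T⁻¹] → K((s))`, `T ↦ s⁻¹`. -/
def lzi : Lam K →+* LaurentSeries K :=
  LaurentPolynomial.eval₂ (HahnSeries.C : K →+* LaurentSeries K) (sU K)⁻¹

/-- `u` as a unit of `K(u)`. -/
def uU : (RatFunc K)ˣ := Units.mk0 RatFunc.X RatFunc.X_ne_zero

/-- `K[T, T⁻¹] → K(u)`, `T ↦ u`. -/
def jF : Lam K →+* RatFunc K := LaurentPolynomial.eval₂ (RatFunc.C : K →+* RatFunc K) (uU K)

/-- `T ↦ T⁻¹`. -/
def lin : Lam K →+* Lam K := (LaurentPolynomial.invert (R := K)).toRingEquiv.toRingHom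

end

/-- Application of a ring homomorphism to the coefficients of a Laurent polynomial. -/
def mapT {K K' : Type} [CommRing K] [CommRing K'] (φ : K →+* K') : Lam K →+* Lam K' :=
  LaurentPolynomial.eval₂ ((LaurentPolynomial.C : K' →+* Lam K').comp φ)
    ⟨LaurentPolynomial.T 1, LaurentPolynomial.T (-1), by
      rw [← LaurentPolynomial.T_add, add_neg_cancel, LaurentPolynomial.T_zero], by
      rw [← LaurentPolynomial.T_add, neg_add_cancel, LaurentPolynomial.T_zero]⟩

/-! ### Two point covers -/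

/-- A `G`-Galois algebra over `K[T, T⁻¹]` which is given by `w ^ p - w = t / T` near `0` and by
`w ^ p - w = t T` near infinity, with the generator `x` in both cases. -/
structure TPw (p : ℕ) [Fact p.Prime] {K : Type} [Field K] [CharP K p] {G : Type} [Group G]
    [Fintype G] (x : G) (t : K) where
  S : SC (Lam K) G
  r0 : Al S →+* AI.EE p (C t * X : K[X])
  r1 : Al S →+* AI.EE p (C t * X : K[X])
  r0_cst : ∀ f, r0 (Al.cst S f) = AI.ofL p (C t * X : K[X]) (lz K f)
  r1_cst : ∀ f, r1 (Al.cst S f) = AI.ofL p (C t * X : K[X]) (lzi K f)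
  r0_x : ∀ a, r0 (Al.act S x a) = AI.tau p (C t * X : K[X]) (r0 a)
  r1_x : ∀ a, r1 (Al.act S x a) = AI.tau p (C t * X : K[X]) (r1 a)

/-- Connectedness: an element which is constant at all points over `0` is a constant. -/
def TPw.Conn {p : ℕ} [Fact p.Prime] {K : Type} [Field K] [CharP K p] {G : Type} [Group G]
    [Fintype G] {x : G} {t : K} (D : TPw p x t) : Prop :=
  ∀ (f : Al D.S) (c : G → K),
    (∀ g, D.r0 (Al.act D.S g f) = AI.ofL p (C t * X : K[X]) (HahnSeries.C (c g))) →
    ∀ g, c g = c 1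

/-! ### Points of the analytic line -/

section
variable (Om : Type) [NormedField Om]

/-- An ultrametric absolute value on `Om(u)` which extends the norm of `Om`. -/
structure Pt where
  v : AbsoluteValue (RatFunc Om) ℝ
  na : ∀ f g, v (f + g) ≤ max (v f) (v g)
  ext : ∀ c : Om, v (RatFunc.C c) = ‖c‖

end

section
variable {Om : Type} [NormedField Om]

/-- The completion of `Om(u)` at the point `w`. -/
abbrev Pt.E (w : Pt Om) : Type := w.v.Completion

/-- `Om(u) → E_w`. -/
def Pt.ι (w : Pt Om) : RatFunc Om →+* w.E :=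
  (UniformSpace.Completion.coeRingHom (α := WithAbs w.v)).comp
    (WithAbs.equiv w.v).symm.toRingHom

theorem Pt.norm_ι (w : Pt Om) (f : RatFunc Om) : ‖w.ι f‖ = w.v f := by
  change ‖((WithAbs.toAbs w.v f : WithAbs w.v) : w.v.Completion)‖ = w.v f
  rw [UniformSpace.Completion.norm_coe]
  rfl

theorem Pt.dense_ι (w : Pt Om) : DenseRange w.ι := by
  have h := UniformSpace.Completion.denseRange_coe (α := WithAbs w.v)
  intro y
  have hy := h y
  refine closure_mono ?_ hy
  rintro _ ⟨a, rfl⟩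
  exact ⟨WithAbs.equiv w.v a, rfl⟩

/-- Approximation of the elements of `E_w` by rational functions. -/
theorem Pt.exists_near (w : Pt Om) (y : w.E) {et : ℝ} (h : 0 < et) : ∃ f, ‖y - w.ι f‖ < et := by
  obtain ⟨f, hf⟩ := w.dense_ι.exists_dist_lt y h
  exact ⟨f, by rwa [dist_eq_norm] at hf⟩

theorem Pt.norm_add (w : Pt Om) (a b : w.E) : ‖a + b‖ ≤ max ‖a‖ ‖b‖ := by
  refine UniformSpace.Completion.induction_on₂ a b ?_ ?_
  · exact isClosed_le (continuous_norm.comp continuous_add)
      ((continuous_norm.comp continuous_fst).max (continuous_norm.comp continuous_snd))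
  · intro a b
    rw [← UniformSpace.Completion.coe_add, UniformSpace.Completion.norm_coe,
      UniformSpace.Completion.norm_coe, UniformSpace.Completion.norm_coe]
    exact w.na (WithAbs.equiv w.v a) (WithAbs.equiv w.v b)

instance (w : Pt Om) : IsUltrametricDist w.E :=
  IsUltrametricDist.isUltrametricDist_of_forall_norm_add_le_max_norm w.norm_add

/-- The map `Om[T, T⁻¹] → E_w`. -/
def lw (w : Pt Om) : Lam Om →+* w.E := w.ι.comp (jF Om)

/-- The norm of `Om` as an absolute value. -/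
def nab (Om : Type) [NormedField Om] : AbsoluteValue Om ℝ where
  toFun a := ‖a‖
  map_mul' := norm_mul
  nonneg' := norm_nonneg
  eq_zero' _ := norm_eq_zero
  add_le' := _root_.norm_add_le

/-- The Gauss norm of the polynomial `P` on the disc with centre `c` and radius `r`. -/
def gn (c : Om) (r : ℝ) (P : Om[X]) : ℝ := (P.comp (X + C c)).gaussNorm (nab Om) r

/-- `0 < pr r`. -/
def pr (r : ℝ) : ℝ := if 0 < r then r else 1

theorem pr_pos (r : ℝ) : 0 < pr r := by
  unfold pr
  split_ifs with h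
  · exact h
  · exact one_pos

theorem pr_eq {r : ℝ} (h : 0 < r) : pr r = r := if_pos h

variable [IsUltrametricDist Om]

theorem nab_na : IsNonarchimedean (nab Om) := fun a b => IsUltrametricDist.norm_add_le_max a b

theorem gn_mul (c : Om) {r : ℝ} (hr : 0 < r) (P Q : Om[X]) : gn c r (P * Q) = gn c r P * gn c r Q := by
  unfold gn
  rw [mul_comp, gaussNorm_mul nab_na hr]

theorem gn_eq_zero (c : Om) {r : ℝ} (hr : 0 < r) {P : Om[X]} : gn c r P = 0 ↔ P = 0 := by
  unfold gn
  rw [gaussNorm_eq_zero_iff (nab Om) _ (fun x hx => (AbsoluteValue.eq_zero _).mp hx) hr]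
  constructor
  · intro h
    have h1 := congrArg (fun Q : Om[X] => Q.comp (X - C c)) h
    simpa [comp_assoc] using h1
  · rintro rfl
    simp

theorem gn_nonneg (c : Om) {r : ℝ} (hr : 0 < r) (P : Om[X]) : 0 ≤ gn c r P :=
  gaussNorm_nonneg _ _ hr.le

theorem gn_add (c : Om) {r : ℝ} (hr : 0 < r) (P Q : Om[X]) :
    gn c r (P + Q) ≤ max (gn c r P) (gn c r Q) := by
  unfold gn
  rw [add_comp]
  exact isNonarchimedean_gaussNorm (nab Om) nab_na hr.le _ _

/-- The value of the Gauss norm on a rational function. -/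
def gf (c : Om) (r : ℝ) (f : RatFunc Om) : ℝ := gn c (pr r) f.num / gn c (pr r) f.denom

theorem gn_pos (c : Om) {r : ℝ} (hr : 0 < r) {P : Om[X]} (h : P ≠ 0) : 0 < gn c r P :=
  lt_of_le_of_ne (gn_nonneg c hr P) (fun h1 => h ((gn_eq_zero c hr).1 h1.symm))

theorem gf_div (c : Om) (r : ℝ) (P : Om[X]) {Q : Om[X]} (hQ : Q ≠ 0) :
    gf c r (algebraMap Om[X] (RatFunc Om) P / algebraMap Om[X] (RatFunc Om) Q) =
      gn c (pr r) P / gn c (pr r) Q := by
  unfold gf
  set f := algebraMap Om[X] (RatFunc Om) P / algebraMap Om[X] (RatFunc Om) Q with hf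
  have h1 : f.num * Q = P * f.denom := (RatFunc.num_mul_eq_mul_denom_iff hQ).2 hf
  have h2 := gn_pos c (pr_pos r) (RatFunc.denom_ne_zero f)
  have h3 := gn_pos c (pr_pos r) hQ
  rw [div_eq_div_iff h2.ne' h3.ne', ← gn_mul c (pr_pos r), ← gn_mul c (pr_pos r), h1]

theorem gf_eq_div (c : Om) (r : ℝ) (f : RatFunc Om) :
    gf c r f = gn c (pr r) f.num / gn c (pr r) f.denom := rfl

theorem gf_mul (c : Om) (r : ℝ) (f g : RatFunc Om) : gf c r (f * g) = gf c r f * gf c r g := by
  have h : f * g = algebraMap Om[X] (RatFunc Om) (f.num * g.num) /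
      algebraMap Om[X] (RatFunc Om) (f.denom * g.denom) := by
    rw [map_mul, map_mul, ← div_mul_div_comm, RatFunc.num_div_denom, RatFunc.num_div_denom]
  rw [h, gf_div c r _ (mul_ne_zero (RatFunc.denom_ne_zero f) (RatFunc.denom_ne_zero g)),
    gn_mul c (pr_pos r), gn_mul c (pr_pos r), gf_eq_div, gf_eq_div, div_mul_div_comm]

theorem gf_add (c : Om) (r : ℝ) (f g : RatFunc Om) :
    gf c r (f + g) ≤ max (gf c r f) (gf c r g) := by
  have hf := RatFunc.denom_ne_zero f
  have hg := RatFunc.denom_ne_zero g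
  have h : f + g = algebraMap Om[X] (RatFunc Om) (f.num * g.denom + f.denom * g.num) /
      algebraMap Om[X] (RatFunc Om) (f.denom * g.denom) := by
    conv_lhs => rw [← RatFunc.num_div_denom f, ← RatFunc.num_div_denom g]
    have h1 : algebraMap Om[X] (RatFunc Om) f.denom ≠ 0 := by
      rw [Ne, map_eq_zero_iff _ (RatFunc.algebraMap_injective Om)]
      exact hf
    have h2 : algebraMap Om[X] (RatFunc Om) g.denom ≠ 0 := by
      rw [Ne, map_eq_zero_iff _ (RatFunc.algebraMap_injective Om)]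
      exact hg
    rw [div_add_div _ _ h1 h2, map_add, map_mul, map_mul, map_mul]
  have p1 := gn_pos c (pr_pos r) hf
  have p2 := gn_pos c (pr_pos r) hg
  rw [h, gf_div c r _ (mul_ne_zero hf hg), gf_eq_div, gf_eq_div, gn_mul c (pr_pos r) f.denom,
    div_le_iff₀ (mul_pos p1 p2)]
  refine (gn_add c (pr_pos r) _ _).trans ?_
  rw [gn_mul c (pr_pos r), gn_mul c (pr_pos r), max_mul_of_nonneg _ _ (mul_pos p1 p2).le]
  refine max_le_max (le_of_eq ?_) (le_of_eq ?_)
  · field_simp
  · field_simp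

theorem gf_C (c : Om) (r : ℝ) (a : Om) : gf c r (RatFunc.C a) = ‖a‖ := by
  have h : RatFunc.C a = algebraMap Om[X] (RatFunc Om) (C a) / algebraMap Om[X] (RatFunc Om) 1 := by
    rw [map_one, div_one, RatFunc.algebraMap_C]
  rw [h, gf_div c r _ one_ne_zero]
  unfold gn
  rw [C_comp, one_comp]
  have h1 : (1 : Om[X]) = C 1 := rfl
  rw [h1, gaussNorm_C, gaussNorm_C]
  change ‖a‖ / ‖(1 : Om)‖ = ‖a‖
  rw [norm_one, div_one]

/-- The Gauss point of the disc with centre `c` and radius `r` (of radius `1` if `r ≤ 0`). -/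
def gp (c : Om) (r : ℝ) : Pt Om where
  v :=
    { toFun := gf c r
      map_mul' := gf_mul c r
      nonneg' := fun f => div_nonneg (gn_nonneg c (pr_pos r) _) (gn_nonneg c (pr_pos r) _)
      eq_zero' := fun f => by
        change gf c r f = 0 ↔ f = 0
        rw [gf_eq_div, div_eq_zero_iff, gn_eq_zero c (pr_pos r), gn_eq_zero c (pr_pos r),
          RatFunc.num_eq_zero_iff]
        constructor
        · rintro (h | h)
          · exact h
          · exact absurd h (RatFunc.denom_ne_zero f)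
        · exact Or.inl
      add_le' := fun f g => (gf_add c r f g).trans
        (max_le (le_add_of_nonneg_right
          (div_nonneg (gn_nonneg c (pr_pos r) _) (gn_nonneg c (pr_pos r) _)))
          (le_add_of_nonneg_left
          (div_nonneg (gn_nonneg c (pr_pos r) _) (gn_nonneg c (pr_pos r) _)))) }
  na := gf_add c r
  ext := gf_C c r

theorem gp_apply (c : Om) (r : ℝ) (f : RatFunc Om) :
    (gp c r).v f = gn c (pr r) f.num / gn c (pr r) f.denom := rfl

theorem gp_div (c : Om) (r : ℝ) (P : Om[X]) {Q : Om[X]} (hQ : Q ≠ 0) :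
    (gp c r).v (algebraMap Om[X] (RatFunc Om) P / algebraMap Om[X] (RatFunc Om) Q) =
      gn c (pr r) P / gn c (pr r) Q := gf_div c r P hQ

end

/-! ### Poles of rational functions -/

section
variable {Om : Type} [Field Om]

/-- Rational functions without poles in `D`. -/
def Reg (D : Set Om) : Subring (RatFunc Om) where
  carrier := {f | ∀ α ∈ D, f.denom.eval α ≠ 0}
  mul_mem' := by
    intro f g hf hg α hα h
    obtain ⟨q, hq⟩ := RatFunc.denom_mul_dvd f g
    have h1 := congrArg (Polynomial.eval α) hq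
    rw [eval_mul, eval_mul, h, zero_mul] at h1
    rcases mul_eq_zero.1 h1 with h2 | h2
    · exact hf α hα h2
    · exact hg α hα h2
  one_mem' := by
    intro α _
    rw [RatFunc.denom_one, eval_one]
    exact one_ne_zero
  add_mem' := by
    intro f g hf hg α hα h
    obtain ⟨q, hq⟩ := RatFunc.denom_add_dvd f g
    have h1 := congrArg (Polynomial.eval α) hq
    rw [eval_mul, eval_mul, h, zero_mul] at h1
    rcases mul_eq_zero.1 h1 with h2 | h2
    · exact hf α hα h2
    · exact hg α hα h2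
  zero_mem' := by
    intro α _
    rw [RatFunc.denom_zero, eval_one]
    exact one_ne_zero
  neg_mem' := by
    intro f hf α hα h
    have h0 : -f = RatFunc.C (-1) * f := by rw [map_neg, map_one, neg_one_mul]
    rw [h0] at h
    obtain ⟨q, hq⟩ := RatFunc.denom_mul_dvd (RatFunc.C (-1)) f
    have h1 := congrArg (Polynomial.eval α) hq
    rw [eval_mul, eval_mul, h, zero_mul] at h1
    rcases mul_eq_zero.1 h1 with h2 | h2
    · rw [RatFunc.denom_C, eval_one] at h2
      exact one_ne_zero h2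
    · exact hf α hα h2

theorem mem_Reg {D : Set Om} {f : RatFunc Om} : f ∈ Reg D ↔ ∀ α ∈ D, f.denom.eval α ≠ 0 := Iff.rfl

/-- Rational functions with all poles in `D` which vanish at infinity. -/
def IsPol (D : Set Om) (f : RatFunc Om) : Prop :=
  (∀ α, α ∉ D → f.denom.eval α ≠ 0) ∧ (f = 0 ∨ f.num.natDegree < f.denom.natDegree)

/-- The open disc. -/
def od {Om : Type} [NormedField Om] (c : Om) (r : ℝ) : Set Om := {α | ‖α - c‖ < r}

/-- The closed disc. -/
def cd {Om : Type} [NormedField Om] (c : Om) (r : ℝ) : Set Om := {α | ‖α - c‖ ≤ r}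

end

/-! ### Multiplicative seminorms on Galois algebras -/

section

/-- Multiplicative ultrametric seminorms on `Al S` which extend `v`. -/
structure MS {B : Type} [CommRing B] {G : Type} [Group G] [Fintype G] (S : SC B G) (v : B → ℝ) where
  w : Al S → ℝ
  nonneg : ∀ a, 0 ≤ w a
  one : w 1 = 1
  mul : ∀ a b, w (a * b) = w a * w b
  add : ∀ a b, w (a + b) ≤ max (w a) (w b)
  cst : ∀ c, w (Al.cst S c) = v c

/-- `b` separates all points residually. -/
def Sepb {B : Type} [CommRing B] {G : Type} [Group G] [Fintype G] {S : SC B G} {v : B → ℝ}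
    (W : MS S v) (b : Al S) : Prop :=
  (∀ g, W.w (Al.act S g b) ≤ 1) ∧
    ∀ g g', g ≠ g' → W.w (Al.act S g b - Al.act S g' b) = 1

/-- `ε` is an idempotent which generates an algebra induced from `N`. -/
structure NI {B : Type} [CommRing B] {G : Type} [Group G] [Fintype G] (S : SC B G)
    (N : Subgroup G) (ε : Al S) : Prop where
  fix : ∀ n ∈ N, Al.act S n ε = ε
  idem : ε * ε = ε
  orth : ∀ h, h ∉ N → ε * Al.act S h ε = 0
  sum : ∑ q : G ⧸ N, Al.act S q.out ε = 1

/-- The hypothesis on `p`-subgroups: every nontrivial `p`-subgroup lies in `g N g⁻¹` for exactly one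
coset `g N`. -/
def SEH (p : ℕ) {G : Type} [Group G] (N : Subgroup G) : Prop :=
  ∀ J : Subgroup G, IsPGroup p J → J ≠ ⊥ →
    ∃ g : G, (∀ a ∈ J, g⁻¹ * a * g ∈ N) ∧ ∀ g' : G, (∀ a ∈ J, g'⁻¹ * a * g' ∈ N) → g⁻¹ * g' ∈ N

end

/-! ### Quality of an approximate idempotent, holes -/

section
variable {Om : Type} [NormedField Om] {G : Type} [Group G] [Fintype G]

/-- A bound for the structure constants of `S` at the point `w`. -/
def MB (S : SC (Lam Om) G) (w : Pt Om) : ℝ :=
  max 1 (Finset.univ.sup' ⟨(1, 1, 1), Finset.mem_univ _⟩ fun i : G × G × G =>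
    max (w.v (jF Om (S.μ i.1 i.2.1 i.2.2)))
      (max (w.v (jF Om (S.α i.1 i.2.1 i.2.2))) (w.v (jF Om (S.ν i.1)))))

/-- The element `b` with rational coordinates is an approximate `N`-idempotent at `w`. -/
structure QA (p : ℕ) (S : SC (Lam Om) G) (N : Subgroup G) (b : Al (S.map (jF Om))) (w : Pt Om) :
    Prop where
  frob : ∀ l, MB S w * w.v ((b ^ p - b) l) < 1
  idem : ∀ l, MB S w * w.v ((b ^ 2 - b) l) < 1
  fix : ∀ n ∈ N, ∀ l, MB S w * w.v ((Al.act (S.map (jF Om)) n b - b) l) < 1
  orth : ∀ h, h ∉ N → ∀ l, MB S w * w.v ((b * Al.act (S.map (jF Om)) h b) l) < 1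
  sum : ∀ l, MB S w * w.v ((∑ q : G ⧸ N, Al.act (S.map (jF Om)) q.out b - 1) l) < 1

end

section
variable (Om : Type) [NormedField Om]

/-- A finite set of holes in the annulus `r0 ≤ |α| ≤ r1`. -/
structure HC where
  J : Type
  fin : Fintype J
  c : J → Om
  ρ : J → ℝ
  r0 : ℝ
  r1 : ℝ
  r0_pos : 0 < r0
  r0_lt : r0 < r1
  c_gt : ∀ j, r0 < ‖c j‖
  c_lt : ∀ j, ‖c j‖ < r1
  ρ_pos : ∀ j, 0 < ρ j
  ρ_lt : ∀ j, ρ j < ‖c j‖
  sep : ∀ i j, i ≠ j → ‖c i - c j‖ = max ‖c i‖ ‖c j‖

attribute [instance] HC.fin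

end

section
variable {Om : Type} [NormedField Om]

/-- The annulus without the holes. -/
def HC.X (H : HC Om) : Set Om := {α | H.r0 ≤ ‖α‖ ∧ ‖α‖ ≤ H.r1 ∧ ∀ j, H.ρ j ≤ ‖α - H.c j‖}

/-- The boundary points: `inl j` for the holes, `inr false` for `0`, `inr true` for infinity. -/
def HC.pt [IsUltrametricDist Om] (H : HC Om) : H.J ⊕ Bool → Pt Om
  | Sum.inl j => gp (H.c j) (H.ρ j)
  | Sum.inr false => gp 0 H.r0
  | Sum.inr true => gp 0 H.r1

/-- `w` is a point of the domain. -/
def HC.Dom (H : HC Om) (w : Pt Om) : Prop :=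
  H.r0 ≤ w.v RatFunc.X ∧ w.v RatFunc.X ≤ H.r1 ∧ ∀ j, H.ρ j ≤ w.v (RatFunc.X - RatFunc.C (H.c j))

/-- The ring of functions on the domain: the closure of the rational functions with poles outside
the domain. -/
def HC.O [IsUltrametricDist Om] (H : HC Om) : Subring ((v : H.J ⊕ Bool) → (H.pt v).E) :=
  ((Reg H.X).map (RingHom.pi fun v => (H.pt v).ι)).topologicalClosure

theorem HC.mem_O [IsUltrametricDist Om] (H : HC Om) (f : (v : H.J ⊕ Bool) → (H.pt v).E) :
    f ∈ H.O ↔ ∀ et : ℝ, 0 < et → ∃ q ∈ Reg H.X, ∀ v, ‖f v - (H.pt v).ι q‖ < et := by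
  change f ∈ closure (((Reg H.X).map (RingHom.pi fun v => (H.pt v).ι) : Subring _) :
    Set ((v : H.J ⊕ Bool) → (H.pt v).E)) ↔ _
  rw [Metric.mem_closure_iff]
  constructor
  · intro h et het
    obtain ⟨g, ⟨q, hq, rfl⟩, hg⟩ := h et het
    refine ⟨q, hq, fun v => ?_⟩
    have h1 := (dist_pi_lt_iff het).1 hg v
    rwa [dist_eq_norm] at h1
  · intro h et het
    obtain ⟨q, hq, h1⟩ := h et het
    refine ⟨_, ⟨q, hq, rfl⟩, (dist_pi_lt_iff het).2 fun v => ?_⟩
    rw [dist_eq_norm]
    exact h1 v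

/-- `E_w` contains the closure of the rational functions without poles in `D`. -/
def TT (w : Pt Om) (D : Set Om) : Subring w.E := ((Reg D).map w.ι).topologicalClosure

theorem mem_TT {w : Pt Om} {D : Set Om} {f : w.E} :
    f ∈ TT w D ↔ ∀ et : ℝ, 0 < et → ∃ q ∈ Reg D, ‖f - w.ι q‖ < et := by
  change f ∈ closure (((Reg D).map w.ι : Subring _) : Set w.E) ↔ _
  rw [Metric.mem_closure_iff]
  constructor
  · intro h et het
    obtain ⟨g, ⟨q, hq, rfl⟩, hg⟩ := h et het
    exact ⟨q, hq, by rwa [dist_eq_norm] at hg⟩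
  · intro h et het
    obtain ⟨q, hq, h1⟩ := h et het
    exact ⟨_, ⟨q, hq, rfl⟩, by rwa [dist_eq_norm]⟩

/-! ### Convergence of Laurent series on a circle -/

/-- `a` is bounded by `C` on the circle of radius `r`. -/
def LB (r : ℝ) (a : LaurentSeries Om) (C : ℝ) : Prop := ∀ n : ℤ, ‖a.coeff n‖ * r ^ n ≤ C

/-- The Laurent series `a` (in `u`, expansion `lz`) or (in `u⁻¹`, expansion `lzi`) converges to `f`
at `w`; `r` is the norm of the variable. -/
def CRrel (w : Pt Om) (e : Lam Om →+* LaurentSeries Om) (r : ℝ) (a : LaurentSeries Om) (f : w.E) :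
    Prop := ∀ et : ℝ, 0 < et → ∃ q : Lam Om, ‖f - lw w q‖ ≤ et ∧ LB r (a - e q) et

end

end

end Pool.Agent.MP_1c8e06_ag.CY
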