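import Pool.Agent.Lib.MP_1c8e06_ag.CY.O3

set_option autoImplicit false

open Polynomial
open scoped Classical

namespace Pool.Agent.MP_1c8e06_ag.CY

open Pool.Agent.MP_1c8e06_ag.AJ

noncomputable section

set_option linter.unusedSectionVars false

/-!
# Campaign CY: the ring of functions on the domain which are meromorphic at `0` and at infinity
-/

variable {Om : Type} [NormedField Om] [CompleteSpace Om] [IsUltrametricDist Om] [IsAlgClosed Om]

/-- The ring of triples `(f, a, b)`: `f` is a function on the domain (limit of rational functions),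
`a` (in `u`) and `b` (in `u⁻¹`) are Laurent series which converge to `f` on the inner and outer
boundary circle. -/
def HC.OO (H : HC Om) :
    Subring (((v : H.J ⊕ Bool) → (H.pt v).E) × LaurentSeries Om × LaurentSeries Om) where
  carrier := {z | z.1 ∈ H.O ∧ CRrel (H.pt (Sum.inr false)) (lz Om) H.r0 z.2.1 (z.1 (Sum.inr false)) ∧
    CRrel (H.pt (Sum.inr true)) (lzi Om) H.r1⁻¹ z.2.2 (z.1 (Sum.inr true))}
  mul_mem' := fun ha hb => ⟨H.O.mul_mem ha.1 hb.1,
    CRrel.mul (cre_lz H.r0_pos) ha.2.1 hb.2.1,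
    CRrel.mul (cre_lzi (H.r0_pos.trans H.r0_lt)) ha.2.2 hb.2.2⟩
  one_mem' := ⟨H.O.one_mem, by
    have h := CRrel.base (cre_lz (Om := Om) H.r0_pos) 1
    rw [map_one, map_one] at h
    exact h, by
    have h := CRrel.base (cre_lzi (Om := Om) (H.r0_pos.trans H.r0_lt)) 1
    rw [map_one, map_one] at h
    exact h⟩
  add_mem' := fun ha hb => ⟨H.O.add_mem ha.1 hb.1,
    CRrel.add (cre_lz H.r0_pos) ha.2.1 hb.2.1,
    CRrel.add (cre_lzi (H.r0_pos.trans H.r0_lt)) ha.2.2 hb.2.2⟩
  zero_mem' := ⟨H.O.zero_mem, by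
    have h := CRrel.base (cre_lz (Om := Om) H.r0_pos) 0
    rw [map_zero, map_zero] at h
    exact h, by
    have h := CRrel.base (cre_lzi (Om := Om) (H.r0_pos.trans H.r0_lt)) 0
    rw [map_zero, map_zero] at h
    exact h⟩
  neg_mem' := fun ha => ⟨H.O.neg_mem ha.1,
    CRrel.neg (cre_lz H.r0_pos) ha.2.1,
    CRrel.neg (cre_lzi (H.r0_pos.trans H.r0_lt)) ha.2.2⟩

/-- The component at the boundary point `v`. -/
def HC.cmp (H : HC Om) (v : H.J ⊕ Bool) : H.OO →+* (H.pt v).E :=
  ((Pi.evalRingHom (fun v => (H.pt v).E) v).comp (RingHom.fst _ _)).comp H.OO.subtype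

/-- The Laurent expansion at `0`. -/
def HC.e0 (H : HC Om) : H.OO →+* LaurentSeries Om :=
  ((RingHom.fst _ _).comp (RingHom.snd _ _)).comp H.OO.subtype

/-- The Laurent expansion at infinity. -/
def HC.e1 (H : HC Om) : H.OO →+* LaurentSeries Om :=
  ((RingHom.snd _ _).comp (RingHom.snd _ _)).comp H.OO.subtype

theorem HC.jF_mem (H : HC Om) (q : Lam Om) : jF Om q ∈ Reg H.X := by
  have h : ∀ α ∈ H.X, α ≠ 0 := by
    rintro α ⟨h0, -⟩ rfl
    rw [norm_zero] at h0
    exact absurd h0 (not_le.2 H.r0_pos)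
  induction q using LaurentPolynomial.induction_on' with
  | add p q hp hq => rw [map_add]; exact (Reg H.X).add_mem hp hq
  | C_mul_T n a =>
    rw [map_mul]
    refine (Reg H.X).mul_mem ?_ ?_
    · rw [jF, LaurentPolynomial.eval₂_C]
      intro α _
      rw [RatFunc.denom_C, eval_one]
      exact one_ne_zero
    · rw [jF, LaurentPolynomial.eval₂_T]
      have hX : (RatFunc.X : RatFunc Om) ∈ Reg H.X := by
        intro α _
        rw [RatFunc.denom_X, eval_one]
        exact one_ne_zero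
      have hXi : ((RatFunc.X : RatFunc Om))⁻¹ ∈ Reg H.X := by
        intro α hα h1
        have h2 := RatFunc.denom_inv_dvd (x := (RatFunc.X : RatFunc Om)) RatFunc.X_ne_zero
        rw [RatFunc.num_X] at h2
        obtain ⟨c, hc⟩ := h2
        have h3 := congrArg (Polynomial.eval α) hc
        rw [eval_mul, h1, zero_mul, eval_X] at h3
        exact h α hα h3
      obtain ⟨m, rfl | rfl⟩ := n.eq_nat_or_neg
      · rw [zpow_natCast, Units.val_pow_eq_pow_val]
        exact (Reg H.X).pow_mem hX m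
      · rw [zpow_neg, zpow_natCast, ← inv_pow, Units.val_pow_eq_pow_val, Units.val_inv_eq_inv_val]
        exact (Reg H.X).pow_mem hXi m

/-- The inclusion of the Laurent polynomials. -/
def HC.lam (H : HC Om) : Lam Om →+* H.OO :=
  ((RingHom.pi fun v => lw (H.pt v)).prod ((lz Om).prod (lzi Om))).codRestrict H.OO fun q =>
    ⟨(Subring.le_topologicalClosure _ ⟨jF Om q, H.jF_mem q, rfl⟩ :
        (fun v => lw (H.pt v) q) ∈ H.O),
      CRrel.base (cre_lz H.r0_pos) q,
      CRrel.base (cre_lzi (H.r0_pos.trans H.r0_lt)) q⟩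

theorem HC.cmp_lam (H : HC Om) (v : H.J ⊕ Bool) (q : Lam Om) :
    H.cmp v (H.lam q) = lw (H.pt v) q := rfl

theorem HC.e0_lam (H : HC Om) (q : Lam Om) : H.e0 (H.lam q) = lz Om q := rfl

theorem HC.e1_lam (H : HC Om) (q : Lam Om) : H.e1 (H.lam q) = lzi Om q := rfl

theorem HC.mem_OO (H : HC Om) (z : H.OO) : z.1.1 ∈ H.O := z.2.1

theorem HC.cr0 (H : HC Om) (z : H.OO) :
    CRrel (gp 0 H.r0) (lz Om) H.r0 (H.e0 z) (H.cmp (Sum.inr false) z) := z.2.2.1

theorem HC.cr1 (H : HC Om) (z : H.OO) :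
    CRrel (gp 0 H.r1) (lzi Om) H.r1⁻¹ (H.e1 z) (H.cmp (Sum.inr true) z) := z.2.2.2

theorem HC.approx (H : HC Om) (z : H.OO) {et : ℝ} (het : 0 < et) :
    ∃ q ∈ Reg H.X, ∀ v, ‖H.cmp v z - (H.pt v).ι q‖ < et := (H.mem_O _).1 z.2.1 et het

/-- Elements of `OO` are regular at `0` and at infinity. -/
def HC.Rg (H : HC Om) (z : H.OO) : Prop :=
  (∀ n : ℤ, n < 0 → (H.e0 z).coeff n = 0) ∧ ∀ n : ℤ, n < 0 → (H.e1 z).coeff n = 0

/-- The hole `j` as a subset of `Om`. -/
def HC.D (H : HC Om) (j : H.J) : Set Om := od (H.c j) (H.ρ j)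

/-- The functions on the hole `j`, as a subring of the completion at its boundary point. -/
def HC.T (H : HC Om) (j : H.J) : Subring (H.pt (Sum.inl j)).E := TT (H.pt (Sum.inl j)) (H.D j)

end

end Pool.Agent.MP_1c8e06_ag.CY
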