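import Pool.Agent.Lib.MP_1c8e06_ag.CY.Defs

set_option autoImplicit false

open Polynomial
open scoped Classical

namespace Pool.Agent.MP_1c8e06_ag.CY

open Pool.Agent.MP_1c8e06_ag.AJ

noncomputable section

set_option linter.unusedSectionVars false

/-!
# Campaign CY: values at `0` and at infinity after a base change
-/

section
variable {p : ℕ} [Fact p.Prime] {K : Type} [Field K] [CharP K p] {G : Type} [Group G]
  [Fintype G] {x : G} {t : K}

/-- The value at the point `1` over `0`, after the base change `θ : K[T, T⁻¹] → B`; `e : B → K((s))`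
is the expansion at `0`. -/
def TPw.v0 (D : TPw p x t) {B : Type} [CommRing B] (θ : Lam K →+* B) (e : B →+* LaurentSeries K)
    (h : ∀ q, e (θ q) = lz K q) : Al (D.S.map θ) →+* AI.EE p (C t * X : K[X]) :=
  Al.lift (D.S.map θ) ((AI.ofL p (C t * X : K[X])).comp e) (fun l => D.r0 (Al.e D.S l))
    (by
      intro i j
      rw [← map_mul, Al.e_mul_e, map_sum]
      refine Finset.sum_congr rfl fun l _ => ?_
      rw [map_mul, D.r0_cst, ← h]
      rfl)
    (by
      have h1 := congrArg D.r0 (Al.one_eq_sum D.S)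
      rw [map_one, map_sum] at h1
      rw [h1]
      refine Finset.sum_congr rfl fun l _ => ?_
      rw [map_mul, D.r0_cst, ← h]
      rfl)

/-- The value at the point `1` over infinity, after the base change `θ`; `e` is the expansion at
infinity. -/
def TPw.v1 (D : TPw p x t) {B : Type} [CommRing B] (θ : Lam K →+* B) (e : B →+* LaurentSeries K)
    (h : ∀ q, e (θ q) = lzi K q) : Al (D.S.map θ) →+* AI.EE p (C t * X : K[X]) :=
  Al.lift (D.S.map θ) ((AI.ofL p (C t * X : K[X])).comp e) (fun l => D.r1 (Al.e D.S l))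
    (by
      intro i j
      rw [← map_mul, Al.e_mul_e, map_sum]
      refine Finset.sum_congr rfl fun l _ => ?_
      rw [map_mul, D.r1_cst, ← h]
      rfl)
    (by
      have h1 := congrArg D.r1 (Al.one_eq_sum D.S)
      rw [map_one, map_sum] at h1
      rw [h1]
      refine Finset.sum_congr rfl fun l _ => ?_
      rw [map_mul, D.r1_cst, ← h]
      rfl)

variable (D : TPw p x t) {B : Type} [CommRing B] (θ : Lam K →+* B) (e : B →+* LaurentSeries K)

theorem TPw.v0_apply (h : ∀ q, e (θ q) = lz K q) (a : Al (D.S.map θ)) :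
    D.v0 θ e h a = ∑ l, AI.ofL p (C t * X : K[X]) (e (a l)) * D.r0 (Al.e D.S l) :=
  Al.lift_apply _ _ _ _ _ a

theorem TPw.v1_apply (h : ∀ q, e (θ q) = lzi K q) (a : Al (D.S.map θ)) :
    D.v1 θ e h a = ∑ l, AI.ofL p (C t * X : K[X]) (e (a l)) * D.r1 (Al.e D.S l) :=
  Al.lift_apply _ _ _ _ _ a

theorem TPw.v0_cst (h : ∀ q, e (θ q) = lz K q) (b : B) :
    D.v0 θ e h (Al.cst _ b) = AI.ofL p (C t * X : K[X]) (e b) := Al.lift_cst _ _ _ _ _ b

theorem TPw.v1_cst (h : ∀ q, e (θ q) = lzi K q) (b : B) :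
    D.v1 θ e h (Al.cst _ b) = AI.ofL p (C t * X : K[X]) (e b) := Al.lift_cst _ _ _ _ _ b

end

/-- `K[X] → K[T, T⁻¹]`, `X ↦ T⁻¹`. -/
def xi (K : Type) [Field K] : K[X] →+* Lam K :=
  Polynomial.eval₂RingHom (LaurentPolynomial.C : K →+* Lam K) (LaurentPolynomial.T (-1))

end

end Pool.Agent.MP_1c8e06_ag.CY
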