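import Pool.Agent.Lib.MP_1c8e06_ag.CY.TDefs

set_option autoImplicit false

open Polynomial
open scoped Classical

namespace Pool.Agent.MP_1c8e06_ag.CY

open Pool.Agent.MP_1c8e06_ag.AJ

noncomputable section

variable {B : Type} [CommRing B] {G : Type} [Group G] [Fintype G]

/-- `S'` is the twist of `S` by `lam`: only the multiplication is changed. -/
structure IsTw (p : ℕ) [Fact p.Prime] (S S' : SC B G) (x : G) (N : Subgroup G) (lam : Al S) :
    Prop where
  α : S'.α = S.α
  ν : S'.ν = S.ν
  T : S'.T = S.T
  T' : S'.T' = S.T'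
  mul : ∀ (a b : G → B) (l : G), ((show Al S' from a) * (show Al S' from b)) l =
    (tmul p S x N lam a b) l

end

end Pool.Agent.MP_1c8e06_ag.CY
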