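import Pool.Agent.Lib.MP_1c8e06_ag.CY.Defs2
import Pool.Agent.Lib.MP_1c8e06_ag.CY.Defs3
import Pool.Agent.Lib.MP_1c8e06_ag.CY.TIDefs

set_option autoImplicit false

open Polynomial
open scoped Classical

namespace Pool.Agent.MP_1c8e06_ag.CY

open Pool.Agent.MP_1c8e06_ag.AJ

noncomputable section

set_option linter.unusedSectionVars false

/-!
# Campaign CY: the data of the twisted and glued algebra
-/

variable {Om : Type} [NormedField Om] [CompleteSpace Om] [IsUltrametricDist Om] [IsAlgClosed Om]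
  {p : ℕ} [Fact p.Prime] [CharP Om p] {G : Type} [Group G] [Fintype G] {x : G} {t : Om}

/-- The value at the point `1` over `0` for elements with coordinates in `OO`. -/
def TPw.h0 (D : TPw p x t) (H : HC Om) : Al (D.S.map H.lam) →+* AI.EE p (C t * X : Om[X]) :=
  D.v0 H.lam H.e0 H.e0_lam

/-- The value at the point `1` over infinity for elements with coordinates in `OO`. -/
def TPw.h1 (D : TPw p x t) (H : HC Om) : Al (D.S.map H.lam) →+* AI.EE p (C t * X : Om[X]) :=
  D.v1 H.lam H.e1 H.e1_lam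

/-- The twisted algebra `S'` over `OO`, its modification `S2` over the Laurent polynomials (basis
change `V`), and the behaviour at `0`, at infinity and at the holes. -/
structure GLD (D : TPw p x t) (H : HC Om) (N : Subgroup G) (χ : G → ℕ)
    (ε : Al (D.S.map H.lam)) where
  lam : Al (D.S.map H.lam)
  lam0 : LaurentSeries Om
  lam1 : LaurentSeries Om
  n0 : ℕ
  S' : SC H.OO G
  V : Matrix G G H.OO
  V' : Matrix G G H.OO
  S2 : SC (Lam Om) G
  tw : TwD p (D.S.map H.lam) x N χ ε lam
  isT : IsTw p (D.S.map H.lam) S' x N lam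
  VV' : V * V' = 1
  V'V : V' * V = 1
  ks : (S2.map H.lam).ks = S'.ks.chb V V'
  at0 : D.h0 H lam = AI.ofL p (C t * X : Om[X]) lam0
  at1 : D.h1 H lam = AI.ofL p (C t * X : Om[X]) lam1
  hn0 : ¬ p ∣ n0
  pole : (HahnSeries.single (-1 : ℤ) t + lam0).coeff (-(n0 : ℤ)) ≠ 0
  pole' : ∀ n : ℤ, n < -(n0 : ℤ) → (HahnSeries.single (-1 : ℤ) t + lam0).coeff n = 0
  reg : ∀ n : ℤ, n < 0 → (HahnSeries.single (-1 : ℤ) t + lam1).coeff n = 0
  /-- At a hole there is a matrix `Θ` (of an isomorphism of the twisted with the old algebra) such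
  that `V Θ` is regular on the hole; elements which are `x`-invariant on the main component are
  fixed by `Θ`. -/
  hole : ∀ j, ∃ Θ : Matrix G G (H.pt (Sum.inl j)).E,
    (∀ l m, (V.map (H.cmp (Sum.inl j)) * Θ) l m ∈ H.T j) ∧
    ∀ a : Al (D.S.map H.lam),
      (∀ g, ε * Al.act _ (x * g) a = ε * Al.act _ g a) →
      ∀ m, ∑ l, H.cmp (Sum.inl j) (a l) * Θ l m = H.cmp (Sum.inl j) (a m)

end

end Pool.Agent.MP_1c8e06_ag.CY
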