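import Pool.Agent.Lib.MP_1c8e06_ag.Mg.G043

set_option autoImplicit false

open scoped Classical

namespace Pool.Agent.MP_1c8e06_ag.CY

/-!
# The local-global theorem with Theorem C
-/

theorem main_fin {p : ℕ} [hp : Fact p.Prime] (k : Type) [Field k] [IsAlgClosed k] [CharP k p]
    {G : Type} [Group G] [Finite G]
    (hG : ∀ (L : Subgroup G) (X : Type) [Group X] (f : L →* X) (x : X),
      Function.Surjective f → RC.Mi p X x → ¬ Iso p x → (¬ ∀ Q : Sylow p X, IsCyclic Q) →
      AI.Realised k X (Subgroup.zpowers x))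
    (P : Subgroup G) (hP : IsPGroup p P) (hgen : Subgroup.normalClosure (P : Set G) = ⊤) :
    AI.Realised k G P :=
  main_iso k (theoremC k) hG P hP hgen

end Pool.Agent.MP_1c8e06_ag.CY
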