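import Pool.Agent.Lib.MP_1c8e06_ag.Mg.G009

/-!
# CY G0: change of basis and descent of structure constants

Ks.chb: the constants of the basis b' l = ∑ g l m • b m (gi = inverse of g), AJ/Defs.
`chb_chb`: pure algebra: b'' = g' b' = (g' g) b with inverse gi gi' (all sums can be exchanged; see the
definition; `Matrix.mul_apply`, Finset.sum_comm).  `chb_one`.
`SC.TT'`: (DUAL) take the relation of `Al.dual'` (V1) with g = 1, multiply by act g' (e k) and sum over g':
e k = ∑_{l,m} cst (T' l m) e l * (∑_g' act g' (e m * e k)) = ∑ cst (T' l m * T m k) e l (SC.tr says ∑_g' act g' (e m e k) =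
cst (T m k)); compare coordinates: ∑_m T' l m * T m k = if l = k then 1 else 0.
`SC.ks_inj`: S is determined by its constants (structure extensionality: the remaining fields are proofs).
`exists_SC_chb`: define S2 with the five families of S.ks.chb A Ai.  All axioms of SC can be checked in Al S: the map
Φ : (G → B) → Al S, Φ a = ∑_l cst (a l) * b_l, b_l = ∑_m cst (A l m) e m is bijective (A invertible), and
b_i b_j = ∑ cst (μ2 i j l) b_l, act h b_l = ∑ cst (α2 h l m) b_m, ∑ cst (ν2 l) b_l = 1, ∑_x act x (b_i b_j) = cst (T2 i j),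
∑ cst (T2' l m) b_l act x b_m = [x = 1].  Each axiom is the statement that two elements of Al S have the same Φ-coordinates.
`exists_descend`: every axiom for k follows from the axiom for S by injectivity of φ (`SC.map` in the other direction;
compare AJ/E6 `exists_SC_subring`).
-/

set_option autoImplicit false

open Polynomial
open scoped Classical

namespace Pool.Agent.MP_1c8e06_ag.CY

open Pool.Agent.MP_1c8e06_ag.AJ

noncomputable section

set_option linter.unusedSectionVars false

variable {B : Type} [CommRing B] {G : Type} [Group G] [Fintype G]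

private theorem G0_ext {k k' : Ks B G} (h1 : ∀ i j l, k.μ i j l = k'.μ i j l)
    (h2 : ∀ h l m, k.α h l m = k'.α h l m) (h3 : ∀ l, k.ν l = k'.ν l)
    (h4 : ∀ i j, k.T i j = k'.T i j) (h5 : ∀ i j, k.T' i j = k'.T' i j) : k = k' := by
  obtain ⟨μ, α, ν, T, T'⟩ := k
  obtain ⟨μ', α', ν', S, S'⟩ := k'
  have e1 : μ = μ' := by
    funext i j l
    exact h1 i j l
  have e2 : α = α' := by
    funext i j l
    exact h2 i j l
  have e3 : ν = ν' := by
    funext i
    exact h3 i
  have e4 : T = S := by
    funext i j
    exact h4 i j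
  have e5 : T' = S' := by
    funext i j
    exact h5 i j
  rw [e1, e2, e3, e4, e5]

private theorem G0_α (k : Ks B G) (g gi : Matrix G G B) (h l m : G) :
    (k.chb g gi).α h l m = (g * (Matrix.of (k.α h)) * gi) l m := by
  show ∑ a, ∑ c, g l a * k.α h a c * gi c m = _
  rw [Matrix.mul_apply, Finset.sum_comm]
  refine Finset.sum_congr rfl fun c _ => ?_
  rw [Matrix.mul_apply, Finset.sum_mul]
  rfl

private theorem G0_μ (k : Ks B G) (g gi : Matrix G G B) (j l m : G) :
    (k.chb g gi).μ j l m = ∑ a, g j a * (g * (Matrix.of (k.μ a)) * gi) l m := by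
  show ∑ a, ∑ b, ∑ c, g j a * g l b * k.μ a b c * gi c m = _
  refine Finset.sum_congr rfl fun a _ => ?_
  rw [Matrix.mul_apply, Finset.sum_comm, Finset.mul_sum]
  refine Finset.sum_congr rfl fun c _ => ?_
  rw [Matrix.mul_apply, Finset.sum_mul, Finset.mul_sum]
  refine Finset.sum_congr rfl fun b _ => ?_
  rw [Matrix.of_apply]
  ring

private theorem G0_ν (k : Ks B G) (g gi : Matrix G G B) (m : G) :
    (k.chb g gi).ν m = Matrix.vecMul k.ν gi m := rfl

private theorem G0_T (k : Ks B G) (g gi : Matrix G G B) (j l : G) :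
    (k.chb g gi).T j l = (g * (Matrix.of k.T) * g.transpose) j l := by
  show ∑ a, ∑ b, g j a * g l b * k.T a b = _
  rw [Matrix.mul_apply, Finset.sum_comm]
  refine Finset.sum_congr rfl fun c _ => ?_
  rw [Matrix.mul_apply, Finset.sum_mul]
  refine Finset.sum_congr rfl fun b _ => ?_
  rw [Matrix.of_apply, Matrix.transpose_apply]
  ring

private theorem G0_T' (k : Ks B G) (g gi : Matrix G G B) (j l : G) :
    (k.chb g gi).T' j l = (gi.transpose * (Matrix.of k.T') * gi) j l := by
  show ∑ a, ∑ b, gi a j * k.T' a b * gi b l = _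
  rw [Matrix.mul_apply, Finset.sum_comm]
  refine Finset.sum_congr rfl fun c _ => ?_
  rw [Matrix.mul_apply, Finset.sum_mul]
  rfl

theorem Ks.chb_chb (k : Ks B G) (g gi g' gi' : Matrix G G B) :
    (k.chb g gi).chb g' gi' = k.chb (g' * g) (gi * gi') := by
  refine G0_ext ?_ ?_ ?_ ?_ ?_
  · intro i j l
    rw [G0_μ, G0_μ]
    have h1 : ∀ a, Matrix.of ((k.chb g gi).μ a) =
        ∑ b, g a b • (g * Matrix.of (k.μ b) * gi) := by
      intro a
      ext x y
      rw [Matrix.of_apply, G0_μ, Matrix.sum_apply]
      refine Finset.sum_congr rfl fun b _ => ?_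
      rw [Matrix.smul_apply, smul_eq_mul]
    have h2 : ∀ a, g' * Matrix.of ((k.chb g gi).μ a) * gi' =
        ∑ b, g a b • ((g' * g) * Matrix.of (k.μ b) * (gi * gi')) := by
      intro a
      rw [h1, Finset.mul_sum, Finset.sum_mul]
      refine Finset.sum_congr rfl fun b _ => ?_
      rw [Matrix.mul_smul, Matrix.smul_mul]
      congr 1
      simp only [Matrix.mul_assoc]
    have h3 : ∀ a, (g' * Matrix.of ((k.chb g gi).μ a) * gi') j l =
        ∑ b, g a b * ((g' * g) * Matrix.of (k.μ b) * (gi * gi')) j l := by
      intro a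
      rw [h2, Matrix.sum_apply]
      refine Finset.sum_congr rfl fun b _ => ?_
      rw [Matrix.smul_apply, smul_eq_mul]
    rw [Finset.sum_congr rfl fun a _ => by rw [h3 a, Finset.mul_sum], Finset.sum_comm]
    refine Finset.sum_congr rfl fun b _ => ?_
    rw [Matrix.mul_apply (M := g') (N := g), Finset.sum_mul]
    refine Finset.sum_congr rfl fun a _ => ?_
    ring
  · intro h l m
    rw [G0_α, G0_α]
    have h1 : Matrix.of ((k.chb g gi).α h) = g * Matrix.of (k.α h) * gi := by
      ext x y
      rw [Matrix.of_apply, G0_α]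
    rw [h1]
    simp only [Matrix.mul_assoc]
  · intro l
    rw [G0_ν, G0_ν]
    have h1 : (k.chb g gi).ν = Matrix.vecMul k.ν gi := rfl
    rw [h1, Matrix.vecMul_vecMul]
  · intro i j
    rw [G0_T, G0_T]
    have h1 : Matrix.of ((k.chb g gi).T) = g * Matrix.of k.T * g.transpose := by
      ext x y
      rw [Matrix.of_apply, G0_T]
    rw [h1, Matrix.transpose_mul]
    simp only [Matrix.mul_assoc]
  · intro i j
    rw [G0_T', G0_T']
    have h1 : Matrix.of ((k.chb g gi).T') = gi.transpose * Matrix.of k.T' * gi := by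
      ext x y
      rw [Matrix.of_apply, G0_T']
    rw [h1, Matrix.transpose_mul]
    simp only [Matrix.mul_assoc]

theorem Ks.chb_one (k : Ks B G) : k.chb 1 1 = k := by
  refine G0_ext ?_ ?_ ?_ ?_ ?_
  · intro i j l
    rw [G0_μ]
    simp [Matrix.one_apply]
  · intro h l m
    rw [G0_α]
    simp
  · intro l
    rw [G0_ν]
    simp
  · intro i j
    rw [G0_T]
    simp
  · intro i j
    rw [G0_T']
    simp

theorem SC.TT' (S : SC B G) (l k : G) : ∑ m, S.T' l m * S.T m k = if l = k then 1 else 0 := by
  have h1 : Al.e S k = ∑ l, ∑ m, Al.cst S (S.T' l m) * Al.e S l * Al.cst S (S.T m k) := by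
    calc Al.e S k = ∑ g' : G, (if (1 : G) = g' then 1 else 0) * Al.act S g' (Al.e S k) := by
          simp
      _ = ∑ g' : G, ∑ l, ∑ m, Al.cst S (S.T' l m) * Al.e S l *
          Al.act S g' (Al.e S m * Al.e S k) := by
          refine Finset.sum_congr rfl fun g' _ => ?_
          rw [← Al.dual' S 1 g', Finset.sum_mul]
          refine Finset.sum_congr rfl fun l _ => ?_
          rw [Finset.sum_mul]
          refine Finset.sum_congr rfl fun m _ => ?_
          rw [Al.act_one_apply, map_mul]
          ring
      _ = ∑ l, ∑ m, ∑ g' : G, Al.cst S (S.T' l m) * Al.e S l *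
          Al.act S g' (Al.e S m * Al.e S k) := by
          rw [Finset.sum_comm]
          refine Finset.sum_congr rfl fun l _ => ?_
          rw [Finset.sum_comm]
      _ = _ := by
          refine Finset.sum_congr rfl fun l _ => Finset.sum_congr rfl fun m _ => ?_
          rw [← Finset.mul_sum, tr_ee]
  have h2 := congrFun h1 l
  have h3 : (∑ l, ∑ m, Al.cst S (S.T' l m) * Al.e S l * Al.cst S (S.T m k) : Al S) l =
      ∑ m, S.T' l m * S.T m k := by
    rw [Al.sum_apply]
    have h4 : ∀ i, (∑ m, Al.cst S (S.T' i m) * Al.e S i * Al.cst S (S.T m k) : Al S) l =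
        (∑ m, S.T' i m * S.T m k) * (if i = l then 1 else 0) := by
      intro i
      rw [Al.sum_apply, Finset.sum_mul]
      refine Finset.sum_congr rfl fun m _ => ?_
      rw [mul_comm (Al.cst S (S.T' i m) * Al.e S i), ← mul_assoc, ← map_mul, Al.cst_mul]
      show S.T m k * S.T' i m * (if i = l then 1 else 0) = _
      ring
    rw [Finset.sum_congr rfl fun i _ => h4 i]
    simp
  rw [h3] at h2
  rw [← h2]
  show (if k = l then (1 : B) else 0) = _
  by_cases hkl : l = k
  · rw [if_pos hkl, if_pos hkl.symm]
  · rw [if_neg hkl, if_neg (fun h => hkl h.symm)]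

theorem SC.ks_inj {S S' : SC B G} (h : S.ks = S'.ks) : S = S' := by
  obtain ⟨μ, α, ν, T, T', _, _, _, _, _, _, _, _, _⟩ := S
  obtain ⟨μ', α', ν', T1, T1', _, _, _, _, _, _, _, _, _⟩ := S'
  have h' : (⟨μ, α, ν, T, T'⟩ : Ks B G) = ⟨μ', α', ν', T1, T1'⟩ := h
  have e1 : μ = μ' := congrArg Ks.μ h'
  have e2 : α = α' := congrArg Ks.α h'
  have e3 : ν = ν' := congrArg Ks.ν h'
  have e4 : T = T1 := congrArg Ks.T h'
  have e5 : T' = T1' := congrArg Ks.T' h'
  subst e1 e2 e3 e4 e5
  rfl

/-- A structure with constants `k` from a basis of an algebra with action. -/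
private def G0_mk {A0 : Type} [CommRing A0] (c : B →+* A0) (act : G →* (A0 →+* A0))
    (hc : ∀ g b, act g (c b) = c b) (b : G → A0)
    (hb : ∀ a a' : G → B, ∑ l, c (a l) * b l = ∑ l, c (a' l) * b l → a = a') (k : Ks B G)
    (hM : ∀ i j, b i * b j = ∑ l, c (k.μ i j l) * b l)
    (hA : ∀ h l, act h (b l) = ∑ m, c (k.α h l m) * b m)
    (hU : ∑ l, c (k.ν l) * b l = 1)
    (hT : ∀ i j, ∑ x, act x (b i * b j) = c (k.T i j))
    (hD : ∀ x, ∑ l, ∑ m, c (k.T' l m) * b l * act x (b m) = if x = 1 then 1 else 0) :
    SC B G where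
  μ := k.μ
  α := k.α
  ν := k.ν
  T := k.T
  T' := k.T'
  comm i j l := by
    have h : k.μ i j = k.μ j i := hb _ _ (by rw [← hM, ← hM, mul_comm])
    rw [h]
  assoc i j m0 l := by
    have h : (fun l => ∑ m, k.μ i j m * k.μ m m0 l) = fun l => ∑ m, k.μ j m0 m * k.μ i m l := by
      refine hb _ _ ?_
      have h1 : ∑ l, c (∑ m, k.μ i j m * k.μ m m0 l) * b l = b i * b j * b m0 := by
        rw [hM i j, Finset.sum_mul]
        have h2 : ∀ m, c (k.μ i j m) * b m * b m0 = ∑ l, c (k.μ i j m * k.μ m m0 l) * b l := by
          intro m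
          rw [mul_assoc, hM m m0, Finset.mul_sum]
          refine Finset.sum_congr rfl fun l _ => ?_
          rw [map_mul, mul_assoc]
        rw [Finset.sum_congr rfl fun m _ => h2 m, Finset.sum_comm]
        refine Finset.sum_congr rfl fun l _ => ?_
        rw [map_sum, Finset.sum_mul]
      have h3 : ∑ l, c (∑ m, k.μ j m0 m * k.μ i m l) * b l = b i * b j * b m0 := by
        rw [mul_assoc, hM j m0, Finset.mul_sum]
        have h2 : ∀ m, b i * (c (k.μ j m0 m) * b m) = ∑ l, c (k.μ j m0 m * k.μ i m l) * b l := by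
          intro m
          rw [mul_left_comm, hM i m, Finset.mul_sum]
          refine Finset.sum_congr rfl fun l _ => ?_
          rw [map_mul, mul_assoc]
        rw [Finset.sum_congr rfl fun m _ => h2 m, Finset.sum_comm]
        refine Finset.sum_congr rfl fun l _ => ?_
        rw [map_sum, Finset.sum_mul]
      rw [h1, h3]
    exact congrFun h l
  unit j l := by
    have h : (fun l => ∑ i, k.ν i * k.μ i j l) = fun l => if j = l then 1 else 0 := by
      refine hb _ _ ?_
      have h1 : ∑ l, c (∑ i, k.ν i * k.μ i j l) * b l = 1 * b j := by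
        rw [← hU, Finset.sum_mul]
        have h2 : ∀ m, c (k.ν m) * b m * b j = ∑ l, c (k.ν m * k.μ m j l) * b l := by
          intro m
          rw [mul_assoc, hM m j, Finset.mul_sum]
          refine Finset.sum_congr rfl fun l _ => ?_
          rw [map_mul, mul_assoc]
        rw [Finset.sum_congr rfl fun m _ => h2 m, Finset.sum_comm]
        refine Finset.sum_congr rfl fun l _ => ?_
        rw [map_sum, Finset.sum_mul]
      rw [h1]
      simp [apply_ite c]
    exact congrFun h l
  α_one l m := by
    have h : k.α 1 l = fun m => if l = m then 1 else 0 := by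
      refine hb _ _ ?_
      rw [← hA, map_one]
      simp [apply_ite c]
    exact congrFun h m
  α_mul g h l n := by
    have h0 : k.α (g * h) l = fun n => ∑ m, k.α h l m * k.α g m n := by
      refine hb _ _ ?_
      rw [← hA, map_mul, RingHom.mul_def, RingHom.comp_apply, hA h l, map_sum]
      have h2 : ∀ m, act g (c (k.α h l m) * b m) = ∑ n, c (k.α h l m * k.α g m n) * b n := by
        intro m
        rw [map_mul, hc, hA g m, Finset.mul_sum]
        refine Finset.sum_congr rfl fun l _ => ?_
        rw [map_mul, mul_assoc]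
      rw [Finset.sum_congr rfl fun m _ => h2 m, Finset.sum_comm]
      refine Finset.sum_congr rfl fun l _ => ?_
      rw [map_sum, Finset.sum_mul]
    exact congrFun h0 n
  α_μ h i j l := by
    have h0 : (fun l => ∑ m, k.μ i j m * k.α h m l) =
        fun l => ∑ m, ∑ n, k.α h i m * k.α h j n * k.μ m n l := by
      refine hb _ _ ?_
      have h1 : ∑ l, c (∑ m, k.μ i j m * k.α h m l) * b l = act h (b i * b j) := by
        rw [hM i j, map_sum]
        have h2 : ∀ m, act h (c (k.μ i j m) * b m) = ∑ n, c (k.μ i j m * k.α h m n) * b n := by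
          intro m
          rw [map_mul, hc, hA h m, Finset.mul_sum]
          refine Finset.sum_congr rfl fun l _ => ?_
          rw [map_mul, mul_assoc]
        rw [Finset.sum_congr rfl fun m _ => h2 m, Finset.sum_comm]
        refine Finset.sum_congr rfl fun l _ => ?_
        rw [map_sum, Finset.sum_mul]
      rw [h1, map_mul, hA h i, hA h j, Finset.sum_mul_sum]
      have h3 : ∀ m n, c (k.α h i m) * b m * (c (k.α h j n) * b n) =
          ∑ l, c (k.α h i m * k.α h j n * k.μ m n l) * b l := by
        intro m n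
        have : c (k.α h i m) * b m * (c (k.α h j n) * b n) =
            c (k.α h i m) * c (k.α h j n) * (b m * b n) := by ring
        rw [this, hM m n, Finset.mul_sum]
        refine Finset.sum_congr rfl fun l _ => ?_
        rw [map_mul, map_mul]
        ring
      rw [Finset.sum_congr rfl fun m _ => Finset.sum_congr rfl fun n _ => h3 m n]
      rw [Finset.sum_congr rfl fun m _ => Finset.sum_comm, Finset.sum_comm]
      refine Finset.sum_congr rfl fun l _ => ?_
      rw [map_sum, Finset.sum_mul]
      refine Finset.sum_congr rfl fun m _ => ?_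
      rw [map_sum, Finset.sum_mul]
    exact congrFun h0 l
  α_ν h m := by
    have h0 : (fun m => ∑ l, k.ν l * k.α h l m) = k.ν := by
      refine hb _ _ ?_
      rw [hU]
      have h1 : ∑ m, c (∑ l, k.ν l * k.α h l m) * b m = act h 1 := by
        rw [← hU, map_sum]
        have h2 : ∀ l, act h (c (k.ν l) * b l) = ∑ n, c (k.ν l * k.α h l n) * b n := by
          intro m
          rw [map_mul, hc, hA h m, Finset.mul_sum]
          refine Finset.sum_congr rfl fun l _ => ?_
          rw [map_mul, mul_assoc]
        rw [Finset.sum_congr rfl fun m _ => h2 m, Finset.sum_comm]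
        refine Finset.sum_congr rfl fun l _ => ?_
        rw [map_sum, Finset.sum_mul]
      rw [h1, map_one]
    exact congrFun h0 m
  tr i j l := by
    have h0 : (fun l => ∑ x, ∑ m, k.μ i j m * k.α x m l) = fun l => k.T i j * k.ν l := by
      refine hb _ _ ?_
      have h1 : ∑ l, c (∑ x, ∑ m, k.μ i j m * k.α x m l) * b l = ∑ x, act x (b i * b j) := by
        have h2 : ∀ x, act x (b i * b j) = ∑ l, c (∑ m, k.μ i j m * k.α x m l) * b l := by
          intro x
          rw [hM i j, map_sum]
          have h2 : ∀ m, act x (c (k.μ i j m) * b m) = ∑ n, c (k.μ i j m * k.α x m n) * b n := by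
            intro m
            rw [map_mul, hc, hA x m, Finset.mul_sum]
            refine Finset.sum_congr rfl fun l _ => ?_
            rw [map_mul, mul_assoc]
          rw [Finset.sum_congr rfl fun m _ => h2 m, Finset.sum_comm]
          refine Finset.sum_congr rfl fun l _ => ?_
          rw [map_sum, Finset.sum_mul]
        rw [Finset.sum_congr rfl fun x _ => h2 x, Finset.sum_comm]
        refine Finset.sum_congr rfl fun l _ => ?_
        rw [map_sum, Finset.sum_mul]
      rw [h1, hT]
      have h3 : ∑ l, c (k.T i j * k.ν l) * b l = c (k.T i j) * ∑ l, c (k.ν l) * b l := by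
        rw [Finset.mul_sum]
        refine Finset.sum_congr rfl fun l _ => ?_
        rw [map_mul, mul_assoc]
      rw [h3, hU, mul_one]
    exact congrFun h0 l
  dual x k0 := by
    have h0 : (fun k0 => ∑ l, ∑ m, ∑ n, k.T' l m * k.α x m n * k.μ l n k0) =
        fun k0 => if x = 1 then k.ν k0 else 0 := by
      refine hb _ _ ?_
      have h1 : ∑ k0, c (∑ l, ∑ m, ∑ n, k.T' l m * k.α x m n * k.μ l n k0) * b k0 =
          ∑ l, ∑ m, c (k.T' l m) * b l * act x (b m) := by
        have h2 : ∀ l m, c (k.T' l m) * b l * act x (b m) =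
            ∑ k0, c (∑ n, k.T' l m * k.α x m n * k.μ l n k0) * b k0 := by
          intro l m
          rw [hA x m, Finset.mul_sum]
          have h3 : ∀ n, c (k.T' l m) * b l * (c (k.α x m n) * b n) =
              ∑ k0, c (k.T' l m * k.α x m n * k.μ l n k0) * b k0 := by
            intro n
            have : c (k.T' l m) * b l * (c (k.α x m n) * b n) =
              c (k.T' l m) * c (k.α x m n) * (b l * b n) := by ring
            rw [this, hM l n, Finset.mul_sum]
            refine Finset.sum_congr rfl fun l _ => ?_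
            rw [map_mul, map_mul]
            ring
          rw [Finset.sum_congr rfl fun n _ => h3 n, Finset.sum_comm]
          refine Finset.sum_congr rfl fun l _ => ?_
          rw [map_sum, Finset.sum_mul]
        rw [Finset.sum_congr rfl fun l _ => Finset.sum_congr rfl fun m _ => h2 l m]
        rw [Finset.sum_congr rfl fun m _ => Finset.sum_comm, Finset.sum_comm]
        refine Finset.sum_congr rfl fun l _ => ?_
        rw [map_sum, Finset.sum_mul]
        refine Finset.sum_congr rfl fun m _ => ?_
        rw [map_sum, Finset.sum_mul]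
      rw [h1, hD]
      by_cases hx : x = 1
      · rw [if_pos hx, ← hU]
        refine Finset.sum_congr rfl fun l _ => ?_
        rw [if_pos hx]
      · rw [if_neg hx]
        symm
        refine Finset.sum_eq_zero fun l _ => ?_
        rw [if_neg hx, map_zero, zero_mul]
    exact congrFun h0 k0

theorem exists_SC_chb (S : SC B G) (A Ai : Matrix G G B) (h1 : A * Ai = 1) (h2 : Ai * A = 1) :
    ∃ (S2 : SC B G) (Φ : Al S2 ≃+* Al S), S2.ks = S.ks.chb A Ai ∧
      (∀ a m, Φ a m = ∑ l, a l * A l m) ∧ (∀ b, Φ (Al.cst S2 b) = Al.cst S b) ∧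
      ∀ g a, Φ (Al.act S2 g a) = Al.act S g (Φ a) := by
  let b : G → Al S := fun l => (fun m => A l m : Al S)
  have hco : ∀ (a : G → B) (n : G), (∑ l, Al.cst S (a l) * b l : Al S) n = ∑ l, a l * A l n := by
    intro a n
    rw [Al.sum_apply]
    refine Finset.sum_congr rfl fun l _ => ?_
    rw [Al.cst_mul]
  have hexp : ∀ y : Al S, ∑ l, Al.cst S (∑ c, y c * Ai c l) * b l = y := by
    intro y
    refine Al.ext fun n => ?_
    rw [hco (fun l => ∑ c, y c * Ai c l)]
    have h3 : Matrix.vecMul (Matrix.vecMul y Ai) A n = y n := by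
      rw [Matrix.vecMul_vecMul, h2, Matrix.vecMul_one]
    exact h3
  have hb : ∀ a a' : G → B, ∑ l, Al.cst S (a l) * b l = ∑ l, Al.cst S (a' l) * b l → a = a' := by
    intro a a' h
    have h3 : Matrix.vecMul a A = Matrix.vecMul a' A := by
      funext n
      have h4 := congrFun h n
      have h5 := (hco a n).symm.trans (h4.trans (hco a' n))
      exact h5
    have h4 : Matrix.vecMul (Matrix.vecMul a A) Ai = Matrix.vecMul (Matrix.vecMul a' A) Ai := by
      rw [h3]
    rwa [Matrix.vecMul_vecMul, Matrix.vecMul_vecMul, h1, Matrix.vecMul_one,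
      Matrix.vecMul_one] at h4
  have hbe : ∀ a, ∑ l, Al.cst S (Ai a l) * b l = Al.e S a := by
    intro a
    have h3 := hexp (Al.e S a)
    have h4 : ∀ l, ∑ c, Al.e S a c * Ai c l = Ai a l := by
      intro l
      simp [Al.e]
    rw [Finset.sum_congr rfl fun l _ => by rw [h4 l]] at h3
    exact h3
  have hM : ∀ i j, b i * b j = ∑ l, Al.cst S ((S.ks.chb A Ai).μ i j l) * b l := by
    intro i j
    conv_lhs => rw [← hexp (b i * b j)]
    refine Finset.sum_congr rfl fun l _ => ?_
    congr 2
    show _ = ∑ a, ∑ b, ∑ c, A i a * A j b * S.μ a b c * Ai c l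
    have h3 : ∀ c, (b i * b j) c * Ai c l = ∑ a, ∑ b, A i a * A j b * S.μ a b c * Ai c l := by
      intro c
      rw [Al.mul_apply, Finset.sum_mul]
      refine Finset.sum_congr rfl fun a _ => ?_
      rw [Finset.sum_mul]
    rw [Finset.sum_congr rfl fun c _ => h3 c, Finset.sum_comm]
    refine Finset.sum_congr rfl fun a _ => ?_
    rw [Finset.sum_comm]
  have hA : ∀ h l, Al.act S h (b l) = ∑ m, Al.cst S ((S.ks.chb A Ai).α h l m) * b m := by
    intro h l
    conv_lhs => rw [← hexp (Al.act S h (b l))]
    refine Finset.sum_congr rfl fun m _ => ?_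
    congr 2
    show _ = ∑ a, ∑ c, A l a * S.α h a c * Ai c m
    rw [Finset.sum_comm]
    refine Finset.sum_congr rfl fun c _ => ?_
    rw [Al.act_apply, Finset.sum_mul]
  have hU : ∑ l, Al.cst S ((S.ks.chb A Ai).ν l) * b l = 1 := hexp 1
  have hT : ∀ i j, ∑ x, Al.act S x (b i * b j) = Al.cst S ((S.ks.chb A Ai).T i j) := by
    intro i j
    have h3 : ∀ x, Al.act S x (b i * b j) = ∑ a, ∑ c, Al.cst S (A i a * A j c) *
        Al.act S x (Al.e S a * Al.e S c) := by
      intro x
      have h4 : b i = ∑ a, Al.cst S (A i a) * Al.e S a := Al.eq_sum S _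
      have h5 : b j = ∑ a, Al.cst S (A j a) * Al.e S a := Al.eq_sum S _
      rw [h4, h5, Finset.sum_mul_sum, map_sum]
      refine Finset.sum_congr rfl fun a _ => ?_
      rw [map_sum]
      refine Finset.sum_congr rfl fun c _ => ?_
      simp only [map_mul, Al.act_cst]
      ring
    rw [Finset.sum_congr rfl fun x _ => h3 x, Finset.sum_comm]
    show _ = Al.cst S (∑ a, ∑ c, A i a * A j c * S.T a c)
    rw [map_sum]
    refine Finset.sum_congr rfl fun a _ => ?_
    rw [map_sum, Finset.sum_comm]
    refine Finset.sum_congr rfl fun c _ => ?_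
    rw [← Finset.mul_sum, tr_ee, ← map_mul]
  have hD : ∀ x, ∑ l, ∑ m, Al.cst S ((S.ks.chb A Ai).T' l m) * b l * Al.act S x (b m) =
      if x = 1 then 1 else 0 := by
    intro x
    rw [← dual_e S x]
    have hr : ∀ a c, Al.cst S (S.T' a c) * Al.e S a * Al.act S x (Al.e S c) =
        ∑ l, ∑ m, Al.cst S (Ai a l * S.T' a c * Ai c m) * b l * Al.act S x (b m) := by
      intro a c
      rw [← hbe a, ← hbe c, map_sum, mul_assoc, Finset.sum_mul_sum, Finset.mul_sum]
      refine Finset.sum_congr rfl fun l _ => ?_
      rw [Finset.mul_sum]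
      refine Finset.sum_congr rfl fun m _ => ?_
      simp only [map_mul, Al.act_cst]
      ring
    rw [Finset.sum_congr rfl fun a _ => Finset.sum_congr rfl fun c _ => hr a c]
    have hl : ∀ l m, Al.cst S ((S.ks.chb A Ai).T' l m) * b l * Al.act S x (b m) =
        ∑ a, ∑ c, Al.cst S (Ai a l * S.T' a c * Ai c m) * b l * Al.act S x (b m) := by
      intro l m
      have h3 : (S.ks.chb A Ai).T' l m = ∑ a, ∑ c, Ai a l * S.T' a c * Ai c m := rfl
      rw [h3, map_sum, Finset.sum_mul, Finset.sum_mul]
      refine Finset.sum_congr rfl fun a _ => ?_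
      rw [map_sum, Finset.sum_mul, Finset.sum_mul]
    rw [Finset.sum_congr rfl fun l _ => Finset.sum_congr rfl fun m _ => hl l m]
    rw [Finset.sum_congr rfl fun l _ => Finset.sum_comm, Finset.sum_comm]
    refine Finset.sum_congr rfl fun a _ => ?_
    rw [Finset.sum_congr rfl fun l _ => Finset.sum_comm, Finset.sum_comm]
  let S2 : SC B G := G0_mk (Al.cst S) (Al.act S) (Al.act_cst S) b hb (S.ks.chb A Ai) hM hA hU hT hD
  let F : Al S2 →+* Al S := Al.lift S2 (Al.cst S) b hM hU
  have hF : ∀ a, F a = ∑ l, Al.cst S (a l) * b l := fun a => rfl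
  have hbij : Function.Bijective F := by
    constructor
    · intro a a' h
      exact hb a a' h
    · intro y
      exact ⟨(fun l => ∑ c, y c * Ai c l : G → B), hexp y⟩
  refine ⟨S2, RingEquiv.ofBijective F hbij, rfl, ?_, ?_, ?_⟩
  · intro a m
    exact hco a m
  · intro c
    exact Al.lift_cst S2 (Al.cst S) b hM hU c
  · intro g a
    show F (Al.act S2 g a) = Al.act S g (F a)
    have key : F.comp (Al.act S2 g) = (Al.act S g).comp F := by
      refine Al.hom_ext _ (fun c => ?_) (fun l => ?_)
      · rw [RingHom.comp_apply, RingHom.comp_apply, Al.act_cst]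
        have h3 : F (Al.cst S2 c) = Al.cst S c := Al.lift_cst S2 (Al.cst S) b hM hU c
        rw [h3, Al.act_cst]
      · rw [RingHom.comp_apply, RingHom.comp_apply, Al.act_e, map_sum]
        have h3 : ∀ c, F (Al.cst S2 c) = Al.cst S c :=
          fun c => Al.lift_cst S2 (Al.cst S) b hM hU c
        have h4 : ∀ l, F (Al.e S2 l) = b l := fun l => Al.lift_e S2 (Al.cst S) b hM hU l
        rw [h4, hA]
        refine Finset.sum_congr rfl fun m _ => ?_
        rw [map_mul, h3, h4]
        rfl
    exact RingHom.congr_fun key a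

theorem exists_descend {B' : Type} [CommRing B'] (φ : B' →+* B) (hφ : Function.Injective φ)
    (S : SC B G) (k : Ks B' G) (hk : S.ks = k.map φ) :
    ∃ S2 : SC B' G, S2.ks = k ∧ S2.map φ = S := by
  have e1 : ∀ i j l, φ (k.μ i j l) = S.μ i j l := by
    intro i j l
    have := congrArg (fun k => Ks.μ k i j l) hk
    exact this.symm
  have e2 : ∀ i j l, φ (k.α i j l) = S.α i j l := by
    intro i j l
    have := congrArg (fun k => Ks.α k i j l) hk
    exact this.symm
  have e3 : ∀ l, φ (k.ν l) = S.ν l := by
    intro l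
    have := congrArg (fun k => Ks.ν k l) hk
    exact this.symm
  have e4 : ∀ i j, φ (k.T i j) = S.T i j := by
    intro i j
    have := congrArg (fun k => Ks.T k i j) hk
    exact this.symm
  have e5 : ∀ i j, φ (k.T' i j) = S.T' i j := by
    intro i j
    have := congrArg (fun k => Ks.T' k i j) hk
    exact this.symm
  let S2 : SC B' G :=
    { μ := k.μ
      α := k.α
      ν := k.ν
      T := k.T
      T' := k.T'
      comm := fun i j l => hφ (by rw [e1, e1, S.comm])
      assoc := fun i j m l => hφ (by
        simp only [map_sum, map_mul, e1]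
        exact S.assoc i j m l)
      unit := fun j l => hφ (by
        simp only [map_sum, map_mul, e1, e3, apply_ite φ, map_one, map_zero]
        exact S.unit j l)
      α_one := fun l m => hφ (by
        simp only [e2, apply_ite φ, map_one, map_zero]
        exact S.α_one l m)
      α_mul := fun g h l n => hφ (by
        simp only [map_sum, map_mul, e2]
        exact S.α_mul g h l n)
      α_μ := fun h i j l => hφ (by
        simp only [map_sum, map_mul, e1, e2]
        exact S.α_μ h i j l)
      α_ν := fun h m => hφ (by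
        simp only [map_sum, map_mul, e2, e3]
        exact S.α_ν h m)
      tr := fun i j l => hφ (by
        simp only [map_sum, map_mul, e1, e2, e3, e4]
        exact S.tr i j l)
      dual := fun x k0 => hφ (by
        simp only [map_sum, map_mul, e1, e2, e3, e5, apply_ite φ, map_zero]
        exact S.dual x k0) }
  refine ⟨S2, rfl, SC.ks_inj ?_⟩
  rw [hk]
  rfl

end

end Pool.Agent.MP_1c8e06_ag.CY
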