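import Pool.Agent.Lib.MP_1c8e06_ag.CY.Defs
import Pool.Agent.Lib.MP_1c8e06_ag.Mg.G096

/-!
# CY La3: Artin-Schreier classes of Laurent series

`AS_regular`: f ∈ Om[[s]] (coefficients below 0 vanish).  h := c + h', c^p - c = f_0 (Om algebraically closed:
`IsAlgClosed.exists_root` for X^p - X - C f_0), h' = - ∑_{k≥0} f'^(p^k), f' = f - f_0 of positive order; in coefficients:
solve h'^p - h' = f' recursively: h'_n = (if p ∣ n then (h'_{n/p})^p else 0) - f'_n for n ≥ 1 (strong recursion;
(h')^p has coefficient (h'_{n/p})^p at multiples of p and 0 elsewhere in characteristic p).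
Compare `AI.exists_AS_root` (AI/TY2).
`AS_reduce`: f with pole of exact order n0, p ∤ n0 (n0 ≥ 1 since p ∣ 0): F := ∑_{i=0}^{n0} f_{-i} X^i, natDegree F = n0
(coefficient f_{-n0} ≠ 0), f - zinv F ∈ s Om[[s]]: apply `AS_regular` to it.
(AI.zinv: X ↦ s⁻¹.)
-/

set_option autoImplicit false

open Polynomial
open scoped Classical

namespace Pool.Agent.MP_1c8e06_ag.CY

open Pool.Agent.MP_1c8e06_ag.AJ

noncomputable section

set_option linter.unusedSectionVars false

variable {p : ℕ} [Fact p.Prime] {K : Type} [Field K] [IsAlgClosed K] [CharP K p]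

theorem AS_regular (f : LaurentSeries K) (hf : ∀ n : ℤ, n < 0 → f.coeff n = 0) :
    ∃ h : LaurentSeries K, (∀ n : ℤ, n < 0 → h.coeff n = 0) ∧ h ^ p - h = f := by
  have hp : p.Prime := Fact.out
  have hinj : Function.Injective (PowerSeries.C : K →+* PowerSeries K) :=
    PowerSeries.C_injective
  have hch : CharP (PowerSeries K) p := charP_of_injective_ringHom hinj p
  -- the constant part
  obtain ⟨c, hc⟩ : ∃ c : K, c ^ p - c = f.coeff 0 := by
    have hdeg : (X ^ p - X - C (f.coeff 0) : K[X]).degree ≠ 0 := by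
      have h1 : (X ^ p - X - C (f.coeff 0) : K[X]) = X ^ p - (X + C (f.coeff 0)) := by ring
      have h2 : (X + C (f.coeff 0) : K[X]).degree < (X ^ p : K[X]).degree := by
        rw [degree_X_pow, degree_X_add_C]
        exact_mod_cast hp.one_lt
      rw [h1, degree_sub_eq_left_of_degree_lt h2, degree_X_pow]
      exact_mod_cast hp.ne_zero
    obtain ⟨c, hc⟩ := IsAlgClosed.exists_root _ hdeg
    refine ⟨c, ?_⟩
    rw [IsRoot.def, eval_sub, eval_sub, eval_pow, eval_X, eval_C] at hc
    exact sub_eq_zero.1 hc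
  obtain ⟨η, hη0, hη⟩ := AI.exists_AS_root (p := p) (R := K)
    (PowerSeries.mk (fun n : ℕ => f.coeff (n : ℤ)) - PowerSeries.C (f.coeff 0)) (by
      rw [map_sub, PowerSeries.constantCoeff_C, ← PowerSeries.coeff_zero_eq_constantCoeff_apply,
        PowerSeries.coeff_mk, Nat.cast_zero, sub_self])
  refine ⟨HahnSeries.ofPowerSeries ℤ K (PowerSeries.C c + η), fun n hn => ?_, ?_⟩
  · rw [PowerSeries.coeff_coe, if_pos hn]
  · have h1 : (PowerSeries.C c + η) ^ p - (PowerSeries.C c + η) =
        PowerSeries.mk (fun n : ℕ => f.coeff (n : ℤ)) := by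
      rw [add_pow_char, ← map_pow]
      have h2 : PowerSeries.C (c ^ p) + η ^ p - (PowerSeries.C c + η) =
          (PowerSeries.C (c ^ p) - PowerSeries.C c) + (η ^ p - η) := by ring
      rw [h2, hη, ← map_sub, hc]
      ring
    rw [← map_pow, ← map_sub, h1]
    ext n
    rw [PowerSeries.coeff_coe]
    split_ifs with hn
    · exact (hf n hn).symm
    · rw [PowerSeries.coeff_mk]
      congr 1
      omega

theorem AS_reduce (f : LaurentSeries K) {n0 : ℕ} (hn : ¬ p ∣ n0) (h1 : f.coeff (-(n0 : ℤ)) ≠ 0)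
    (h2 : ∀ n : ℤ, n < -(n0 : ℤ) → f.coeff n = 0) :
    ∃ (F : K[X]) (h : LaurentSeries K), F.natDegree = n0 ∧ f = AI.zinv K F + (h ^ p - h) := by
  have hF : ∀ i : ℕ, (∑ j ∈ Finset.range (n0 + 1), monomial j (f.coeff (-(j : ℤ)))).coeff i =
      if i ≤ n0 then f.coeff (-(i : ℤ)) else 0 := by
    intro i
    rw [finsetSum_coeff]
    simp only [coeff_monomial]
    rw [Finset.sum_ite_eq' (Finset.range (n0 + 1)) i fun j : ℕ => f.coeff (-(j : ℤ))]
    simp only [Finset.mem_range, Nat.lt_succ_iff]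
  obtain ⟨h, -, hh⟩ := AS_regular (p := p)
    (f - AI.zinv K (∑ j ∈ Finset.range (n0 + 1), monomial j (f.coeff (-(j : ℤ))))) (fun n hn => by
      rw [HahnSeries.coeff_sub, AI.zinv_coeff, if_pos hn.le, hF]
      split_ifs with h3
      · have h4 : -(((-n).toNat : ℕ) : ℤ) = n := by omega
        rw [h4, sub_self]
      · rw [sub_zero]
        exact h2 n (by omega))
  refine ⟨_, h, ?_, (add_eq_of_eq_sub' hh).symm⟩
  refine natDegree_eq_of_le_of_coeff_ne_zero ?_ ?_
  · rw [natDegree_le_iff_coeff_eq_zero]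
    intro i hi
    rw [hF, if_neg (by omega)]
  · rw [hF, if_pos le_rfl]
    exact h1

end

end Pool.Agent.MP_1c8e06_ag.CY
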