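import Pool.Agent.Lib.MP_1c8e06_ag.CY.T5

/-!
# CY TS: the structure constants of the twisted algebra

h : TwD p S x N chi eps lam.  `h.S'` has the same α, ν, T, T' as S; its multiplication is `tmul`.
The fields (private lemmas TS_*), in coordinates: e i is `Al.e S i`, M i j := tmul (e i) (e j) (an element of Al S), μ' i j l = M i j l.
`TS_comm`: `tmul_comm`.
`TS_assoc`: ∑_m μ' i j m * μ' m k l = coordinate l of tmul (M i j) (e k) (M i j = ∑_m cst (M i j m) * e m (`Al.eq_sum`), `tmul_sum_left`,
`tmul_cst_mul`, `Al.sum_apply`, `Al.cst_mul`); ∑_m μ' j k m * μ' i m l = coordinate l of tmul (e i) (M j k) (the same with `tmul_comm`);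
`tmul_assoc`.
`TS_unit`: ∑_i ν_i * μ' i j l = coordinate l of tmul 1 (e j) = e j (`tmul_one`; (1 : Al S) i = S.ν i, `Al.one_apply`).
`TS_α_μ`: ∑_m μ' i j m * α h m l = coordinate l of act h (M i j) (`Al.act_apply`) = coordinate l of tmul (act h (e i)) (act h (e j)) (`act_tmul`) =
∑_m ∑_n (act h (e i)) m * (act h (e j)) n * μ' m n l (`tmul_eq_sum`), (act h (e i)) m = α h i m.
`TS_tr`: ∑_x ∑_m μ' i j m * α x m l = coordinate l of ∑_x act x (M i j) = coordinate l of ∑_x act x (e i * e j) (`tmul_tr`) = coordinate l of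
cst (T i j) (AJ.tr_ee) = T i j * ν l.
`TS_dual`: ∑_l ∑_m ∑_n T' l m * α x m n * μ' l n k = coordinate k of ∑_l ∑_m cst (T' l m) * tmul (e l) (act x (e m)) (`Al.cst_mul`, `tmul_eq_sum` or
act x (e m) = ∑_n cst (α x m n) * e n) = `tmul_dual`.
API: `h.to : Al S →+ Al h.S'` is the identity map of G → B.
`to_tmul`: `Al.mul_apply` for h.S' and `tmul_eq_sum`.   `to_act`: `Al.act_apply` for both (same α).   `to_one`, `to_cst`, `to_e`: by definition.
-/

set_option autoImplicit false

open Polynomial
open scoped Classical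

namespace Pool.Agent.MP_1c8e06_ag.CY

open Pool.Agent.MP_1c8e06_ag.AJ

noncomputable section

set_option linter.unusedSectionVars false

variable {p : ℕ} [Fact p.Prime] {B : Type} [CommRing B] {G : Type} [Group G] [Fintype G]
  {S : SC B G} {x : G} {N : Subgroup G} {chi : G → ℕ} {eps lam : Al S}

private theorem TS_left (h : TwD p S x N chi eps lam) (a : Al S) (k l : G) :
    tmul p S x N lam a (Al.e S k) l = ∑ m, a m * tmul p S x N lam (Al.e S m) (Al.e S k) l := by
  rw [h.tmul_eq_sum]
  refine Finset.sum_congr rfl fun m _ => ?_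
  simp [Al.e]

private theorem TS_right (h : TwD p S x N chi eps lam) (a : Al S) (k l : G) :
    tmul p S x N lam (Al.e S k) a l = ∑ m, a m * tmul p S x N lam (Al.e S k) (Al.e S m) l := by
  rw [h.tmul_eq_sum]
  simp [Al.e]

private theorem TS_act_e (g i m : G) : Al.act S g (Al.e S i) m = S.α g i m := by
  rw [Al.act_apply]
  simp [Al.e]

private theorem TS_assoc (h : TwD p S x N chi eps lam) (i j k l : G) :
    ∑ m, tmul p S x N lam (Al.e S i) (Al.e S j) m * tmul p S x N lam (Al.e S m) (Al.e S k) l =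
      ∑ m, tmul p S x N lam (Al.e S j) (Al.e S k) m *
        tmul p S x N lam (Al.e S i) (Al.e S m) l := by
  rw [← TS_left h, ← TS_right h, h.tmul_assoc]

private theorem TS_unit (h : TwD p S x N chi eps lam) (j l : G) :
    ∑ i, S.ν i * tmul p S x N lam (Al.e S i) (Al.e S j) l = if j = l then 1 else 0 := by
  have h1 := TS_left h 1 j l
  rw [h.tmul_one] at h1
  exact h1.symm

private theorem TS_α_μ (h : TwD p S x N chi eps lam) (g i j l : G) :
    ∑ m, tmul p S x N lam (Al.e S i) (Al.e S j) m * S.α g m l =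
      ∑ m, ∑ n, S.α g i m * S.α g j n * tmul p S x N lam (Al.e S m) (Al.e S n) l := by
  rw [← Al.act_apply, h.act_tmul, h.tmul_eq_sum]
  refine Finset.sum_congr rfl fun m _ => Finset.sum_congr rfl fun n _ => ?_
  rw [TS_act_e, TS_act_e]

private theorem TS_tr (h : TwD p S x N chi eps lam) (i j l : G) :
    ∑ g, ∑ m, tmul p S x N lam (Al.e S i) (Al.e S j) m * S.α g m l = S.T i j * S.ν l := by
  have h1 : ∀ g, ∑ m, tmul p S x N lam (Al.e S i) (Al.e S j) m * S.α g m l =
      Al.act S g (tmul p S x N lam (Al.e S i) (Al.e S j)) l := fun g => (Al.act_apply S g _ l).symm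
  rw [Finset.sum_congr rfl fun g _ => h1 g, ← Al.sum_apply, h.tmul_tr, tr_ee, Al.cst_apply]

private theorem TS_dual (h : TwD p S x N chi eps lam) (g k : G) :
    ∑ l, ∑ m, ∑ n, S.T' l m * S.α g m n * tmul p S x N lam (Al.e S l) (Al.e S n) k =
      if g = 1 then S.ν k else 0 := by
  have h1 := congrArg (fun a : Al S => a k) (h.tmul_dual g)
  have h2 : ((if g = 1 then 1 else 0 : Al S)) k = if g = 1 then S.ν k else 0 := by
    split_ifs
    · rfl
    · rfl
  refine Eq.trans ?_ (h1.trans h2)
  rw [Al.sum_apply]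
  refine Finset.sum_congr rfl fun l _ => ?_
  rw [Al.sum_apply]
  refine Finset.sum_congr rfl fun m _ => ?_
  rw [Al.cst_mul, TS_right h, Finset.mul_sum]
  refine Finset.sum_congr rfl fun n _ => ?_
  rw [TS_act_e]
  ring

/-- The structure constants of the twisted algebra. -/
def TwD.S' (h : TwD p S x N chi eps lam) : SC B G where
  μ i j l := tmul p S x N lam (Al.e S i) (Al.e S j) l
  α := S.α
  ν := S.ν
  T := S.T
  T' := S.T'
  comm i j l := by rw [tmul_comm]
  assoc := TS_assoc h
  unit := TS_unit h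
  α_one := S.α_one
  α_mul := S.α_mul
  α_μ := TS_α_μ h
  α_ν := S.α_ν
  tr := TS_tr h
  dual := TS_dual h

/-- The identity map from the algebra to the twisted algebra. -/
def TwD.to (h : TwD p S x N chi eps lam) : Al S →+ Al h.S' where
  toFun a := a
  map_zero' := rfl
  map_add' _ _ := rfl

/-- The identity map from the twisted algebra to the algebra. -/
def TwD.fr (h : TwD p S x N chi eps lam) : Al h.S' →+ Al S where
  toFun a := a
  map_zero' := rfl
  map_add' _ _ := rfl

theorem TwD.to_apply (h : TwD p S x N chi eps lam) (a : Al S) (l : G) : h.to a l = a l := rfl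

theorem TwD.fr_apply (h : TwD p S x N chi eps lam) (a : Al h.S') (l : G) : h.fr a l = a l := rfl

theorem TwD.to_fr (h : TwD p S x N chi eps lam) (a : Al h.S') : h.to (h.fr a) = a := rfl

theorem TwD.fr_to (h : TwD p S x N chi eps lam) (a : Al S) : h.fr (h.to a) = a := rfl

theorem TwD.to_tmul (h : TwD p S x N chi eps lam) (a b : Al S) :
    h.to (tmul p S x N lam a b) = h.to a * h.to b := by
  refine Al.ext fun l => ?_
  rw [h.to_apply, h.tmul_eq_sum, Al.mul_apply]
  rfl

theorem TwD.to_act (h : TwD p S x N chi eps lam) (g : G) (a : Al S) :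
    h.to (Al.act S g a) = Al.act h.S' g (h.to a) := by
  refine Al.ext fun m => ?_
  rw [Al.act_apply, h.to_apply, Al.act_apply]
  rfl

theorem TwD.to_one (h : TwD p S x N chi eps lam) : h.to 1 = 1 := rfl

theorem TwD.to_cst (h : TwD p S x N chi eps lam) (b : B) : h.to (Al.cst S b) = Al.cst h.S' b := rfl

theorem TwD.to_e (h : TwD p S x N chi eps lam) (l : G) : h.to (Al.e S l) = Al.e h.S' l := rfl

end

end Pool.Agent.MP_1c8e06_ag.CY
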