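import Pool.Agent.Lib.MP_1c8e06_ag.CY.TIDefs
import Pool.Agent.Lib.MP_1c8e06_ag.Mg.G016

/-!
# CY TI: interface of block T in the form used by block G
-/

set_option autoImplicit false

open Polynomial
open scoped Classical

namespace Pool.Agent.MP_1c8e06_ag.CY

open Pool.Agent.MP_1c8e06_ag.AJ

noncomputable section

set_option linter.unusedSectionVars false

variable {p : ℕ} [Fact p.Prime] {B : Type} [CommRing B] {G : Type} [Group G] [Fintype G]

theorem TwD.isTw {S : SC B G} {x : G} {N : Subgroup G} {χ : G → ℕ} {ε lam : Al S}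
    (h : TwD p S x N χ ε lam) : IsTw p S h.S' x N lam where
  α := rfl
  ν := rfl
  T := rfl
  T' := rfl
  mul a b l := congrFun (h.to_tmul (a : Al S) (b : Al S)).symm l

theorem exists_twist {S : SC B G} {x : G} {N : Subgroup G} {χ : G → ℕ} {ε lam : Al S}
    (h : TwD p S x N χ ε lam) : ∃ S' : SC B G, IsTw p S S' x N lam :=
  ⟨h.S', h.isTw⟩

theorem IsTw.eq {S : SC B G} {x : G} {N : Subgroup G} {χ : G → ℕ} {ε lam : Al S}
    {S' : SC B G} (hT : IsTw p S S' x N lam) (h : TwD p S x N χ ε lam) :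
    S' = h.S' := by
  have hμ : S'.μ = h.S'.μ := by
    funext i j l
    have h1 := hT.mul (Al.e S i) (Al.e S j) l
    have h2 : (Al.e S' i * Al.e S' j : Al S') l = S'.μ i j l := by
      rw [Al.mul_apply]
      simp [Al.e]
    rw [← h2]
    exact h1
  have h1 := hT.α
  have h2 := hT.ν
  have h3 := hT.T
  have h4 := hT.T'
  cases S'
  change _ = SC.mk _ _ _ _ _ _ _ _ _ _ _ _ _ _
  simp only at hμ h1 h2 h3 h4
  subst hμ h1 h2 h3 h4
  rfl

/-- The additive map which sends `w ^ k` to `w' ^ k` for `k < p`. -/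
def thm {K : Type} [Field K] [CharP K p] (F0 : K[X]) {E' : Type} [CommRing E']
    (ζ : LaurentSeries K →+* E') (w' : E') (y : AI.EE p F0) : E' :=
  ∑ k ∈ Finset.range p, ζ (AI.coordE p F0 y k) * w' ^ k

theorem thm_eq {K : Type} [Field K] [CharP K p] (F0 : K[X]) {E' : Type} [CommRing E']
    (ζ : LaurentSeries K →+* E') (w' : E') (y : AI.EE p F0) :
    thm F0 ζ w' y = thE p F0 ζ w' y := rfl

theorem twist_val {S S' : SC B G} {x : G} {N : Subgroup G} {χ : G → ℕ} {ε lam : Al S}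
    (h : TwD p S x N χ ε lam) (hS : IsTw p S S' x N lam) {K : Type} [Field K] [CharP K p]
    (F0 : K[X]) (ρ : Al S →+* AI.EE p F0) (e : B →+* LaurentSeries K)
    (hρ : ∀ b, ρ (Al.cst S b) = AI.ofL p F0 (e b))
    (hx : ∀ a, ρ (Al.act S x a) = AI.tau p F0 (ρ a)) (hε : ρ ε = 1) {lam0 : LaurentSeries K}
    (hlam : ρ lam = AI.ofL p F0 lam0) {E' : Type} [CommRing E'] (ζ : LaurentSeries K →+* E')
    (w' : E') (hw : w' ^ p - w' = ζ (AI.zinv K F0 + lam0)) :
    ∃ ρ' : Al S' →+* E', ∀ a : G → B, ρ' a = thm F0 ζ w' (ρ a) := by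
  obtain rfl := hS.eq h
  obtain ⟨rho', h1, h2⟩ := h.exists_val e ρ hρ hx hε lam0 hlam ζ w' hw
  exact ⟨rho', fun a => h1 a⟩

theorem thm_tau {K : Type} [Field K] [CharP K p] (F0 F : K[X]) (h : LaurentSeries K)
    (y : AI.EE p F0) :
    thm F0 (AI.ofL p F) (AI.yy p F + AI.ofL p F h) (AI.tau p F0 y) =
      AI.tau p F (thm F0 (AI.ofL p F) (AI.yy p F + AI.ofL p F h) y) := by
  simp only [thm_eq]
  rw [thE_tau]

theorem thm_ofL {K : Type} [Field K] [CharP K p] (F0 : K[X]) {E' : Type} [CommRing E']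
    (ζ : LaurentSeries K →+* E') (w' : E') (c : LaurentSeries K) :
    thm F0 ζ w' (AI.ofL p F0 c) = ζ c := by
  rw [thm_eq]
  exact thE_ofL ..

theorem thm_inj {K : Type} [Field K] [CharP K p] (F0 F : K[X]) (h : LaurentSeries K)
    {y y' : AI.EE p F0} (hy : thm F0 (AI.ofL p F) (AI.yy p F + AI.ofL p F h) y =
      thm F0 (AI.ofL p F) (AI.yy p F + AI.ofL p F h) y') : y = y' := by
  simp only [thm_eq] at hy
  have h1 : thE p F0 (AI.ofL p F) (AI.yy p F + AI.ofL p F h) (y - y') = 0 := by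
    have h2 := thE_add (AI.ofL p F) (AI.yy p F + AI.ofL p F h) (y - y') y'
    rw [sub_add_cancel, hy] at h2
    exact right_eq_add.mp h2
  exact sub_eq_zero.mp (thE_inj h _ h1)


/-- The comparison map at a hole. -/
theorem exists_Ph_of_small {p : ℕ} [Fact p.Prime] {B : Type} [CommRing B] {G : Type} [Group G]
    [Fintype G] (S : SC B G) (x : G) (N : Subgroup G) (eps : Al S) {E : Type} [NormedField E]
    [IsUltrametricDist E] [CompleteSpace E] (θ : B →+* E) :
    ∃ de : ℝ, 0 < de ∧ ∀ (chi : G → ℕ) (lam : Al S) (S' : SC B G), TwD p S x N chi eps lam →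
      IsTw p S S' x N lam → (∀ m, ‖θ (lam m)‖ < de) →
      ∃ Ph : Al (S'.map θ) →+* Al (S.map θ), (∀ b, Ph (Al.cst _ b) = Al.cst _ b) ∧
        (∀ g a, Ph (Al.act _ g a) = Al.act _ g (Ph a)) ∧
        (∀ l m, ‖(Ph (Al.e _ l) - Al.e (S.map θ) l : Al (S.map θ)) m‖ < 1) ∧
        ∀ a : G → B, (∀ g, eps * Al.act S (x * g) (a : Al S) = eps * Al.act S g (a : Al S)) →
          Ph (Al.mapA S' θ (a : Al S')) = Al.mapA S θ (a : Al S) := by
  -- a bound for the structure constants and for `eps`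
  obtain ⟨M, hM⟩ : ∃ M : ℝ, BdS (S.map θ) M := by
    refine ⟨1 + (∑ i, ∑ j, ∑ l, ‖(S.map θ).μ i j l‖) + (∑ i, ∑ j, ∑ l, ‖(S.map θ).α i j l‖) +
      ∑ l, ‖(S.map θ).ν l‖, ?_, ?_, ?_, ?_⟩
    · have h1 : 0 ≤ ∑ i, ∑ j, ∑ l, ‖(S.map θ).μ i j l‖ := by positivity
      have h2 : 0 ≤ ∑ i, ∑ j, ∑ l, ‖(S.map θ).α i j l‖ := by positivity
      have h3 : 0 ≤ ∑ l, ‖(S.map θ).ν l‖ := by positivity
      linarith
    · intro i j l
      have h2 : 0 ≤ ∑ i, ∑ j, ∑ l, ‖(S.map θ).α i j l‖ := by positivity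
      have h3 : 0 ≤ ∑ l, ‖(S.map θ).ν l‖ := by positivity
      have h4 : ‖(S.map θ).μ i j l‖ ≤ ∑ i, ∑ j, ∑ l, ‖(S.map θ).μ i j l‖ := by
        refine le_trans ?_ (Finset.single_le_sum (f := fun i => ∑ j, ∑ l, ‖(S.map θ).μ i j l‖)
          (fun _ _ => by positivity) (Finset.mem_univ i))
        refine le_trans ?_ (Finset.single_le_sum (f := fun j => ∑ l, ‖(S.map θ).μ i j l‖)
          (fun _ _ => by positivity) (Finset.mem_univ j))
        exact Finset.single_le_sum (f := fun l => ‖(S.map θ).μ i j l‖)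
          (fun _ _ => by positivity) (Finset.mem_univ l)
      linarith
    · intro i j l
      have h2 : 0 ≤ ∑ i, ∑ j, ∑ l, ‖(S.map θ).μ i j l‖ := by positivity
      have h3 : 0 ≤ ∑ l, ‖(S.map θ).ν l‖ := by positivity
      have h4 : ‖(S.map θ).α i j l‖ ≤ ∑ i, ∑ j, ∑ l, ‖(S.map θ).α i j l‖ := by
        refine le_trans ?_ (Finset.single_le_sum (f := fun i => ∑ j, ∑ l, ‖(S.map θ).α i j l‖)
          (fun _ _ => by positivity) (Finset.mem_univ i))
        refine le_trans ?_ (Finset.single_le_sum (f := fun j => ∑ l, ‖(S.map θ).α i j l‖)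
          (fun _ _ => by positivity) (Finset.mem_univ j))
        exact Finset.single_le_sum (f := fun l => ‖(S.map θ).α i j l‖)
          (fun _ _ => by positivity) (Finset.mem_univ l)
      linarith
    · intro l
      have h1 : 0 ≤ ∑ i, ∑ j, ∑ l, ‖(S.map θ).μ i j l‖ := by positivity
      have h2 : 0 ≤ ∑ i, ∑ j, ∑ l, ‖(S.map θ).α i j l‖ := by positivity
      have h4 : ‖(S.map θ).ν l‖ ≤ ∑ l, ‖(S.map θ).ν l‖ :=
        Finset.single_le_sum (f := fun l => ‖(S.map θ).ν l‖) (fun _ _ => by positivity)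
          (Finset.mem_univ l)
      linarith
  have hM1 : 1 ≤ M := hM.1
  set M' : ℝ := 1 + ∑ l, ‖θ (eps l)‖ with hM'
  have hM'0 : 0 ≤ ∑ l, ‖θ (eps l)‖ := by positivity
  have hM'1 : 1 ≤ M' := by rw [hM']; linarith
  have he : ∀ l, ‖θ (eps l)‖ ≤ M' := by
    intro l
    have h4 : ‖θ (eps l)‖ ≤ ∑ l, ‖θ (eps l)‖ :=
      Finset.single_le_sum (f := fun l => ‖θ (eps l)‖) (fun _ _ => by positivity)
        (Finset.mem_univ l)
    rw [hM']
    linarith
  have hpos : 0 < M ^ 4 * M' := by positivity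
  refine ⟨1 / (2 * (M ^ 4 * M')), by positivity, fun chi lam S' h hT hlam => ?_⟩
  obtain rfl := hT.eq h
  set C : ℝ := 1 / (2 * (M ^ 4 * M')) with hC
  have hC0 : 0 ≤ C := by rw [hC]; positivity
  have hMM : M ≤ M ^ 4 * M' := by
    calc M = M * 1 := by ring
      _ ≤ M * (M ^ 3 * M') := by
          refine mul_le_mul_of_nonneg_left ?_ (by linarith)
          have h1 : (1 : ℝ) ≤ M ^ 3 := one_le_pow₀ hM1
          nlinarith
      _ = M ^ 4 * M' := by ring
  have h12 : M ^ 4 * M' * C = 1 / 2 := by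
    rw [hC]
    field_simp
  have hMC : M * C < 1 := by
    have h1 : M * C ≤ M ^ 4 * M' * C := mul_le_mul_of_nonneg_right hMM hC0
    rw [h12] at h1
    linarith
  obtain ⟨om, Ph, h1, h2, h3, h4⟩ := h.exists_Ph θ hM (by linarith) he hC0
    (fun l => (hlam l).le) hMC
  refine ⟨Ph, h1, h2, fun l m => (h4 l m).trans_lt (by rw [h12]; norm_num), fun a ha => ?_⟩
  have h5 : ∀ l, Al.mapA h.S' θ (a : Al h.S') l = Al.mapA S θ (a : Al S) l := by
    intro l
    rw [Al.mapA_apply, Al.mapA_apply]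
  have h6 : (Al.mapA h.S' θ (a : Al h.S') : G → E) = (Al.mapA S θ (a : Al S) : G → E) :=
    funext h5
  refine eq_of_fixed (h.map θ) om _ _ (fun g => ?_) (fun g => ?_)
  · rw [h3 g]
    rw [h6]
  · rw [← Al.mapA_act, ← map_mul, ← Al.mapA_act]
    congr 1
    rw [map_mul, h.x_eps, ← Al.act_mul_apply]
    exact ha g

/-- Holes. -/
theorem twist_hole (S : SC B G) (x : G) (N : Subgroup G) (χ : G → ℕ) (ε : Al S) {E : Type}
    [NormedField E] [CompleteSpace E] [IsUltrametricDist E] (θ : B →+* E) :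
    ∃ de > 0, ∀ (lam : Al S) (S' : SC B G), TwD p S x N χ ε lam → IsTw p S S' x N lam →
      (∀ m, ‖θ (lam m)‖ < de) →
      ∃ Ph : Al (S'.map θ) →+* Al (S.map θ), (∀ c, Ph (Al.cst _ c) = Al.cst _ c) ∧
        (∀ g a, Ph (Al.act _ g a) = Al.act _ g (Ph a)) ∧
        (∀ l m, ‖(Ph (Al.e (S'.map θ) l) - Al.e (S.map θ) l : Al (S.map θ)) m‖ < 1) ∧
        ∀ a : G → B, (∀ g, ε * Al.act S (x * g) a = ε * Al.act S g a) →
          Ph (show Al (S'.map θ) from fun l => θ (a l)) = fun l => θ (a l) := by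
  obtain ⟨de, hde, H⟩ := exists_Ph_of_small (p := p) S x N ε θ
  refine ⟨de, hde, fun lam S' h hT hl => ?_⟩
  obtain ⟨Ph, h1, h2, h3, h4⟩ := H χ lam S' h hT hl
  refine ⟨Ph, h1, h2, h3, fun a ha => ?_⟩
  have h5 := h4 a ha
  have h6 : (show Al (S'.map θ) from fun l => θ (a l)) = Al.mapA S' θ (show Al S' from a) := by
    funext l
    exact (Al.mapA_apply (S := S') θ (show Al S' from a) l).symm
  have h7 : (show Al (S.map θ) from fun l => θ (a l)) = Al.mapA S θ (show Al S from a) := by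
    funext l
    exact (Al.mapA_apply (S := S) θ (show Al S from a) l).symm
  exact (congrArg Ph h6).trans (h5.trans h7.symm)

end

end Pool.Agent.MP_1c8e06_ag.CY
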