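import Pool.Agent.Lib.MP_1c8e06_ag.CY.Defs4
import Pool.Agent.Lib.MP_1c8e06_ag.CY.TI
import Pool.Agent.Lib.MP_1c8e06_ag.CY.G0
import Pool.Agent.Lib.MP_1c8e06_ag.CY.La3

/-!
# CY G4: values of the glued algebra at 0 and at infinity

Q : GLD D H N χ ε.  (0) AI.zinv (C t * X) = single (-1) t.
By `AS_reduce` (La3) there are F : Om[X] of degree n0 and h with single (-1) t + lam0 = zinv F + (h^p - h); so
w' := yy p F + ofL h satisfies w'^p - w' = zeta (zinv (C t X) + lam0) for zeta = ofL p F (`AI.yy_pow`: yy^p - yy = ze F =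
ofL (zinv F); characteristic p: (a+b)^p = a^p + b^p, `AJ.add_pow_p`).  `twist_val` (TI) with ρ = D.h0 H, e = H.e0 gives
ρ0' : Al Q.S' → EE p F with ρ0' a = thm .. (D.h0 H a), and ρ0' (act x a) = tau (ρ0' a) by `thm_tau` (the action of S' is that
of D.S.map H.lam: field α of IsTw, `Al.act_apply`; `TPw.v0_x` (V1)).
At infinity: single (-1) t + lam1 is regular: `AS_regular` (La3): = h1^p - h1; `twist_val` with ρ = D.h1 H, e = H.e1,
E' = LaurentSeries Om, zeta = id, w' = h1: ρ1' : Al Q.S' → LaurentSeries Om.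
(1) transport to S2: Φ : Al Q.S2 → Al Q.S', Φ a m = ∑_l H.lam (a l) * V l m is a ring hom commuting with act and
Φ (cst f) = cst (H.lam f): by `exists_SC_chb` (G0) for Q.S' and V, V': the SC obtained has the constants Q.ks, so it IS
Q.S2.map H.lam (`SC.ks_inj`); compose with `Al.mapA Q.S2 H.lam`.
ρ0 := ρ0' ∘ Φ, ρ1 := ρ1' ∘ Φ.  ρ0 (cst f) = ρ0' (cst (H.lam f)) = thm (ofL (lz f)) = ofL (lz f) (`thm_ofL`; cst in Al S' and
Al (D.S.map H.lam) are the same function: field ν of IsTw).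
hε0: D.h0 H ε = 1, hε1: D.h1 H ε = 1.
-/

set_option autoImplicit false

open Polynomial
open scoped Classical

namespace Pool.Agent.MP_1c8e06_ag.CY

open Pool.Agent.MP_1c8e06_ag.AJ

noncomputable section

set_option linter.unusedSectionVars false

variable {Om : Type} [NormedField Om] [CompleteSpace Om] [IsUltrametricDist Om] [IsAlgClosed Om]
  {p : ℕ} [Fact p.Prime] [CharP Om p] {G : Type} [Group G] [Fintype G] {x : G} {t : Om}

/-- The vector of coordinates with respect to the old basis. -/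
def GLD.co {D : TPw p x t} {H : HC Om} {N : Subgroup G} {χ : G → ℕ} {ε : Al (D.S.map H.lam)}
    (Q : GLD D H N χ ε) (a : G → Lam Om) : Al (D.S.map H.lam) :=
  fun m => ∑ l, H.lam (a l) * Q.V l m

/-- The ring homomorphism given by the change of basis. -/
private theorem G4_hom {D : TPw p x t} {H : HC Om} {N : Subgroup G} {χ : G → ℕ}
    {ε : Al (D.S.map H.lam)} (Q : GLD D H N χ ε) :
    ∃ Ψ : Al Q.S2 →+* Al Q.S', (∀ a, Ψ a = Q.co a) ∧
      (∀ f, Ψ (Al.cst Q.S2 f) = Al.cst Q.S' (H.lam f)) ∧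
      ∀ g a, Ψ (Al.act Q.S2 g a) = Al.act Q.S' g (Ψ a) := by
  obtain ⟨S2c, Φ, hks, hΦ, hcst, hact⟩ := exists_SC_chb Q.S' Q.V Q.V' Q.VV' Q.V'V
  have h1 : S2c = Q.S2.map H.lam := SC.ks_inj (hks.trans Q.ks.symm)
  subst h1
  refine ⟨Φ.toRingHom.comp (Al.mapA Q.S2 H.lam), fun a => ?_, fun f => ?_, fun g a => ?_⟩
  · refine Al.ext fun m => ?_
    change Φ (Al.mapA Q.S2 H.lam a) m = _
    rw [hΦ]
    refine Finset.sum_congr rfl fun l _ => ?_
    rw [Al.mapA_apply]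
  · change Φ (Al.mapA Q.S2 H.lam (Al.cst Q.S2 f)) = _
    rw [Al.mapA_cst, hcst]
  · change Φ (Al.mapA Q.S2 H.lam (Al.act Q.S2 g a)) = Al.act Q.S' g (Φ (Al.mapA Q.S2 H.lam a))
    rw [Al.mapA_act, hact]

private theorem G4_act {D : TPw p x t} {H : HC Om} {N : Subgroup G} {χ : G → ℕ}
    {ε : Al (D.S.map H.lam)} (Q : GLD D H N χ ε) (g : G) (a : G → H.OO) :
    (Al.act Q.S' g a : G → H.OO) = Al.act (D.S.map H.lam) g a := by
  funext m
  have h1 := Al.act_apply Q.S' g a m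
  have h2 := Al.act_apply (D.S.map H.lam) g a m
  rw [Q.isT.α] at h1
  exact h1.trans h2.symm

private theorem G4_cst {D : TPw p x t} {H : HC Om} {N : Subgroup G} {χ : G → ℕ}
    {ε : Al (D.S.map H.lam)} (Q : GLD D H N χ ε) (b : H.OO) :
    (Al.cst Q.S' b : G → H.OO) = Al.cst (D.S.map H.lam) b := by
  funext m
  have h1 := Al.cst_apply Q.S' b m
  have h2 := Al.cst_apply (D.S.map H.lam) b m
  rw [Q.isT.ν] at h1
  exact h1.trans h2.symm

private theorem G4_charP (F : Om[X]) : ((p : ℕ) : AI.EE p F) = 0 := by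
  have h1 : ((p : ℕ) : Om) = 0 := CharP.cast_eq_zero Om p
  have h2 : ((p : ℕ) : LaurentSeries Om) = 0 := by
    have := congrArg (HahnSeries.C : Om →+* LaurentSeries Om) h1
    rwa [map_natCast, map_zero] at this
  have := congrArg (AI.ofL p F) h2
  rwa [map_natCast, map_zero] at this

private theorem G4_add_pow {A : Type} [CommRing A] (h0 : (p : A) = 0) (x y : A) :
    (x + y) ^ p = x ^ p + y ^ p := by
  obtain ⟨r, hr⟩ := exists_add_pow_prime_eq (Fact.out : p.Prime) x y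
  rw [hr, h0]
  ring

private theorem G4_zinv : AI.zinv Om (C t * X : Om[X]) = HahnSeries.single (-1 : ℤ) t := by
  ext n
  rw [AI.zinv_coeff, HahnSeries.coeff_single]
  by_cases hn : n = -1
  · subst hn
    simp
  · rw [if_neg hn]
    split_ifs with h
    · rw [coeff_C_mul, coeff_X, if_neg (by omega), mul_zero]
    · rfl

theorem GLD.exists_values {D : TPw p x t} {H : HC Om} {N : Subgroup G} {χ : G → ℕ}
    {ε : Al (D.S.map H.lam)} (Q : GLD D H N χ ε) (hε0 : D.h0 H ε = 1) (hε1 : D.h1 H ε = 1) :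
    ∃ (F : Om[X]) (h : LaurentSeries Om) (ρ0 : Al Q.S2 →+* AI.EE p F)
      (ρ1 : Al Q.S2 →+* LaurentSeries Om), ¬ p ∣ F.natDegree ∧
      (∀ f, ρ0 (Al.cst Q.S2 f) = AI.ofL p F (lz Om f)) ∧
      (∀ a, ρ0 (Al.act Q.S2 x a) = AI.tau p F (ρ0 a)) ∧
      (∀ f, ρ1 (Al.cst Q.S2 f) = lzi Om f) ∧
      ∀ a : G → Lam Om, ρ0 a = thm (C t * X : Om[X]) (AI.ofL p F) (AI.yy p F + AI.ofL p F h)
        (D.h0 H (Q.co a)) := by
  obtain ⟨Ψ, hΨ, hΨc, hΨa⟩ := G4_hom Q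
  obtain ⟨F, h, hdeg, hh⟩ := AS_reduce (p := p) (HahnSeries.single (-1 : ℤ) t + Q.lam0) Q.hn0
    Q.pole Q.pole'
  obtain ⟨h1, -, hh1⟩ := AS_regular (p := p) (HahnSeries.single (-1 : ℤ) t + Q.lam1) Q.reg
  have hw : (AI.yy p F + AI.ofL p F h) ^ p - (AI.yy p F + AI.ofL p F h) =
      AI.ofL p F (AI.zinv Om (C t * X : Om[X]) + Q.lam0) := by
    rw [G4_zinv, hh, G4_add_pow (G4_charP F), AI.yy_pow_eq, map_add, map_sub, map_pow]
    change AI.yy p F + AI.ofL p F (AI.zinv Om F) + AI.ofL p F h ^ p -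
      (AI.yy p F + AI.ofL p F h) = _
    ring
  have hw1 : h1 ^ p - h1 = (RingHom.id (LaurentSeries Om))
      (AI.zinv Om (C t * X : Om[X]) + Q.lam1) := by
    rw [G4_zinv, hh1]
    rfl
  have hc0 : ∀ b, D.h0 H (Al.cst (D.S.map H.lam) b) = AI.ofL p (C t * X : Om[X]) (H.e0 b) :=
    fun b => TPw.v0_cst D H.lam H.e0 H.e0_lam b
  have hc1 : ∀ b, D.h1 H (Al.cst (D.S.map H.lam) b) = AI.ofL p (C t * X : Om[X]) (H.e1 b) :=
    fun b => TPw.v1_cst D H.lam H.e1 H.e1_lam b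
  have hx0 : ∀ a, D.h0 H (Al.act (D.S.map H.lam) x a) = AI.tau p (C t * X : Om[X]) (D.h0 H a) :=
    fun a => TPw.v0_x D H.lam H.e0 H.e0_lam a
  have hx1 : ∀ a, D.h1 H (Al.act (D.S.map H.lam) x a) = AI.tau p (C t * X : Om[X]) (D.h1 H a) :=
    fun a => TPw.v1_x D H.lam H.e1 H.e1_lam a
  obtain ⟨ρ0', hρ0'⟩ := twist_val Q.tw Q.isT (C t * X : Om[X]) (D.h0 H) H.e0 hc0 hx0 hε0 Q.at0
    (AI.ofL p F) (AI.yy p F + AI.ofL p F h) hw
  obtain ⟨ρ1', hρ1'⟩ := twist_val Q.tw Q.isT (C t * X : Om[X]) (D.h1 H) H.e1 hc1 hx1 hε1 Q.at1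
    (RingHom.id (LaurentSeries Om)) h1 hw1
  refine ⟨F, h, ρ0'.comp Ψ, ρ1'.comp Ψ, ?_, fun f => ?_, fun a => ?_, fun f => ?_, fun a => ?_⟩
  · rw [hdeg]
    exact Q.hn0
  · rw [RingHom.comp_apply, hΨc]
    refine (hρ0' _).trans ?_
    rw [G4_cst Q, hc0, thm_ofL, H.e0_lam]
  · rw [RingHom.comp_apply, RingHom.comp_apply, hΨa]
    refine (hρ0' _).trans ?_
    rw [G4_act Q, hx0, thm_tau]
    exact congrArg _ (hρ0' _).symm
  · rw [RingHom.comp_apply, hΨc]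
    refine (hρ1' _).trans ?_
    rw [G4_cst Q, hc1, thm_ofL, H.e1_lam]
    rfl
  · rw [RingHom.comp_apply]
    refine (hρ0' _).trans ?_
    rw [hΨ]

/-- The passage to the old coordinates commutes with the action. -/
theorem GLD.co_act {D : TPw p x t} {H : HC Om} {N : Subgroup G} {χ : G → ℕ}
    {ε : Al (D.S.map H.lam)} (Q : GLD D H N χ ε) (g : G) (a : G → Lam Om) :
    Q.co (Al.act Q.S2 g a) = Al.act (D.S.map H.lam) g (Q.co a) := by
  obtain ⟨Ψ, hΨ, hΨc, hΨa⟩ := G4_hom Q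
  have h1 := hΨa g a
  rw [hΨ, hΨ] at h1
  exact h1.trans (G4_act Q g (Q.co a))

end

end Pool.Agent.MP_1c8e06_ag.CY
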