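import Pool.Agent.Lib.MP_1c8e06_ag.Mg.G003

/-!
# CY O3: Laurent series which converge on a circle

`LB r a C`: ‖a_n‖ r^n ≤ C for all n.  `CRrel w e r a f`: for all et > 0 there is a Laurent polynomial q with
‖f - q‖ ≤ et at w and LB r (a - e q) et.

PROOFS.  `lz_iso`: for q = ∑ q_n T^n: (lz q)_n = q_n; multiply by T^N: jF (q T^N) = polynomial P =
∑ q_n u^(n+N); (gp 0 r)(P) = gn 0 r P = max ‖q_n‖ r^(n+N) (`gp_poly`, comp (X + C 0) = P, `gn_le`,
`gn_coeff_le`), (gp 0 r)(u) = r.  (`LaurentPolynomial.exists_T_pow`, or induction; `HahnSeries` coefficients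
of `LaurentPolynomial.eval₂`: on C a * T n it is single n a.)
`lzi_iso`: (lzi q)_n = q_{-n}, so ‖q_{-n}‖ (r⁻¹)^n = ‖q_{-n}‖ r^(-n).
`LB.mul`: the coefficient n of a b is a finite sum of a_i b_j, i + j = n (`HahnSeries.coeff_mul`), ultrametric.
CRE = the abstract situation (w, e, s): both `lz_iso` and `lzi_iso` are instances.
`CRrel.mul`: choose constants A, B ≥ 1 bounding LB of a, b and ‖f‖, ‖g‖ (a: LB s (a - e q) 1 and e q bounded
by iso).  Given et choose q, q' with error et/(A B) (and ≤ 1): f g - q q' = f (g - q') + (f - q) q'; and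
a b - e(q q') = a (b - e q') + (a - e q) e q'.
`CRrel.zero_left` (a = 0 ==> f = 0): LB s (e q) et so w(q) ≤ et, ‖f‖ ≤ et.  `CRrel.norm`: LB s a C ↔ ‖f‖ ≤ C:
if ‖f‖ ≤ C then w(q) ≤ max C et, LB s (e q) (max C et), LB s a (max C et) for all et: let et → 0.
`CRrel.lim`: uniform limits.  `exists_CR`: completeness of Om and of w.E: if q_n ∈ Lam is a sequence with
w(q_n - q_m) → 0 (Cauchy) and all e q_n have zero coefficients below -N, then f := lim lw w q_n, a := the
series of the limits of the coefficients (Cauchy because ‖(e q_n - e q_m)_k‖ s^k ≤ w(q_n - q_m)).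
`CR_of_LB`: if a has finite ‖.‖ on a bigger radius s' > s (LB s' a C) then a is the limit of its truncations
(Laurent polynomials): ‖a_n‖ s^n ≤ C (s/s')^n → 0.  Needs: every truncation is e of a Laurent polynomial
(hypothesis `tr`): for lz: ∑ a_n T^n, for lzi: ∑ a_n T^(-n).
-/

set_option autoImplicit false

open Polynomial
open scoped Classical

namespace Pool.Agent.MP_1c8e06_ag.CY

open Pool.Agent.MP_1c8e06_ag.AJ

noncomputable section

set_option linter.unusedSectionVars false

section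
variable {K : Type} [Field K]

theorem O3_sU_zpow (n : ℤ) :
    (((sU K) ^ n : (LaurentSeries K)ˣ) : LaurentSeries K) = HahnSeries.single n 1 := by
  have h1 : ∀ m : ℕ, (((sU K) ^ m : (LaurentSeries K)ˣ) : LaurentSeries K) =
      HahnSeries.single (m : ℤ) 1 := by
    intro m
    induction m with
    | zero => rw [pow_zero, Units.val_one]; rfl
    | succ m ih =>
      rw [pow_succ, Units.val_mul, ih]
      change HahnSeries.single (m : ℤ) 1 * HahnSeries.single (1 : ℤ) 1 = _
      rw [HahnSeries.single_mul_single, one_mul]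
      push_cast
      rfl
  have h2 : ∀ m : ℕ, (((sU K)⁻¹ ^ m : (LaurentSeries K)ˣ) : LaurentSeries K) =
      HahnSeries.single (-(m : ℤ)) 1 := by
    intro m
    induction m with
    | zero => rw [pow_zero, Units.val_one]; rfl
    | succ m ih =>
      rw [pow_succ, Units.val_mul, ih]
      change HahnSeries.single (-(m : ℤ)) 1 * HahnSeries.single (-1 : ℤ) 1 = _
      rw [HahnSeries.single_mul_single, one_mul]
      push_cast
      rw [neg_add]
  obtain ⟨m, rfl | rfl⟩ := n.eq_nat_or_neg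
  · rw [zpow_natCast, h1]
  · rw [zpow_neg, zpow_natCast, ← inv_pow, h2]

theorem O3_sU_inv_zpow (n : ℤ) :
    (((sU K)⁻¹ ^ n : (LaurentSeries K)ˣ) : LaurentSeries K) = HahnSeries.single (-n) 1 := by
  rw [inv_zpow, ← zpow_neg, O3_sU_zpow]

theorem O3_lz_coeff (q : Lam K) (n : ℤ) : (lz K q).coeff n = q.coeff n := by
  induction q using LaurentPolynomial.induction_on' with
  | add p q hp hq => rw [map_add, HahnSeries.coeff_add, hp, hq]; rfl
  | C_mul_T m a =>
    rw [map_mul, lz, LaurentPolynomial.eval₂_C, LaurentPolynomial.eval₂_T, O3_sU_zpow,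
      HahnSeries.C_apply, HahnSeries.single_mul_single, zero_add, mul_one,
      ← LaurentPolynomial.single_eq_C_mul_T, HahnSeries.coeff_single, AddMonoidAlgebra.coeff_single,
      Finsupp.single_apply]
    by_cases h : n = m
    · rw [if_pos h, if_pos h.symm]
    · rw [if_neg h, if_neg (Ne.symm h)]

theorem O3_lzi_coeff (q : Lam K) (n : ℤ) : (lzi K q).coeff n = q.coeff (-n) := by
  induction q using LaurentPolynomial.induction_on' with
  | add p q hp hq => rw [map_add, HahnSeries.coeff_add, hp, hq]; rfl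
  | C_mul_T m a =>
    rw [map_mul, lzi, LaurentPolynomial.eval₂_C, LaurentPolynomial.eval₂_T, O3_sU_inv_zpow,
      HahnSeries.C_apply, HahnSeries.single_mul_single, zero_add, mul_one,
      ← LaurentPolynomial.single_eq_C_mul_T, HahnSeries.coeff_single, AddMonoidAlgebra.coeff_single,
      Finsupp.single_apply]
    by_cases h : m = -n
    · rw [if_pos h, if_pos (by omega)]
    · rw [if_neg h, if_neg (by omega)]

theorem O3_toLaurent_coeff (P : K[X]) (i : ℕ) : (toLaurent P).coeff (i : ℤ) = P.coeff i := by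
  induction P using Polynomial.induction_on' with
  | add p q hp hq => rw [map_add, AddMonoidAlgebra.coeff_add, Finsupp.add_apply, hp, hq, coeff_add]
  | monomial n a =>
    rw [Polynomial.toLaurent_C_mul_T, ← LaurentPolynomial.single_eq_C_mul_T,
      AddMonoidAlgebra.coeff_single, Finsupp.single_apply, coeff_monomial]
    simp only [Nat.cast_inj]

theorem O3_toLaurent_coeff_neg (P : K[X]) (n : ℤ) (hn : n < 0) : (toLaurent P).coeff n = 0 := by
  induction P using Polynomial.induction_on' with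
  | add p q hp hq => rw [map_add, AddMonoidAlgebra.coeff_add, Finsupp.add_apply, hp, hq, add_zero]
  | monomial m a =>
    rw [Polynomial.toLaurent_C_mul_T, ← LaurentPolynomial.single_eq_C_mul_T,
      AddMonoidAlgebra.coeff_single, Finsupp.single_apply, if_neg (by omega)]

theorem O3_mul_T_coeff (q : Lam K) (N n : ℤ) :
    (q * LaurentPolynomial.T N).coeff n = q.coeff (n - N) := by
  induction q using LaurentPolynomial.induction_on' with
  | add p q hp hq =>
    rw [add_mul, AddMonoidAlgebra.coeff_add, Finsupp.add_apply, hp, hq, AddMonoidAlgebra.coeff_add,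
      Finsupp.add_apply]
  | C_mul_T m a =>
    rw [mul_assoc, ← LaurentPolynomial.T_add, ← LaurentPolynomial.single_eq_C_mul_T,
      ← LaurentPolynomial.single_eq_C_mul_T, AddMonoidAlgebra.coeff_single,
      AddMonoidAlgebra.coeff_single, Finsupp.single_apply, Finsupp.single_apply]
    by_cases h : m + N = n
    · rw [if_pos h, if_pos (by omega)]
    · rw [if_neg h, if_neg (by omega)]

theorem O3_jF_toLaurent (P : K[X]) :
    jF K (toLaurent P) = algebraMap K[X] (RatFunc K) P := by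
  induction P using Polynomial.induction_on' with
  | add p q hp hq => rw [map_add, map_add, hp, hq, map_add]
  | monomial n a =>
    rw [Polynomial.toLaurent_C_mul_T, map_mul, jF, LaurentPolynomial.eval₂_C,
      LaurentPolynomial.eval₂_T, zpow_natCast, Units.val_pow_eq_pow_val, ← C_mul_X_pow_eq_monomial,
      map_mul, map_pow, RatFunc.algebraMap_C, RatFunc.algebraMap_X]
    rfl

theorem O3_jF_T (n : ℕ) : jF K (LaurentPolynomial.T (n : ℤ)) = RatFunc.X ^ n := by
  rw [jF, LaurentPolynomial.eval₂_T, zpow_natCast, Units.val_pow_eq_pow_val]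
  rfl

end

variable {Om : Type} [NormedField Om] [CompleteSpace Om] [IsUltrametricDist Om] [IsAlgClosed Om]

theorem O3_key {r : ℝ} (hr : 0 < r) (q : Lam Om) {C : ℝ} (hC : 0 ≤ C) :
    (∀ n : ℤ, ‖q.coeff n‖ * r ^ n ≤ C) ↔ (gp 0 r).v (jF Om q) ≤ C := by
  obtain ⟨N, P, hP⟩ := q.exists_T_pow
  have h1 : (gp 0 r).v (jF Om q) * r ^ N = gn 0 r P := by
    rw [← gp_poly 0 hr P, ← O3_jF_toLaurent, hP, map_mul, map_mul, O3_jF_T, map_pow, gp_X hr]
  have hco : ∀ i : ℕ, P.coeff i = q.coeff ((i : ℤ) - N) := by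
    intro i
    rw [← O3_toLaurent_coeff, hP, O3_mul_T_coeff]
  have hneg : ∀ n : ℤ, n + N < 0 → q.coeff n = 0 := by
    intro n hn
    have h2 := O3_toLaurent_coeff_neg P (n + N) hn
    rwa [hP, O3_mul_T_coeff, add_sub_cancel_right] at h2
  have hcomp : P.comp (X + Polynomial.C 0) = P := by rw [map_zero, add_zero, comp_X]
  have hrN : 0 < r ^ N := pow_pos hr N
  constructor
  · intro h
    have h2 : gn 0 r P ≤ C * r ^ N := by
      apply gn_le
      intro i
      rw [hcomp, hco]
      have h3 := mul_le_mul_of_nonneg_right (h ((i : ℤ) - N)) hrN.le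
      refine le_trans (le_of_eq ?_) h3
      rw [mul_assoc, ← zpow_natCast r N, ← zpow_add₀ hr.ne', sub_add_cancel, zpow_natCast]
    rw [← h1] at h2
    exact le_of_mul_le_mul_right h2 hrN
  · intro h n
    by_cases hn : n + N < 0
    · rw [hneg n hn, norm_zero, zero_mul]
      exact hC
    · obtain ⟨i, hi⟩ := Int.eq_ofNat_of_zero_le (not_lt.1 hn)
      have h2 := gn_coeff_le 0 hr P i
      rw [hcomp, hco, ← hi, add_sub_cancel_right, ← h1] at h2
      refine le_trans ?_ h
      refine le_of_mul_le_mul_right (le_trans (le_of_eq ?_) h2) hrN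
      rw [mul_assoc, ← zpow_natCast r N, ← zpow_add₀ hr.ne', hi]
      rfl

theorem lz_iso {r : ℝ} (hr : 0 < r) (q : Lam Om) {C : ℝ} (hC : 0 ≤ C) :
    LB r (lz Om q) C ↔ (gp 0 r).v (jF Om q) ≤ C := by
  rw [← O3_key hr q hC]
  unfold LB
  simp only [O3_lz_coeff]

theorem lzi_iso {r : ℝ} (hr : 0 < r) (q : Lam Om) {C : ℝ} (hC : 0 ≤ C) :
    LB r⁻¹ (lzi Om q) C ↔ (gp 0 r).v (jF Om q) ≤ C := by
  rw [← O3_key hr q hC]
  unfold LB
  simp only [O3_lzi_coeff]
  constructor
  · intro h n
    have h1 := h (-n)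
    rwa [neg_neg, inv_zpow, ← zpow_neg, neg_neg] at h1
  · intro h n
    have h1 := h (-n)
    rwa [zpow_neg, ← inv_zpow] at h1

theorem LB.add {r : ℝ} (hr : 0 < r) {a b : LaurentSeries Om} {C : ℝ} (ha : LB r a C)
    (hb : LB r b C) : LB r (a + b) C := by
  intro n
  rw [HahnSeries.coeff_add]
  have hp : 0 ≤ r ^ n := (zpow_pos hr n).le
  have h1 := mul_le_mul_of_nonneg_right (IsUltrametricDist.norm_add_le_max (a.coeff n) (b.coeff n)) hp
  refine h1.trans ?_
  rw [max_mul_of_nonneg _ _ hp]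
  exact max_le (ha n) (hb n)

theorem LB.mul {r : ℝ} (hr : 0 < r) {a b : LaurentSeries Om} {A B : ℝ} (ha : LB r a A)
    (hb : LB r b B) (hA : 0 ≤ A) (hB : 0 ≤ B) : LB r (a * b) (A * B) := by
  intro n
  have hp : 0 < r ^ n := zpow_pos hr n
  rw [HahnSeries.coeff_mul, ← le_div_iff₀ hp]
  refine IsUltrametricDist.norm_sum_le_of_forall_le_of_nonneg (div_nonneg (mul_nonneg hA hB) hp.le) ?_
  intro ij hij
  rw [Finset.mem_antidiagonal] at hij
  rw [norm_mul, le_div_iff₀ hp, ← hij.2.2, zpow_add₀ hr.ne']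
  calc ‖a.coeff ij.1‖ * ‖b.coeff ij.2‖ * (r ^ ij.1 * r ^ ij.2)
      = (‖a.coeff ij.1‖ * r ^ ij.1) * (‖b.coeff ij.2‖ * r ^ ij.2) := by ring
    _ ≤ A * B := mul_le_mul (ha _) (hb _) (mul_nonneg (norm_nonneg _) (zpow_pos hr _).le) hA

theorem LB.neg {r : ℝ} {a : LaurentSeries Om} {C : ℝ} (ha : LB r a C) : LB r (-a) C := by
  intro n
  rw [HahnSeries.coeff_neg, norm_neg]
  exact ha n

/-- Every Laurent series which is finite at a bigger radius is finite at the smaller radius. -/
theorem LB.exists_smaller {r s : ℝ} (hs : 0 < s) (hsr : s ≤ r) {a : LaurentSeries Om} {C : ℝ}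
    (ha : LB r a C) : ∃ C', LB s a C' := by
  have hr : 0 < r := hs.trans_le hsr
  set k : ℕ := (-a.order).toNat with hk
  refine ⟨C * (r / s) ^ k, fun n => ?_⟩
  have hC : 0 ≤ C := (mul_nonneg (norm_nonneg _) (zpow_pos hr 0).le).trans (ha 0)
  have hrs : 1 ≤ r / s := (one_le_div hs).2 hsr
  have hrs0 : 0 < r / s := div_pos hr hs
  by_cases hn : n < a.order
  · rw [HahnSeries.coeff_eq_zero_of_lt_order hn, norm_zero, zero_mul]
    exact mul_nonneg hC (pow_nonneg hrs0.le _)
  · have h1 : s ^ n = r ^ n * (r / s) ^ (-n) := by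
      rw [div_zpow, zpow_neg, zpow_neg]
      have h2 := (zpow_pos hr n).ne'
      have h3 := (zpow_pos hs n).ne'
      field_simp
    have h2 : (r / s) ^ (-n) ≤ (r / s) ^ k := by
      rw [← zpow_natCast (r / s) k]
      apply zpow_le_zpow_right₀ hrs
      omega
    rw [h1, ← mul_assoc]
    exact mul_le_mul (ha n) h2 (zpow_pos hrs0 _).le hC

/-- The abstract situation: `w = gp 0 r`, `e = lz`, `s = r`, or `e = lzi`, `s = r⁻¹`. -/
structure CRE (w : Pt Om) (e : Lam Om →+* LaurentSeries Om) (s : ℝ) : Prop where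
  pos : 0 < s
  iso : ∀ (q : Lam Om) (C : ℝ), 0 ≤ C → (LB s (e q) C ↔ w.v (jF Om q) ≤ C)
  tr : ∀ (a : LaurentSeries Om) (N : ℤ), ∃ q : Lam Om, ∀ n : ℤ,
    (e q).coeff n = if n < N then a.coeff n else 0

theorem O3_sum_coeff (a : LaurentSeries Om) (N : ℤ) (n : ℤ) :
    (∑ m ∈ Finset.Ico a.order N, if m = n then a.coeff m else 0) =
      if n < N then a.coeff n else 0 := by
  rw [Finset.sum_ite_eq' (Finset.Ico a.order N) n (fun m => a.coeff m)]
  by_cases h : n < a.order
  · rw [if_neg (by rw [Finset.mem_Ico]; omega), HahnSeries.coeff_eq_zero_of_lt_order h, ite_self]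
  · by_cases h1 : n < N
    · rw [if_pos (by rw [Finset.mem_Ico]; omega), if_pos h1]
    · rw [if_neg (by rw [Finset.mem_Ico]; omega), if_neg h1]

theorem cre_lz {r : ℝ} (hr : 0 < r) : CRE (gp (0 : Om) r) (lz Om) r := by
  refine ⟨hr, fun q C hC => lz_iso hr q hC, fun a N => ?_⟩
  refine ⟨∑ m ∈ Finset.Ico a.order N, AddMonoidAlgebra.single m (a.coeff m), fun n => ?_⟩
  rw [O3_lz_coeff, AddMonoidAlgebra.coeff_sum, Finset.sum_apply', ← O3_sum_coeff]
  refine Finset.sum_congr rfl fun m _ => ?_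
  rw [AddMonoidAlgebra.coeff_single, Finsupp.single_apply]

theorem cre_lzi {r : ℝ} (hr : 0 < r) : CRE (gp (0 : Om) r) (lzi Om) r⁻¹ := by
  refine ⟨inv_pos.2 hr, fun q C hC => lzi_iso hr q hC, fun a N => ?_⟩
  refine ⟨∑ m ∈ Finset.Ico a.order N, AddMonoidAlgebra.single (-m) (a.coeff m), fun n => ?_⟩
  rw [O3_lzi_coeff, AddMonoidAlgebra.coeff_sum, Finset.sum_apply', ← O3_sum_coeff]
  refine Finset.sum_congr rfl fun m _ => ?_
  rw [AddMonoidAlgebra.coeff_single, Finsupp.single_apply]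
  by_cases h : m = n
  · rw [if_pos h, if_pos (by omega)]
  · rw [if_neg h, if_neg (by omega)]

section
variable {w : Pt Om} {e : Lam Om →+* LaurentSeries Om} {s : ℝ}

theorem O3_norm_lw (w : Pt Om) (q : Lam Om) : ‖lw w q‖ = w.v (jF Om q) := w.norm_ι _

theorem O3_sub_le (w : Pt Om) {x y z : w.E} {C : ℝ} (h1 : ‖x - y‖ ≤ C) (h2 : ‖y - z‖ ≤ C) :
    ‖x - z‖ ≤ C := by
  have h3 : x - z = (x - y) + (y - z) := by abel
  rw [h3]
  exact (w.norm_add _ _).trans (max_le h1 h2)

theorem O3_LB_zero (s : ℝ) {C : ℝ} (hC : 0 ≤ C) : LB s (0 : LaurentSeries Om) C := by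
  intro n
  rw [HahnSeries.coeff_zero, norm_zero, zero_mul]
  exact hC

theorem O3_LB_mono {s : ℝ} {a : LaurentSeries Om} {C C' : ℝ} (h : LB s a C) (hC : C ≤ C') :
    LB s a C' := fun n => (h n).trans hC

theorem O3_LB_sub (hs : 0 < s) {a b c : LaurentSeries Om} {C : ℝ} (h1 : LB s (a - b) C)
    (h2 : LB s (b - c) C) : LB s (a - c) C := by
  have h3 : a - c = (a - b) + (b - c) := by abel
  rw [h3]
  exact LB.add hs h1 h2

theorem O3_LB_symm {a b : LaurentSeries Om} {C : ℝ} (h1 : LB s (a - b) C) : LB s (b - a) C := by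
  have h3 : b - a = -(a - b) := by abel
  rw [h3]
  exact h1.neg

theorem CRrel.base (E : CRE w e s) (q : Lam Om) : CRrel w e s (e q) (lw w q) := by
  intro et het
  refine ⟨q, ?_, ?_⟩
  · rw [sub_self, norm_zero]
    exact het.le
  · rw [sub_self]
    exact O3_LB_zero s het.le

theorem CRrel.add (E : CRE w e s) {a b : LaurentSeries Om} {f g : w.E} (h : CRrel w e s a f)
    (h' : CRrel w e s b g) : CRrel w e s (a + b) (f + g) := by
  intro et het
  obtain ⟨q, h1, h2⟩ := h et het
  obtain ⟨q', h1', h2'⟩ := h' et het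
  refine ⟨q + q', ?_, ?_⟩
  · have h3 : f + g - lw w (q + q') = (f - lw w q) + (g - lw w q') := by rw [map_add]; abel
    rw [h3]
    exact (w.norm_add _ _).trans (max_le h1 h1')
  · have h3 : a + b - e (q + q') = (a - e q) + (b - e q') := by rw [map_add]; abel
    rw [h3]
    exact LB.add E.pos h2 h2'

theorem CRrel.neg (E : CRE w e s) {a : LaurentSeries Om} {f : w.E} (h : CRrel w e s a f) :
    CRrel w e s (-a) (-f) := by
  intro et het
  obtain ⟨q, h1, h2⟩ := h et het
  refine ⟨-q, ?_, ?_⟩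
  · have h3 : -f - lw w (-q) = -(f - lw w q) := by rw [map_neg]; abel
    rw [h3, norm_neg]
    exact h1
  · have h3 : -a - e (-q) = -(a - e q) := by rw [map_neg]; abel
    rw [h3]
    exact h2.neg

/-- A bound for both sides. -/
theorem O3_bdd (E : CRE w e s) {a : LaurentSeries Om} {f : w.E} (h : CRrel w e s a f) :
    ∃ A : ℝ, 1 ≤ A ∧ LB s a A ∧ ‖f‖ ≤ A := by
  obtain ⟨q, h1, h2⟩ := h 1 one_pos
  have h3 : LB s (e q) (w.v (jF Om q)) := (E.iso q _ (w.v.nonneg _)).2 le_rfl
  refine ⟨max 1 (w.v (jF Om q)), le_max_left _ _, ?_, ?_⟩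
  · have h4 : a = (a - e q) + e q := by abel
    rw [h4]
    exact LB.add E.pos (O3_LB_mono h2 (le_max_left _ _)) (O3_LB_mono h3 (le_max_right _ _))
  · have h4 : f = (f - lw w q) + lw w q := by abel
    rw [h4]
    refine (w.norm_add _ _).trans (max_le_max h1 ?_)
    rw [O3_norm_lw]

theorem CRrel.mul (E : CRE w e s) {a b : LaurentSeries Om} {f g : w.E} (h : CRrel w e s a f)
    (h' : CRrel w e s b g) : CRrel w e s (a * b) (f * g) := by
  intro et het
  obtain ⟨A, hA, hA1, hA2⟩ := O3_bdd E h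
  obtain ⟨B, hB, hB1, hB2⟩ := O3_bdd E h'
  have hA0 : 0 < A := one_pos.trans_le hA
  have hB0 : 0 < B := one_pos.trans_le hB
  set d : ℝ := min 1 (et / (A * B)) with hd
  have hd0 : 0 < d := lt_min one_pos (div_pos het (mul_pos hA0 hB0))
  have hd1 : d ≤ 1 := min_le_left _ _
  have hd2 : d * (A * B) ≤ et := by
    rw [← le_div_iff₀ (mul_pos hA0 hB0)]
    exact min_le_right _ _
  have hAd : A * d ≤ et := by
    refine le_trans ?_ hd2
    nlinarith [mul_pos hA0 hd0]
  have hBd : d * B ≤ et := by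
    refine le_trans ?_ hd2
    nlinarith [mul_pos hB0 hd0]
  obtain ⟨q, h1, h2⟩ := h d hd0
  obtain ⟨q', h1', h2'⟩ := h' d hd0
  refine ⟨q * q', ?_, ?_⟩
  · have h3 : f * g - lw w (q * q') = f * (g - lw w q') + (f - lw w q) * lw w q' := by
      rw [map_mul]; ring
    have h4 : ‖lw w q'‖ ≤ B := by
      have h5 : lw w q' = g - (g - lw w q') := by abel
      rw [h5, sub_eq_add_neg]
      refine (w.norm_add _ _).trans (max_le hB2 ?_)
      rw [norm_neg]
      exact h1'.trans (hd1.trans hB)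
    rw [h3]
    refine (w.norm_add _ _).trans (max_le ?_ ?_)
    · rw [norm_mul]
      exact (mul_le_mul hA2 h1' (norm_nonneg _) hA0.le).trans hAd
    · rw [norm_mul]
      exact (mul_le_mul h1 h4 (norm_nonneg _) hd0.le).trans hBd
  · have h3 : a * b - e (q * q') = a * (b - e q') + (a - e q) * e q' := by
      rw [map_mul]; ring
    have h4 : LB s (e q') B := by
      have h5 : e q' = b + -(b - e q') := by abel
      rw [h5]
      exact LB.add E.pos hB1 (O3_LB_mono h2' (hd1.trans hB)).neg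
    rw [h3]
    exact LB.add E.pos (O3_LB_mono (LB.mul E.pos hA1 h2' hA0.le hd0.le) hAd)
      (O3_LB_mono (LB.mul E.pos h2 h4 hd0.le hB0.le) hBd)

theorem CRrel.norm (E : CRE w e s) {a : LaurentSeries Om} {f : w.E} (h : CRrel w e s a f) {C : ℝ}
    (hC : 0 ≤ C) : LB s a C ↔ ‖f‖ ≤ C := by
  constructor
  · intro h1
    refine le_of_forall_pos_le_add fun et het => ?_
    obtain ⟨q, h2, h3⟩ := h et het
    have h4 : LB s (e q) (max C et) := by
      have h5 : e q = a + -(a - e q) := by abel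
      rw [h5]
      exact LB.add E.pos (O3_LB_mono h1 (le_max_left _ _)) (O3_LB_mono h3 (le_max_right _ _)).neg
    have h6 := (E.iso q _ (hC.trans (le_max_left _ _))).1 h4
    have h7 : f = (f - lw w q) + lw w q := by abel
    have h8 : ‖f‖ ≤ max C et := by
      rw [h7]
      refine (w.norm_add _ _).trans (max_le (h2.trans (le_max_right _ _)) ?_)
      rw [O3_norm_lw]
      exact h6
    refine h8.trans (max_le (by linarith) (by linarith))
  · intro h1 n
    have hn : 0 < s ^ n := zpow_pos E.pos n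
    refine le_of_forall_pos_le_add fun et het => ?_
    obtain ⟨q, h2, h3⟩ := h et het
    have h6 : w.v (jF Om q) ≤ max C et := by
      rw [← O3_norm_lw]
      have h7 : lw w q = f + -(f - lw w q) := by abel
      rw [h7]
      refine (w.norm_add _ _).trans (max_le (h1.trans (le_max_left _ _)) ?_)
      rw [norm_neg]
      exact h2.trans (le_max_right _ _)
    have h4 := (E.iso q _ (hC.trans (le_max_left _ _))).2 h6
    have h5 : LB s a (max C et) := by
      have h5 : a = (a - e q) + e q := by abel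
      rw [h5]
      exact LB.add E.pos (O3_LB_mono h3 (le_max_right _ _)) h4
    exact (h5 n).trans (max_le (by linarith) (by linarith))

theorem CRrel.zero_left (E : CRE w e s) {f : w.E} (h : CRrel w e s 0 f) : f = 0 := by
  have h1 := (h.norm E le_rfl).1 (O3_LB_zero s le_rfl)
  exact norm_le_zero_iff.1 h1

theorem CRrel.zero_right (E : CRE w e s) {a : LaurentSeries Om} (h : CRrel w e s a 0) : a = 0 := by
  have h1 := (h.norm E le_rfl).2 (by rw [norm_zero])
  ext n
  have h2 := h1 n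
  have h3 : 0 < s ^ n := zpow_pos E.pos n
  rw [HahnSeries.coeff_zero]
  refine norm_le_zero_iff.1 ?_
  by_contra h4
  rw [not_le] at h4
  exact absurd (mul_pos h4 h3) (not_lt.2 h2)

theorem CRrel.lim (E : CRE w e s) {a : LaurentSeries Om} {f : w.E}
    (h : ∀ et : ℝ, 0 < et → ∃ (b : LaurentSeries Om) (g : w.E), CRrel w e s b g ∧ ‖f - g‖ ≤ et ∧
      LB s (a - b) et) : CRrel w e s a f := by
  intro et het
  obtain ⟨b, g, h1, h2, h3⟩ := h et het
  obtain ⟨q, h4, h5⟩ := h1 et het
  exact ⟨q, O3_sub_le w h2 h4, O3_LB_sub E.pos h3 h5⟩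

/-- Differences of Laurent polynomials. -/
theorem O3_diff (E : CRE w e s) (q q' : Lam Om) {C : ℝ} (hC : 0 ≤ C) :
    LB s (e q - e q') C ↔ ‖lw w q - lw w q'‖ ≤ C := by
  rw [← map_sub, ← map_sub, O3_norm_lw]
  exact E.iso _ C hC

theorem exists_CR (E : CRE w e s) (f : w.E) (N : ℤ)
    (h : ∀ et : ℝ, 0 < et → ∃ q : Lam Om, ‖f - lw w q‖ ≤ et ∧ ∀ n, n < N → (e q).coeff n = 0) :
    ∃ a : LaurentSeries Om, (∀ n, n < N → a.coeff n = 0) ∧ CRrel w e s a f := by
  have hpos : ∀ k : ℕ, 0 < 1 / ((k : ℝ) + 1) := fun k => Nat.one_div_pos_of_nat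
  choose q hq1 hq2 using fun k : ℕ => h (1 / ((k : ℝ) + 1)) (hpos k)
  have hmono : ∀ k l : ℕ, k ≤ l → 1 / ((l : ℝ) + 1) ≤ 1 / ((k : ℝ) + 1) := fun k l hkl =>
    Nat.one_div_le_one_div hkl
  have hd : ∀ k l : ℕ, k ≤ l → LB s (e (q k) - e (q l)) (1 / ((k : ℝ) + 1)) := by
    intro k l hkl
    rw [O3_diff E _ _ (hpos k).le]
    refine O3_sub_le w (y := f) ?_ ((hq1 l).trans (hmono k l hkl))
    rw [norm_sub_rev]
    exact hq1 k
  have hcau : ∀ n : ℤ, ∃ c : Om, Filter.Tendsto (fun k => (e (q k)).coeff n) Filter.atTop (nhds c) := by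
    intro n
    apply cauchySeq_tendsto_of_complete
    rw [Metric.cauchySeq_iff']
    intro et het
    have hn : 0 < s ^ n := zpow_pos E.pos n
    obtain ⟨k, hk⟩ := exists_nat_one_div_lt (mul_pos het hn)
    refine ⟨k, fun l hl => ?_⟩
    rw [dist_comm, dist_eq_norm]
    have h1 := hd k l hl n
    rw [HahnSeries.coeff_sub] at h1
    exact lt_of_mul_lt_mul_right (h1.trans_lt hk) hn.le
  choose c hc using hcau
  have hc0 : ∀ n : ℤ, n < N → c n = 0 := by
    intro n hn
    refine tendsto_nhds_unique (hc n) ?_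
    simp only [fun k => hq2 k n hn]
    exact tendsto_const_nhds
  have hb : BddBelow (Function.support c) := by
    refine ⟨N, fun n hn => ?_⟩
    by_contra h1
    exact hn (hc0 n (not_le.1 h1))
  refine ⟨HahnSeries.ofSuppBddBelow c hb, fun n hn => hc0 n hn, ?_⟩
  intro et het
  obtain ⟨k, hk⟩ := exists_nat_one_div_lt het
  refine ⟨q k, (hq1 k).trans hk.le, fun n => ?_⟩
  rw [HahnSeries.coeff_sub]
  change ‖c n - (e (q k)).coeff n‖ * s ^ n ≤ et
  have h1 : Filter.Tendsto (fun l => ‖(e (q l)).coeff n - (e (q k)).coeff n‖ * s ^ n) Filter.atTop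
      (nhds (‖c n - (e (q k)).coeff n‖ * s ^ n)) :=
    (((hc n).sub tendsto_const_nhds).norm).mul_const _
  refine le_of_tendsto h1 ?_
  filter_upwards [Filter.eventually_ge_atTop k] with l hl
  have h2 := (O3_LB_symm (hd k l hl)) n
  rw [HahnSeries.coeff_sub] at h2
  exact h2.trans hk.le

theorem CR_of_LB (E : CRE w e s) {s' C : ℝ} (hs : s < s') {a : LaurentSeries Om}
    (ha : LB s' a C) : ∃ f : w.E, CRrel w e s a f := by
  have hs0 := E.pos
  have hs' : 0 < s' := hs0.trans hs
  have hC : 0 ≤ C := (mul_nonneg (norm_nonneg _) (zpow_pos hs' 0).le).trans (ha 0)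
  set t : ℝ := s / s' with ht
  have ht0 : 0 < t := div_pos hs0 hs'
  have ht1 : t < 1 := (div_lt_one hs').2 hs
  have hbd : ∀ (k : ℕ) (n : ℤ), (k : ℤ) ≤ n → ‖a.coeff n‖ * s ^ n ≤ C * t ^ k := by
    intro k n hn
    have h1 : s ^ n = s' ^ n * t ^ n := by
      rw [ht, div_zpow]
      have h2 := (zpow_pos hs' n).ne'
      field_simp
    have h2 : t ^ n ≤ t ^ k := by
      rw [← zpow_natCast t k]
      exact zpow_le_zpow_right_of_le_one₀ ht0 ht1.le hn
    rw [h1, ← mul_assoc]
    exact mul_le_mul (ha n) h2 (zpow_pos ht0 _).le hC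
  choose q hq using fun k : ℕ => E.tr a (k : ℤ)
  have hlim : Filter.Tendsto (fun k : ℕ => C * t ^ k) Filter.atTop (nhds 0) := by
    have h1 := (tendsto_pow_atTop_nhds_zero_of_lt_one ht0.le ht1).const_mul C
    rwa [mul_zero] at h1
  have hex : ∀ et : ℝ, 0 < et → ∃ k : ℕ, C * t ^ k < et := by
    intro et het
    exact ((hlim.eventually (gt_mem_nhds het))).exists
  have hA : ∀ k : ℕ, LB s (a - e (q k)) (C * t ^ k) := by
    intro k n
    rw [HahnSeries.coeff_sub, hq]
    by_cases hn : n < (k : ℤ)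
    · rw [if_pos hn, sub_self, norm_zero, zero_mul]
      exact mul_nonneg hC (pow_nonneg ht0.le _)
    · rw [if_neg hn, sub_zero]
      exact hbd k n (not_lt.1 hn)
  have hmono : ∀ k l : ℕ, k ≤ l → C * t ^ l ≤ C * t ^ k := fun k l hkl =>
    mul_le_mul_of_nonneg_left (pow_le_pow_of_le_one ht0.le ht1.le hkl) hC
  have hd : ∀ k l : ℕ, k ≤ l → ‖lw w (q k) - lw w (q l)‖ ≤ C * t ^ k := by
    intro k l hkl
    rw [← O3_diff E _ _ (mul_nonneg hC (pow_nonneg ht0.le _))]
    exact O3_LB_sub E.pos (O3_LB_symm (hA k)) (O3_LB_mono (hA l) (hmono k l hkl))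
  obtain ⟨f, hf⟩ : ∃ f : w.E, Filter.Tendsto (fun k => lw w (q k)) Filter.atTop (nhds f) := by
    apply cauchySeq_tendsto_of_complete
    rw [Metric.cauchySeq_iff']
    intro et het
    obtain ⟨k, hk⟩ := hex et het
    refine ⟨k, fun l hl => ?_⟩
    rw [dist_comm, dist_eq_norm]
    exact (hd k l hl).trans_lt hk
  refine ⟨f, fun et het => ?_⟩
  obtain ⟨k, hk⟩ := hex et het
  refine ⟨q k, ?_, O3_LB_mono (hA k) hk.le⟩
  have h1 : Filter.Tendsto (fun l => ‖lw w (q l) - lw w (q k)‖) Filter.atTop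
      (nhds (‖f - lw w (q k)‖)) := (hf.sub tendsto_const_nhds).norm
  refine le_of_tendsto h1 ?_
  filter_upwards [Filter.eventually_ge_atTop k] with l hl
  rw [norm_sub_rev]
  exact (hd k l hl).trans hk.le

/-- A series without terms below `N` which converges is a limit of Laurent polynomials without
terms below `N`. -/
theorem CRrel.tr (E : CRE w e s) {a : LaurentSeries Om} {f : w.E} (h : CRrel w e s a f) (N : ℤ)
    (ha : ∀ n, n < N → a.coeff n = 0) {et : ℝ} (het : 0 < et) :
    ∃ q : Lam Om, ‖f - lw w q‖ ≤ et ∧ LB s (a - e q) et ∧ ∀ n, n < N → (e q).coeff n = 0 := by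
  obtain ⟨q', h1, h2⟩ := h et het
  obtain ⟨q'', h3⟩ := E.tr (e q') N
  have h4 : LB s (e q'') et := by
    intro n
    rw [h3]
    by_cases hn : n < N
    · rw [if_pos hn]
      have h5 := h2 n
      rw [HahnSeries.coeff_sub, ha n hn, zero_sub, norm_neg] at h5
      exact h5
    · rw [if_neg hn, norm_zero, zero_mul]
      exact het.le
  have h6 := (E.iso q'' et het.le).1 h4
  refine ⟨q' - q'', ?_, ?_, ?_⟩
  · have h7 : f - lw w (q' - q'') = (f - lw w q') + lw w q'' := by rw [map_sub]; abel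
    rw [h7]
    refine (w.norm_add _ _).trans (max_le h1 ?_)
    rw [O3_norm_lw]
    exact h6
  · have h7 : a - e (q' - q'') = (a - e q') + e q'' := by rw [map_sub]; abel
    rw [h7]
    exact LB.add E.pos h2 h4
  · intro n hn
    rw [map_sub, HahnSeries.coeff_sub, h3, if_pos hn, sub_self]

end

end

end Pool.Agent.MP_1c8e06_ag.CY
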