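import Pool.Agent.Lib.MP_1c8e06_ag.Mg.G015

/-!
# CY T5: associativity, trace and dual basis of the twisted product

NOTATION.  h : TwD p S x N chi eps lam; φ := AdjoinRoot.of (X^p - X - C lam), om := AdjoinRoot.root; tV g := tV p x eps φ om g; `tV_inj`: two elements
with the same tV g for all g are equal; `tV_mul` applies because of `root_pow`.
`tmul_assoc`: tV g of both sides is the product of the three values (`tV_mul`, mul_assoc).
`tmul_tr`: z := ∑_g act g (a * b) is fixed by all act g0 (reindex), so is eps * act g0 z = eps * z under σ = act x (x fixes eps, T3 `x_eps`), so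
tV g0 z = φ (eps * z) (`tV_fixed`).  tV g0 (∑_g act g (tmul a b)) = ∑_g tV (g0 g) (tmul a b) (`tV_sum`, `tV_act`) = ∑_g tV g a * tV g b (reindex,
`tV_mul`) = φ (eps * z) (`sum_tV_mul`).
`dual_gg`: AJ.dual_e (AJ/A1) for x := g⁻¹ g', apply act g (also V1 `Al.dual'`; do not import V1).
`tmul_dual`: let g be fixed; tV g of the left side is ∑_l ∑_m φ (cst (T' l m)) * tV g (e l) * tV (g h') (e m) (`tV_sum`, `tV_cst_mul`, `tV_mul`,
`tV_act`).  By definition tV g a = φ eps * ∑_k ev(d_k) * φ (act (x^k g) a) (PP = ∑_k d_k * C (σ^k ..), σ^k (act g a) = act (x^k * g) a).  Put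
D k := (dY p (Al S) k).eval₂ φ om.  With φ eps * φ eps = φ eps the sum is
φ eps * ∑_k ∑_k' D k * D k' * φ (∑_l ∑_m cst (T' l m) * act (x^k g) (e l) * act (x^k' g h') (e m)) = φ eps * ∑_k ∑_k' D k * D k' * [x^k g = x^k' g h'] (`dual_gg`).
If g h' g⁻¹ is not a power of x all terms are 0 and h' ≠ 1.  If g h' g⁻¹ = x^j.val (j : ZMod p; the elements of zpowers x) then x^k g = x^k' g h' iff
k = k' + j (x has order p), i.e. k' = k - j, so the sum is φ eps * ∑_k D k * D (k - j) = φ eps * [j = 0] (T1 `sum_dY_mul`, evaluated; charA), and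
j = 0 iff h' = 1.  On the right side tV g 1 = φ eps (`tV_one`), tV g 0 = 0.
-/

set_option autoImplicit false

open Polynomial
open scoped Classical

namespace Pool.Agent.MP_1c8e06_ag.CY

open Pool.Agent.MP_1c8e06_ag.AJ

noncomputable section

set_option linter.unusedSectionVars false

variable {p : ℕ} [Fact p.Prime] {B : Type} [CommRing B] {G : Type} [Group G] [Fintype G]
  {S : SC B G} {x : G} {N : Subgroup G} {chi : G → ℕ} {eps lam : Al S}

theorem TwD.tmul_assoc (h : TwD p S x N chi eps lam) (a b c : Al S) :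
    tmul p S x N lam (tmul p S x N lam a b) c = tmul p S x N lam a (tmul p S x N lam b c) := by
  apply h.tV_inj
  intro g
  have hr := root_pow (p := p) lam
  rw [h.tV_mul _ _ hr, h.tV_mul _ _ hr, h.tV_mul _ _ hr, h.tV_mul _ _ hr, mul_assoc]

theorem TwD.tmul_tr (h : TwD p S x N chi eps lam) (a b : Al S) :
    ∑ g, Al.act S g (tmul p S x N lam a b) = ∑ g, Al.act S g (a * b) := by
  apply h.tV_inj
  intro g0
  have hr := root_pow (p := p) lam
  have hz : ∀ u : G, Al.act S u (∑ g, Al.act S g (a * b)) = ∑ g, Al.act S g (a * b) := by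
    intro u
    rw [map_sum]
    exact Fintype.sum_equiv (Equiv.mulLeft u) _ _ fun g => (Al.act_mul_apply S u g _).symm
  rw [h.tV_fixed _ _ g0 (∑ g, Al.act S g (a * b)) (by rw [hz, map_mul, h.x_eps, hz]), hz,
    ← h.sum_tV_mul (AdjoinRoot.of (X ^ p - X - C lam)) (AdjoinRoot.root _), tV_sum]
  refine Fintype.sum_equiv (Equiv.mulLeft g0) _ _ fun g => ?_
  rw [tV_act, h.tV_mul _ _ hr]
  rfl

theorem dual_gg (S : SC B G) (g g' : G) :
    ∑ l, ∑ m, Al.cst S (S.T' l m) * Al.act S g (Al.e S l) * Al.act S g' (Al.e S m) =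
      if g = g' then 1 else 0 := by
  have h1 : ∑ l, ∑ m, Al.cst S (S.T' l m) * Al.act S g (Al.e S l) * Al.act S g' (Al.e S m) =
      Al.act S g (∑ l, ∑ m, Al.cst S (S.T' l m) * Al.e S l *
        Al.act S (g⁻¹ * g') (Al.e S m)) := by
    rw [map_sum]
    refine Finset.sum_congr rfl fun l _ => ?_
    rw [map_sum]
    refine Finset.sum_congr rfl fun m _ => ?_
    rw [map_mul, map_mul, Al.act_cst, ← Al.act_mul_apply, mul_inv_cancel_left]
  rw [h1, dual_e]
  by_cases hg : g = g'
  · rw [if_pos (by rw [hg, inv_mul_cancel]), if_pos hg, map_one]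
  · rw [if_neg (fun h2 => hg (inv_mul_eq_one.1 h2)), if_neg hg, map_zero]

private theorem T5_tV {A1 : Type} [CommRing A1] (φ : Al S →+* A1) (om : A1) (g : G) (a : Al S) :
    tV p x eps φ om g a = ∑ k : ZMod p, φ eps * (dY p (Al S) k).eval₂ φ om *
      φ (Al.act S (x ^ k.val * g) a) := by
  unfold tV PP
  rw [eval₂_finsetSum, Finset.mul_sum]
  refine Finset.sum_congr rfl fun k _ => ?_
  have h1 : ((Al.act S x) ^ k.val) (Al.act S g a) = Al.act S (x ^ k.val * g) a := by
    rw [Al.act_mul_apply, map_pow]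
  rw [eval₂_mul, eval₂_C, h1, mul_assoc]

private theorem T5_sum {A1 : Type} [CommRing A1] (c : G → G → A1)
    (E E' : ZMod p → A1) (u v : ZMod p → G → A1) :
    ∑ l, ∑ m, c l m * ((∑ k, E k * u k l) * ∑ k', E' k' * v k' m) =
      ∑ k, ∑ k', E k * E' k' * ∑ l, ∑ m, c l m * u k l * v k' m := by
  simp only [Finset.sum_mul, Finset.mul_sum]
  conv_rhs => rw [Finset.sum_comm]
  rw [Finset.sum_congr rfl fun l _ => Finset.sum_comm, Finset.sum_comm]
  refine Finset.sum_congr rfl fun k' _ => ?_
  rw [Finset.sum_congr rfl fun l _ => Finset.sum_comm, Finset.sum_comm]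
  refine Finset.sum_congr rfl fun k _ => ?_
  refine Finset.sum_congr rfl fun l _ => Finset.sum_congr rfl fun m _ => ?_
  ring

theorem TwD.tmul_dual (h : TwD p S x N chi eps lam) (h' : G) :
    ∑ l, ∑ m, Al.cst S (S.T' l m) *
      tmul p S x N lam (Al.e S l) (Al.act S h' (Al.e S m)) = if h' = 1 then 1 else 0 := by
  have hp : p.Prime := Fact.out
  apply h.tV_inj
  intro g
  have hr := root_pow (p := p) lam
  generalize hφ : AdjoinRoot.of (X ^ p - X - C lam : (Al S)[X]) = φ at hr ⊢
  generalize hom : AdjoinRoot.root (X ^ p - X - C lam : (Al S)[X]) = om at hr ⊢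
  have hee : φ eps * φ eps = φ eps := by rw [← map_mul, h.ni.idem]
  have h1 : tV p x eps φ om g (∑ l, ∑ m, Al.cst S (S.T' l m) *
      tmul p S x N lam (Al.e S l) (Al.act S h' (Al.e S m))) =
      ∑ k : ZMod p, ∑ k' : ZMod p, φ eps * (dY p (Al S) k).eval₂ φ om *
        (φ eps * (dY p (Al S) k').eval₂ φ om) *
        if x ^ k.val * g = x ^ k'.val * (g * h') then 1 else 0 := by
    rw [tV_sum]
    have h2 : ∀ l : G, tV p x eps φ om g (∑ m, Al.cst S (S.T' l m) *
        tmul p S x N lam (Al.e S l) (Al.act S h' (Al.e S m))) =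
        ∑ m, φ (Al.cst S (S.T' l m)) * ((∑ k : ZMod p, φ eps * (dY p (Al S) k).eval₂ φ om *
          φ (Al.act S (x ^ k.val * g) (Al.e S l))) *
          ∑ k' : ZMod p, φ eps * (dY p (Al S) k').eval₂ φ om *
            φ (Al.act S (x ^ k'.val * (g * h')) (Al.e S m))) := by
      intro l
      rw [tV_sum]
      refine Finset.sum_congr rfl fun m _ => ?_
      rw [h.tV_cst_mul, h.tV_mul φ om hr, tV_act, T5_tV, T5_tV]
    rw [Finset.sum_congr rfl fun l _ => h2 l,
      T5_sum (fun l m => φ (Al.cst S (S.T' l m)))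
        (fun k => φ eps * (dY p (Al S) k).eval₂ φ om)
        (fun k => φ eps * (dY p (Al S) k).eval₂ φ om)
        (fun k l => φ (Al.act S (x ^ k.val * g) (Al.e S l)))
        (fun k' m => φ (Al.act S (x ^ k'.val * (g * h')) (Al.e S m)))]
    refine Finset.sum_congr rfl fun k _ => Finset.sum_congr rfl fun k' _ => ?_
    have h3 : ∑ l, ∑ m, φ (Al.cst S (S.T' l m)) * φ (Al.act S (x ^ k.val * g) (Al.e S l)) *
        φ (Al.act S (x ^ k'.val * (g * h')) (Al.e S m)) =
        φ (if x ^ k.val * g = x ^ k'.val * (g * h') then 1 else 0) := by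
      rw [← dual_gg S (x ^ k.val * g) (x ^ k'.val * (g * h')), map_sum]
      refine Finset.sum_congr rfl fun l _ => ?_
      rw [map_sum]
      refine Finset.sum_congr rfl fun m _ => ?_
      rw [map_mul φ, map_mul φ]
    rw [h3]
    split_ifs
    · rw [map_one]
    · rw [map_zero]
  rw [h1]
  have h0 : tV p x eps φ om g (if h' = 1 then 1 else 0) = if h' = 1 then φ eps else 0 := by
    split_ifs with h2
    · exact h.tV_one φ om g
    · have h3 := tV_sum (p := p) (x := x) (eps := eps) φ om g (∅ : Finset ℕ) (fun _ => (0 : Al S))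
      rw [Finset.sum_empty, Finset.sum_empty] at h3
      exact h3
  rw [h0]
  by_cases hj : ∃ j : ZMod p, g * h' * g⁻¹ = x ^ j.val
  · obtain ⟨j, hj⟩ := hj
    have hiff : ∀ k k' : ZMod p, x ^ k.val * g = x ^ k'.val * (g * h') ↔ k' = k - j := by
      intro k k'
      have h2 : g * h' = x ^ j.val * g := by rw [← hj, inv_mul_cancel_right]
      have : NeZero p := ⟨hp.ne_zero⟩
      rw [h2, ← mul_assoc, mul_left_inj, ← pow_add, pow_eq_pow_iff_modEq, h.ord,
        ← ZMod.natCast_eq_natCast_iff, Nat.cast_add, ZMod.natCast_zmod_val, ZMod.natCast_zmod_val,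
        ZMod.natCast_zmod_val]
      constructor
      · intro h3
        rw [h3]
        ring
      · intro h3
        rw [h3]
        ring
    have h4 : ∀ k : ZMod p, ∑ k' : ZMod p, φ eps * (dY p (Al S) k).eval₂ φ om *
        (φ eps * (dY p (Al S) k').eval₂ φ om) *
        (if x ^ k.val * g = x ^ k'.val * (g * h') then 1 else 0) =
        φ eps * (dY p (Al S) k * dY p (Al S) (k - j)).eval₂ φ om := by
      intro k
      rw [Finset.sum_eq_single (k - j)]
      · rw [if_pos ((hiff k _).2 rfl), mul_one, eval₂_mul]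
        calc φ eps * (dY p (Al S) k).eval₂ φ om * (φ eps * (dY p (Al S) (k - j)).eval₂ φ om)
            = (φ eps * φ eps) * ((dY p (Al S) k).eval₂ φ om *
              (dY p (Al S) (k - j)).eval₂ φ om) := by ring
          _ = _ := by rw [hee]
      · intro k' _ hk
        rw [if_neg (fun h5 => hk ((hiff k k').1 h5)), mul_zero]
      · intro h5
        exact absurd (Finset.mem_univ _) h5
    rw [Finset.sum_congr rfl fun k _ => h4 k, ← Finset.mul_sum, ← eval₂_finsetSum,
      sum_dY_mul p h.charA j]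
    by_cases hj0 : j = 0
    · have h5 : h' = 1 := by
        rw [hj0, ZMod.val_zero, pow_zero, mul_inv_eq_one] at hj
        exact mul_left_cancel (hj.trans (mul_one g).symm)
      rw [if_pos hj0, if_pos h5, eval₂_one, mul_one]
    · have h5 : h' ≠ 1 := by
        intro h6
        apply hj0
        have : NeZero p := ⟨hp.ne_zero⟩
        rw [h6, mul_one, mul_inv_cancel] at hj
        have h7 := orderOf_dvd_of_pow_eq_one hj.symm
        rw [h.ord] at h7
        have h8 : j.val = 0 := Nat.eq_zero_of_dvd_of_lt h7 (ZMod.val_lt j)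
        exact (ZMod.val_eq_zero j).1 h8
      rw [if_neg hj0, if_neg h5, eval₂_zero, mul_zero]
  · have h5 : h' ≠ 1 := by
      intro h6
      apply hj
      refine ⟨0, ?_⟩
      rw [h6, ZMod.val_zero, pow_zero, mul_one, mul_inv_cancel]
    rw [if_neg h5]
    refine Finset.sum_eq_zero fun k _ => Finset.sum_eq_zero fun k' _ => ?_
    rw [if_neg, mul_zero]
    intro h6
    apply hj
    refine ⟨k - k', ?_⟩
    have : NeZero p := ⟨hp.ne_zero⟩
    have h7 : x ^ k.val = x ^ k'.val * x ^ (k - k').val := by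
      rw [← pow_add, pow_eq_pow_iff_modEq, h.ord, ← ZMod.natCast_eq_natCast_iff, Nat.cast_add,
        ZMod.natCast_zmod_val, ZMod.natCast_zmod_val, ZMod.natCast_zmod_val]
      ring
    rw [h7, mul_assoc, mul_right_inj] at h6
    rw [← h6, mul_inv_cancel_right]

end

end Pool.Agent.MP_1c8e06_ag.CY
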