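import Pool.Agent.Lib.MP_1c8e06_ag.CY.Defs

set_option autoImplicit false

open Polynomial
open scoped Classical

namespace Pool.Agent.MP_1c8e06_ag.CY

open Pool.Agent.MP_1c8e06_ag.AJ

noncomputable section

set_option linter.unusedSectionVars false

/-!
# CY TDefs: definitions for the twist of a Galois algebra (block T)

The indices `k ∈ F_p` are elements of `ZMod p`; the corresponding element of a ring `A` of
characteristic `p` is written `(k.val : A)`.
-/

section
variable (p : ℕ) [Fact p.Prime]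

/-- `d_k(Y) = 1 - (Y - k) ^ (p - 1)`: the Lagrange basis of `F_p`. -/
def dY (A : Type) [CommRing A] (k : ZMod p) : A[X] := 1 - (X - C (k.val : A)) ^ (p - 1)

variable {A : Type} [CommRing A]

/-- The polynomial of degree `< p` with `P(j) = σ ^ j a` for `j ∈ F_p`. -/
def PP (σ : A →+* A) (a : A) : A[X] := ∑ k : ZMod p, dY p A k * C ((σ ^ k.val) a)

/-- The coefficient of `Y` in `PP σ a`. -/
def dd (σ : A →+* A) (a : A) : A := (PP p σ a).coeff 1

/-- The defect of the Leibniz rule for `dd`. -/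
def cc (σ : A →+* A) (a b : A) : A := dd p σ (a * b) - a * dd p σ b - b * dd p σ a

end

section
variable {B : Type} [CommRing B] {G : Type} [Group G] [Fintype G]

/-- The data of a twist: `x` has order `p` and lies in `N`, `n x n⁻¹ = x ^ (chi n)` for `n ∈ N`,
`eps` is an `N`-idempotent, `eps * lam = lam` and `n lam = chi(n)⁻¹ lam` for `n ∈ N`. -/
structure TwD (p : ℕ) (S : SC B G) (x : G) (N : Subgroup G) (chi : G → ℕ) (eps lam : Al S) :
    Prop where
  char : (p : B) = 0
  ord : orderOf x = p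
  mem : x ∈ N
  conj : ∀ n ∈ N, n * x * n⁻¹ = x ^ chi n
  ni : NI S N eps
  el : eps * lam = lam
  al : ∀ n ∈ N, (chi n : Al S) * Al.act S n lam = lam

/-- The correction term of the twisted product at the coset `g N`. -/
def tF (p : ℕ) [Fact p.Prime] (S : SC B G) (x : G) (lam a b : Al S) (g : G) : Al S :=
  Al.act S g (lam * cc p (Al.act S x) (Al.act S g⁻¹ a) (Al.act S g⁻¹ b))

/-- The twisted product. -/
def tmul (p : ℕ) [Fact p.Prime] (S : SC B G) (x : G) (N : Subgroup G) (lam a b : Al S) : Al S :=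
  a * b + ∑ q : G ⧸ N, tF p S x lam a b q.out

/-- The value of `a` at the point `g` of the twisted algebra: `φ eps * P_{g a}(om)`, where
`φ : Al S → A1` and `om ^ p - om = φ lam`. -/
def tV (p : ℕ) [Fact p.Prime] {S : SC B G} (x : G) (eps : Al S) {A1 : Type} [CommRing A1]
    (φ : Al S →+* A1) (om : A1) (g : G) (a : Al S) : A1 :=
  φ eps * (PP p (Al.act S x) (Al.act S g a)).eval₂ φ om

end

section
variable (p : ℕ) [Fact p.Prime] {K : Type} [CommRing K]

/-- The map `w ^ i ↦ w' ^ i`, `i < p`, from `EE p F0 = K((s))[w]/(w ^ p - w - F0(s⁻¹))` to a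
`K((s))`-algebra. -/
def thE (F0 : K[X]) {E' : Type} [CommRing E'] (zeta : LaurentSeries K →+* E') (w' : E')
    (a : AI.EE p F0) : E' :=
  ∑ j ∈ Finset.range p, zeta (AI.coordE p F0 a j) * w' ^ j

end

section
variable {E : Type} [NormedField E] {G : Type} [Group G] [Fintype G]

/-- `M` bounds the structure constants of `S`. -/
def BdS (S : SC E G) (M : ℝ) : Prop :=
  1 ≤ M ∧ (∀ i j l, ‖S.μ i j l‖ ≤ M) ∧ (∀ h l m, ‖S.α h l m‖ ≤ M) ∧ ∀ l, ‖S.ν l‖ ≤ M

end

end

end Pool.Agent.MP_1c8e06_ag.CY
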