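import Pool.Agent.Lib.MP_1c8e06_ag.Mg.G005

set_option autoImplicit false

open Polynomial
open scoped Classical

namespace Pool.Agent.MP_1c8e06_ag.CY

open Pool.Agent.MP_1c8e06_ag.AJ

noncomputable section

/-!
# TASK W13: THEOREM A (wild at every radius)

Black boxes: `W12.theoremA0`; `O3` (`lz_iso`, `lzi_iso`), `WDefs.extR_*`.
`lin : Lam K →+* Lam K`, `T ↦ T⁻¹`, an involution; `lzi K f = lz K (lin K f)`, `lz K f = lzi K (lin K f)`.
* `lin_lin`, `lz_lin`, `lzi_lin`: ring homomorphisms out of Laurent polynomials, check on `C a` and `T 1`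
  (`LaurentPolynomial.induction_on'` etc.; `LaurentPolynomial.invert_C`, `invert_T`, `eval₂_C`, `eval₂_T`).
* `TPw.inv`: `S := D.S.map (lin K)`, `r0 := extR D.S D.r1 (lin K) ((ofL ..).comp (lz K)) _` (`D.r1 (cst b) = ofL (lzi b)
  = ofL (lz (lin b))`), `r1 := extR D.S D.r0 (lin K) ((ofL ..).comp (lzi K)) _`.  `r0_cst`: `extR_cst`.  `r0_x`: both sides are ring
  homomorphisms in `a` (`Al.hom_ext`): on `cst`: `Al.act_cst`, `tau_ofL`; on `e l = mapA (e l)`: `Al.mapA_act`, `extR_mapA`, `D.r1_x`.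
* `gp_lin`: `(gp 0 r).v (jF Om (lin Om f)) = (gp 0 r⁻¹).v (jF Om f)` for `r > 0`: by `lz_iso`, `lzi_iso`:
  for `C ≥ 0`: `(gp 0 r⁻¹).v (jF f) ≤ C ↔ LB r⁻¹ (lz f) C ↔ LB r⁻¹ (lzi (lin f)) C ↔ (gp 0 r).v (jF (lin f)) ≤ C`; take
  `C` = one of the two values (both nonnegative), `le_antisymm`.
* `theoremA`: if `r < ‖t‖`: `theoremA0`.  Otherwise `r⁻¹ ≤ ‖t‖⁻¹ < 1 < ‖t‖`.  `back : Al (D.S.map (lin Om)) →+* Al D.S :=
  extR D.S (RingHom.id _) (lin Om) ((Al.cst D.S).comp (lin Om)) _` (`cst b = cst (lin (lin b))`).  `W' : MS (D.S.map lin)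
  (gp 0 r⁻¹)` with `W'.w a := W.w (back a)`: `W'.w (cst f) = W.w (cst (lin f)) = (gp 0 r).v (jF (lin f)) = (gp 0 r⁻¹).v (jF f)`.
  `b' := mapA (lin) b`; `back (act g (mapA a)) = back (mapA (act g a)) = act g a` (`Al.mapA_act`, `extR_mapA`).  So `Sepb W' b'`, which
  contradicts `theoremA0 hx D.inv`.
-/

section
variable {K : Type} [Field K]

theorem lin_lin (f : Lam K) : lin K (lin K f) = f :=
  LaurentPolynomial.involutive_invert f

private theorem W13_lin_mul (n : ℤ) (a : K) : lin K (LaurentPolynomial.C a * LaurentPolynomial.T n) =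
    LaurentPolynomial.C a * LaurentPolynomial.T (-n) := by
  change LaurentPolynomial.invert (LaurentPolynomial.C a * LaurentPolynomial.T n) = _
  rw [map_mul, LaurentPolynomial.invert_C, LaurentPolynomial.invert_T]

theorem lz_lin (f : Lam K) : lz K (lin K f) = lzi K f := by
  induction f using LaurentPolynomial.induction_on' with
  | add p q hp hq => rw [map_add, map_add, map_add, hp, hq]
  | C_mul_T n a =>
    rw [W13_lin_mul]
    unfold lz lzi
    rw [LaurentPolynomial.eval₂_C_mul_T, LaurentPolynomial.eval₂_C_mul_T, inv_zpow']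

theorem lzi_lin (f : Lam K) : lzi K (lin K f) = lz K f := by
  rw [← lz_lin, lin_lin]

/-- The two point cover with `0` and infinity exchanged. -/
theorem exists_inv {p : ℕ} [Fact p.Prime] [CharP K p] {G : Type} [Group G] [Fintype G] {x : G}
    {t : K} (D : TPw p x t) : ∃ D' : TPw p x t, D'.S = D.S.map (lin K) := by
  have h1 : ∀ b, D.r1 (Al.cst D.S b) =
      ((AI.ofL p (C t * X : K[X])).comp (lz K)) (lin K b) := by
    intro b
    rw [D.r1_cst, RingHom.comp_apply, lz_lin]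
  have h0 : ∀ b, D.r0 (Al.cst D.S b) =
      ((AI.ofL p (C t * X : K[X])).comp (lzi K)) (lin K b) := by
    intro b
    rw [D.r0_cst, RingHom.comp_apply, lzi_lin]
  refine ⟨⟨D.S.map (lin K), extR D.S D.r1 (lin K) _ h1, extR D.S D.r0 (lin K) _ h0,
    fun f => extR_cst D.S D.r1 (lin K) _ h1 f, fun f => extR_cst D.S D.r0 (lin K) _ h0 f,
    fun a => ?_, fun a => ?_⟩, rfl⟩
  · have key : (extR D.S D.r1 (lin K) _ h1).comp (Al.act (D.S.map (lin K)) x) =
        (AI.tau p (C t * X : K[X])).comp (extR D.S D.r1 (lin K) _ h1) := by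
      refine Al.hom_ext _ (fun b => ?_) fun l => ?_
      · rw [RingHom.comp_apply, RingHom.comp_apply, Al.act_cst, extR_cst, RingHom.comp_apply,
          AI.tau_ofL]
      · rw [RingHom.comp_apply, RingHom.comp_apply, ← Al.mapA_e, ← Al.mapA_act, extR_mapA,
          extR_mapA, D.r1_x]
    exact congrArg (fun F => F a) key
  · have key : (extR D.S D.r0 (lin K) _ h0).comp (Al.act (D.S.map (lin K)) x) =
        (AI.tau p (C t * X : K[X])).comp (extR D.S D.r0 (lin K) _ h0) := by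
      refine Al.hom_ext _ (fun b => ?_) fun l => ?_
      · rw [RingHom.comp_apply, RingHom.comp_apply, Al.act_cst, extR_cst, RingHom.comp_apply,
          AI.tau_ofL]
      · rw [RingHom.comp_apply, RingHom.comp_apply, ← Al.mapA_e, ← Al.mapA_act, extR_mapA,
          extR_mapA, D.r0_x]
    exact congrArg (fun F => F a) key

end

variable {Om : Type} [NormedField Om] [CompleteSpace Om] [IsUltrametricDist Om] [IsAlgClosed Om]
  {G : Type} [Group G] [Fintype G] {p : ℕ} [Fact p.Prime] [CharP Om p] {x : G} {t : Om}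

theorem gp_lin {r : ℝ} (hr : 0 < r) (f : Lam Om) :
    (gp 0 r).v (jF Om (lin Om f)) = (gp 0 r⁻¹).v (jF Om f) := by
  have key : ∀ c : ℝ, 0 ≤ c → ((gp 0 r⁻¹).v (jF Om f) ≤ c ↔
      (gp 0 r).v (jF Om (lin Om f)) ≤ c) := by
    intro c hc
    rw [← lz_iso (inv_pos.2 hr) f hc, ← lzi_iso hr (lin Om f) hc, lzi_lin]
  exact le_antisymm ((key _ (AbsoluteValue.nonneg _ _)).1 le_rfl)
    ((key _ (AbsoluteValue.nonneg _ _)).2 le_rfl)

theorem theoremA (hx : orderOf x = p) (D : TPw p x t) (ht : 1 < ‖t‖) {r : ℝ} (hr : 0 < r)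
    (W : MS D.S fun f => (gp 0 r).v (jF Om f)) (b : Al D.S) : ¬ Sepb W b := by
  by_cases hrt : r < ‖t‖
  · exact theoremA0 hx D hr hrt W b
  have hrt' : ‖t‖ ≤ r := not_lt.1 hrt
  have hr1 : 0 < r⁻¹ := inv_pos.2 hr
  have hrt1 : r⁻¹ < ‖t‖ := by
    have h1 : r⁻¹ < 1 := inv_lt_one_of_one_lt₀ (lt_of_lt_of_le ht hrt')
    exact h1.trans ht
  have hA : ∀ (D' : TPw p x t) (S' : SC (Lam Om) G), D'.S = S' →
      ∀ (W' : MS S' (fun f => (gp 0 r⁻¹).v (jF Om f))) (b' : Al S'), ¬ Sepb W' b' := by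
    rintro D' _ rfl W' b'
    exact theoremA0 hx D' hr1 hrt1 W' b'
  obtain ⟨D', hD'⟩ := exists_inv D
  have hb : ∀ c : Lam Om, (RingHom.id (Al D.S)) (Al.cst D.S c) =
      ((Al.cst D.S).comp (lin Om)) (lin Om c) := by
    intro c
    rw [RingHom.comp_apply, lin_lin, RingHom.id_apply]
  let back : Al (D.S.map (lin Om)) →+* Al D.S :=
    extR D.S (RingHom.id (Al D.S)) (lin Om) ((Al.cst D.S).comp (lin Om)) hb
  have hback : ∀ a : Al D.S, back (Al.mapA D.S (lin Om) a) = a := fun a =>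
    extR_mapA D.S (RingHom.id (Al D.S)) (lin Om) _ hb a
  let W' : MS (D.S.map (lin Om)) (fun f => (gp 0 r⁻¹).v (jF Om f)) :=
    { w := fun a => W.w (back a)
      nonneg := fun a => W.nonneg _
      one := by
        rw [map_one, W.one]
      mul := fun a c => by
        rw [map_mul, W.mul]
      add := fun a c => by
        rw [map_add]
        exact W.add _ _
      cst := fun c => by
        have h1 : back (Al.cst (D.S.map (lin Om)) c) = Al.cst D.S (lin Om c) :=
          extR_cst D.S (RingHom.id (Al D.S)) (lin Om) _ hb c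
        rw [h1, W.cst]
        exact gp_lin hr c }
  intro hS
  refine hA D' _ hD' W' (Al.mapA D.S (lin Om) b) ⟨fun g => ?_, fun g g' hg => ?_⟩
  · change W.w (back (Al.act (D.S.map (lin Om)) g (Al.mapA D.S (lin Om) b))) ≤ 1
    rw [← Al.mapA_act, hback]
    exact hS.1 g
  · change W.w (back (Al.act (D.S.map (lin Om)) g (Al.mapA D.S (lin Om) b) -
      Al.act (D.S.map (lin Om)) g' (Al.mapA D.S (lin Om) b))) = 1
    rw [map_sub, ← Al.mapA_act, ← Al.mapA_act, hback, hback]
    exact hS.2 g g' hg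

end

end Pool.Agent.MP_1c8e06_ag.CY
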