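import Pool.Agent.Lib.MP_1c8e06_ag.CY.Defs

set_option autoImplicit false

open Polynomial
open scoped Classical

namespace Pool.Agent.MP_1c8e06_ag.CY

open Pool.Agent.MP_1c8e06_ag.AJ

noncomputable section

/-! ### Trace and dual basis of `Al S` -/

section
variable {B : Type} [CommRing B] {G : Type} [Group G] [Fintype G] (S : SC B G)

/-- The trace form `Al S → B`: `cst (tA a) = ∑ x, act x a` (`W0.cst_tA`). -/
def tA : Al S →+ B where
  toFun a := ∑ l, a l * ∑ i, S.ν i * S.T i l
  map_zero' := by simp [Al.zero_apply]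
  map_add' a b := by simp [Al.add_apply, add_mul, Finset.sum_add_distrib]

/-- The dual basis. -/
def bs (l : G) : Al S := ∑ m, Al.cst S (S.T' l m) * Al.e S m

/-- The operator on `Al S` induced by `ψ : B → B` (with `ψ (c ^ q * b) = c ^ q * ψ b`). -/
def PsiA (ψ : B →+ B) (q : ℕ) : Al S →+ Al S where
  toFun a := ∑ l, Al.e S l ^ q * Al.cst S (ψ (tA S (a * bs S l ^ q)))
  map_zero' := by simp
  map_add' a b := by simp [add_mul, mul_add, Finset.sum_add_distrib]

end

/-! ### Extension of ring homomorphisms to a base change -/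

section
variable {B B' R : Type} [CommRing B] [CommRing B'] [CommRing R] {G : Type} [Group G] [Fintype G]

/-- Extension of `ρ : Al S → R` to `Al (S.map φ) → R` along `ψ : B' → R`. -/
def extR (S : SC B G) (ρ : Al S →+* R) (φ : B →+* B') (ψ : B' →+* R)
    (h : ∀ b, ρ (Al.cst S b) = ψ (φ b)) : Al (S.map φ) →+* R :=
  Al.lift (S.map φ) ψ (fun l => ρ (Al.e S l))
    (by
      intro i j
      rw [← map_mul, Al.e_mul_e, map_sum]
      refine Finset.sum_congr rfl fun l _ => ?_
      rw [map_mul, h]
      rfl)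
    (by
      rw [← map_one ρ, Al.one_eq_sum, map_sum]
      refine Finset.sum_congr rfl fun l _ => ?_
      rw [map_mul, h]
      rfl)

theorem extR_apply (S : SC B G) (ρ : Al S →+* R) (φ : B →+* B') (ψ : B' →+* R)
    (h : ∀ b, ρ (Al.cst S b) = ψ (φ b)) (a : Al (S.map φ)) :
    extR S ρ φ ψ h a = ∑ l, ψ (a l) * ρ (Al.e S l) := Al.lift_apply _ _ _ _ _ a

theorem extR_cst (S : SC B G) (ρ : Al S →+* R) (φ : B →+* B') (ψ : B' →+* R)
    (h : ∀ b, ρ (Al.cst S b) = ψ (φ b)) (b : B') :
    extR S ρ φ ψ h (Al.cst (S.map φ) b) = ψ b := Al.lift_cst _ _ _ _ _ b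

theorem extR_mapA (S : SC B G) (ρ : Al S →+* R) (φ : B →+* B') (ψ : B' →+* R)
    (h : ∀ b, ρ (Al.cst S b) = ψ (φ b)) (a : Al S) :
    extR S ρ φ ψ h (Al.mapA S φ a) = ρ a := by
  rw [extR_apply]
  conv_rhs => rw [Al.eq_sum S a, map_sum]
  refine Finset.sum_congr rfl fun l _ => ?_
  rw [map_mul, h, Al.mapA_apply]

end

/-! ### The projections on the exponents which are multiples of `q` -/

/-- Projection of a Laurent series on the exponents divisible by `q`. -/
def psS (K : Type) [Field K] (q : ℕ) : LaurentSeries K →+ LaurentSeries K where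
  toFun a := ⟨fun n => if (q : ℤ) ∣ n then a.coeff n else 0,
    a.isPWO_support.mono fun n hn => by
      simp only [Function.mem_support, ne_eq, ite_eq_right_iff, Classical.not_imp] at hn
      exact hn.2⟩
  map_zero' := by
    ext n
    simp
  map_add' a b := by
    ext n
    simp only [HahnSeries.coeff_add]
    split_ifs <;> simp

theorem psS_coeff (K : Type) [Field K] (q : ℕ) (a : LaurentSeries K) (n : ℤ) :
    (psS K q a).coeff n = if (q : ℤ) ∣ n then a.coeff n else 0 := rfl

/-- Projection of a Laurent polynomial on the exponents divisible by `q`. -/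
def psL (K : Type) [Field K] (q : ℕ) : Lam K →+ Lam K where
  toFun f := .ofCoeff (Finsupp.filter (fun n : ℤ => (q : ℤ) ∣ n) f.coeff)
  map_zero' := by
    ext n
    simp [Finsupp.filter_apply]
  map_add' f g := by
    ext n
    simp [Finsupp.filter_add]

theorem psL_coeff (K : Type) [Field K] (q : ℕ) (f : Lam K) (n : ℤ) :
    (psL K q f).coeff n = if (q : ℤ) ∣ n then f.coeff n else 0 := by
  change Finsupp.filter _ _ _ = _
  rw [Finsupp.filter_apply]

/-! ### Bounds -/

section
variable {Om : Type} [NormedField Om] {G : Type} [Group G] [Fintype G]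

/-- The growth of the operator `PsiA` at radius `r` is at most `H`. -/
def Bnd (S : SC (Lam Om) G) (r H : ℝ) (q : ℕ) : Prop :=
  ∀ (m : ℤ) (i l : G),
    LB r (lz Om (PsiA S (psL Om q) q (Al.cst S (LaurentPolynomial.T m) * Al.e S i) l)) (H * r ^ m)

/-- Extension of `r0` to the formal neighbourhood of `0`. -/
def TPw.R0 {p : ℕ} [Fact p.Prime] {K : Type} [Field K] [CharP K p] {G : Type} [Group G]
    [Fintype G] {x : G} {t : K} (D : TPw p x t) : Al (D.S.map (lz K)) →+* AI.EE p (C t * X : K[X]) :=
  extR D.S D.r0 (lz K) (AI.ofL p (C t * X : K[X])) D.r0_cst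

/-- The Laurent series `a` converges in a punctured neighbourhood of `0`. -/
def Cv (a : LaurentSeries Om) : Prop := ∃ r : ℝ, 0 < r ∧ ∃ C, LB r a C

/-- All coordinates of the element `z` of `EE p F` have Gauss norm at most `C`. -/
def BdE (p : ℕ) [Fact p.Prime] {F : Om[X]} (r C : ℝ) (z : AI.EE p F) : Prop :=
  ∀ j, LB r (AI.coordE p F z j) C

end

end

end Pool.Agent.MP_1c8e06_ag.CY
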