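import Pool.Agent.Lib.MP_1c8e06_ag.Mg.G002
import Pool.Agent.Lib.MP_1c8e06_ag.Mg.G004

set_option autoImplicit false

open Polynomial
open scoped Classical

namespace Pool.Agent.MP_1c8e06_ag.CY

open Pool.Agent.MP_1c8e06_ag.AJ

noncomputable section

/-!
# TASK W7: convergent elements near `0`

Black boxes: `W5` (`R0_act`, `R0_act_pow`, `VAL_inj`, `VAL_surj`), `W6.frob_conv`, `W4` (`Cv_*`), `W0`.
`E := EE p (C t * X)`, `y := yy p (C t * X)`, `y ^ p = y + ofL (zinv (C t * X))`, `zinv (C t * X) = C t * single (-1) 1 =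
lz (C t * T (-1))`; `tau y = y + 1`; `orderOf x = p`.  `A0 := Al (D.S.map (lz Om))`, `act g` its action.
* `exists_epsH`: for a subgroup `H` containing `x` the function `Φ g = if g ∈ H then 1 else 0` satisfies
  `Φ (x g) = Φ g = tau (Φ g)`.  `VAL_surj` gives `e`; `e ^ p - e` has all values `0`, so it is `0` (`VAL_inj`, applied
  to `e ^ p - e`), coordinates of `0` are convergent, `frob_conv`.
* `exists_W`: `Φ g = y + j` if `g = x ^ j` with `j : ℕ` (`j` modulo `p`: use `j` with `x ^ j = g`; `((j : ℕ) : E)` depends only on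
  `j` mod `p = orderOf x` since `CharP`), `Φ g = 0` if `g ∉ zpowers x`.  `Φ (x g) = tau (Φ g)`.  `w` from `VAL_surj`:
  `w ^ p - w - cst (zinv (C t * X)) * ex = 0` by `VAL_inj` (values: `(y+j)^p - (y+j) = y^p - y = ofL (zinv ..)`), its
  coordinates are `zinv(..) * (ex l)`: convergent.  `frob_conv`.
* `coord_conv`: let `c g l j := coordE (r0 (act g (e l))) j` (coordinates in `E` of the value at `g` of the basis element
  `e l`), i.e. `r0 (act g (e l)) = ∑_{j<p} ofL (c g l j) y^j`.  The trace of `E/K((s))`, `Tr z := ∑_{i<p} tau^i z`, satisfies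
  `Tr y^i = 0` for `i < p - 1`, `Tr (y^(p-1)) = -1` (`∑_{i ∈ ZMod p} (Y + i)^m` is `0` for `m < p-1`, `-1` for `m = p-1`).
  So `Tr(z y^(p-1-j)) = - c_j - (terms)`: precisely with the dual basis: `Tr (y^a)` for `0 ≤ a ≤ 2p-2`: `0` except
  `a = p-1` (`-1`) and `a = 2p-2` (`-1`; here `y^(2p-2) = y^(p-2) (y + f) = y^(p-1) + f y^(p-2)`, for `p = 2`: `y^2 = y + f`,
  `Tr = -1`).  Hence for `1 ≤ j ≤ p-1`: `Tr (z y^(p-1-j)) = - c_j`, and `Tr (z (y^(p-1) - 1)) = - c_0`
  (`Tr(z y^(p-1)) = - c_0 - c_{p-1}`, `Tr z = - c_{p-1}`; for `j = p - 1`: `Tr (z) = - c_{p-1}`).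
  Therefore `ofL (c g l j) = - ∑_{i<p} tau^i (r0 (act g (e l)) y^(p-1-j)) = - ∑_{h} R0 (act h (act g (e l) * w^(p-1-j) * ex))`
  (sum over all `h : G`; only `h = x^i` contribute, there the value is
  `R0 (act (x^i) (act g (e l))) (y+i)^(p-1-j)`), so `c g l j = - tA (act g (e l) * w^(p-1-j) * ex)` for `j ≥ 1` and
  `c g l 0 = - tA (act g (e l) * (w^(p-1) - 1) * ex)` (`AI.ofL_injective`, `cst_tA`).  The coordinates of `ex`, `w`,
  `act g (e l)` are convergent, products and `tA` of elements with convergent coordinates are convergent (`Al.mul_apply`, the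
  structure constants are `lz` of Laurent polynomials, `Cv_lz`, `Cv_mul`, `Cv_sum`).
-/

/-! ### Sums of powers in characteristic `p` -/

section
variable {p : ℕ} [hp : Fact p.Prime] {E : Type} [CommRing E] [CharP E p]

private theorem W7_sum_nat (k : ℕ) (hk : k < p) :
    ∑ i ∈ Finset.range p, ((i : ℕ) : E) ^ k = if k = p - 1 then -1 else 0 := by
  have h1 : ∑ i ∈ Finset.range p, ((i : ℕ) : E) ^ k =
      ZMod.castHom (dvd_refl p) E (∑ z : ZMod p, z ^ k) := by
    rw [map_sum]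
    refine Finset.sum_bij (fun i _ => ((i : ℕ) : ZMod p)) (fun _ _ => Finset.mem_univ _) ?_ ?_ ?_
    · intro a ha b hb h
      have h2 := (ZMod.natCast_eq_natCast_iff' a b p).1 h
      rwa [Nat.mod_eq_of_lt (Finset.mem_range.1 ha), Nat.mod_eq_of_lt (Finset.mem_range.1 hb)] at h2
    · intro z _
      exact ⟨z.val, Finset.mem_range.2 (ZMod.val_lt z), ZMod.natCast_zmod_val z⟩
    · intro i _
      rw [map_pow, map_natCast]
  rw [h1]
  split_ifs with h
  · have h2 : ∑ z : ZMod p, z ^ k = -1 := by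
      have h3 : ∀ z : ZMod p, z ^ k = 1 - if z = 0 then 1 else 0 := by
        intro z
        by_cases hz : z = 0
        · rw [hz, if_pos rfl, zero_pow, sub_self]
          have := hp.out.two_le
          omega
        · rw [if_neg hz, sub_zero, h]
          exact ZMod.pow_card_sub_one_eq_one hz
      rw [Finset.sum_congr rfl fun z _ => h3 z, Finset.sum_sub_distrib]
      simp
    rw [h2, map_neg, map_one]
  · have h2 : ∑ z : ZMod p, z ^ k = 0 := by
      apply FiniteField.sum_pow_lt_card_sub_one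
      rw [ZMod.card]
      omega
    rw [h2, map_zero]

private theorem W7_sum_pow (y : E) (m : ℕ) (hm : m < p) :
    ∑ i ∈ Finset.range p, (y + ((i : ℕ) : E)) ^ m = if m = p - 1 then -1 else 0 := by
  have h1 : ∀ i ∈ Finset.range p, (y + ((i : ℕ) : E)) ^ m =
      ∑ k ∈ Finset.range (m + 1), y ^ k * ((i : ℕ) : E) ^ (m - k) * (m.choose k : E) := by
    intro i _
    rw [add_pow]
  rw [Finset.sum_congr rfl h1, Finset.sum_comm]
  have h2 : ∀ k ∈ Finset.range (m + 1), ∑ i ∈ Finset.range p,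
      y ^ k * ((i : ℕ) : E) ^ (m - k) * (m.choose k : E) =
      if k = 0 then (if m = p - 1 then -1 else 0) else 0 := by
    intro k hk
    have hk' := Finset.mem_range.1 hk
    have h3 : ∑ i ∈ Finset.range p, y ^ k * ((i : ℕ) : E) ^ (m - k) * (m.choose k : E) =
        y ^ k * (m.choose k : E) * ∑ i ∈ Finset.range p, ((i : ℕ) : E) ^ (m - k) := by
      rw [Finset.mul_sum]
      refine Finset.sum_congr rfl fun i _ => ?_
      ring
    rw [h3, W7_sum_nat (m - k) (by omega)]
    by_cases hk0 : k = 0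
    · subst hk0
      simp
    · rw [if_neg hk0, if_neg (by omega), mul_zero]
  rw [Finset.sum_congr rfl h2, Finset.sum_ite_eq' (Finset.range (m + 1)) 0,
    if_pos (Finset.mem_range.2 (Nat.succ_pos m))]

end

variable {Om : Type} [NormedField Om] [CompleteSpace Om] [IsUltrametricDist Om] [IsAlgClosed Om]
  {G : Type} [Group G] [Fintype G] {p : ℕ} [Fact p.Prime] [CharP Om p] {x : G} {t : Om}
  (hx : orderOf x = p) (D : TPw p x t)

private theorem W7_charP : CharP (AI.EE p (C t * X : Om[X])) p :=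
  charP_of_injective_ringHom (f := AI.ofL p (C t * X : Om[X])) AI.ofL_injective p

/-- all coordinates are convergent -/
private def W7_A (S : SC (Lam Om) G) (a : Al (S.map (lz Om))) : Prop := ∀ l, Cv (a l)

private theorem W7_neg {a : LaurentSeries Om} (ha : Cv a) : Cv (-a) := by
  have h : -a = lz Om (-1) * a := by rw [map_neg, map_one]; ring
  rw [h]
  exact Cv_mul (Cv_lz _) ha

private theorem W7_mul (S : SC (Lam Om) G) {a b : Al (S.map (lz Om))} (ha : W7_A S a)
    (hb : W7_A S b) : W7_A S (a * b) := by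
  intro l
  rw [Al.mul_apply]
  refine Cv_sum _ _ fun i _ => Cv_sum _ _ fun j _ => ?_
  exact Cv_mul (Cv_mul (ha i) (hb j)) (Cv_lz (S.μ i j l))

private theorem W7_one (S : SC (Lam Om) G) : W7_A S (1 : Al (S.map (lz Om))) := fun l =>
  Cv_lz (S.ν l)

private theorem W7_pow (S : SC (Lam Om) G) {a : Al (S.map (lz Om))} (ha : W7_A S a) (k : ℕ) :
    W7_A S (a ^ k) := by
  induction k with
  | zero =>
    rw [pow_zero]
    exact W7_one S
  | succ k ih =>
    rw [pow_succ]
    exact W7_mul S ih ha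

private theorem W7_sub (S : SC (Lam Om) G) {a b : Al (S.map (lz Om))} (ha : W7_A S a)
    (hb : W7_A S b) : W7_A S (a - b) := by
  intro l
  rw [Al.sub_apply, sub_eq_add_neg]
  exact Cv_add (ha l) (W7_neg (hb l))

private theorem W7_mapA (S : SC (Lam Om) G) (a : Al S) : W7_A S (Al.mapA S (lz Om) a) := by
  intro l
  rw [Al.mapA_apply]
  exact Cv_lz _

private theorem W7_tA (S : SC (Lam Om) G) {a : Al (S.map (lz Om))} (ha : W7_A S a) :
    Cv (tA (S.map (lz Om)) a) := by
  change Cv (∑ l, a l * ∑ i, lz Om (S.ν i) * lz Om (S.T i l))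
  refine Cv_sum _ _ fun l _ => Cv_mul (ha l) (Cv_sum _ _ fun i _ => ?_)
  exact Cv_mul (Cv_lz _) (Cv_lz _)

private theorem W7_zinv : Cv (AI.zinv Om (C t * X : Om[X])) := by
  refine ⟨1, one_pos, ‖t‖, fun n => ?_⟩
  rw [one_zpow, mul_one, AI.zinv_coeff]
  split_ifs with h
  · rw [Polynomial.coeff_C_mul, Polynomial.coeff_X]
    split_ifs
    · rw [mul_one]
    · rw [mul_zero, norm_zero]
      exact norm_nonneg _
  · rw [norm_zero]
    exact norm_nonneg _

theorem exists_epsH (H : Subgroup G) (hH : x ∈ H) :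
    ∃ e : Al (D.S.map (lz Om)), (∀ l, Cv (e l)) ∧
      ∀ g, D.R0 (Al.act (D.S.map (lz Om)) g e) = if g ∈ H then 1 else 0 := by
  obtain ⟨e, he⟩ := VAL_surj D (fun g => if g ∈ H then 1 else 0) (by
    intro g
    have h1 : x * g ∈ H ↔ g ∈ H := Subgroup.mul_mem_cancel_left H hH
    by_cases hg : g ∈ H
    · rw [if_pos hg, if_pos (h1.2 hg), map_one]
    · rw [if_neg hg, if_neg (fun h => hg (h1.1 h)), map_zero])
  have h0 : e ^ p - e = 0 := by
    refine VAL_inj D _ fun g => ?_
    rw [map_sub, map_pow, map_sub, map_pow, he]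
    split_ifs
    · rw [one_pow, sub_self]
    · rw [zero_pow (Fact.out : p.Prime).ne_zero, sub_self]
  refine ⟨e, fun l => frob_conv p D.S e (fun l => ?_) l, he⟩
  rw [h0]
  exact Cv_zero

include hx in
theorem exists_W :
    ∃ w : Al (D.S.map (lz Om)), (∀ l, Cv (w l)) ∧
      (∀ j : ℕ, D.R0 (Al.act (D.S.map (lz Om)) (x ^ j) w) =
        AI.yy p (C t * X : Om[X]) + ((j : ℕ) : AI.EE p (C t * X : Om[X]))) ∧
      ∀ g, g ∉ Subgroup.zpowers x → D.R0 (Al.act (D.S.map (lz Om)) g w) = 0 := by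
  haveI : CharP (AI.EE p (C t * X : Om[X])) p := W7_charP
  set Φ : G → AI.EE p (C t * X : Om[X]) := fun g =>
    if h : ∃ j : ℕ, x ^ j = g then
      AI.yy p (C t * X : Om[X]) + ((h.choose : ℕ) : AI.EE p (C t * X : Om[X])) else 0 with hΦ
  have hΦ1 : ∀ j : ℕ, Φ (x ^ j) = AI.yy p (C t * X : Om[X]) + ((j : ℕ) : AI.EE p (C t * X : Om[X])) := by
    intro j
    have h : ∃ i : ℕ, x ^ i = x ^ j := ⟨j, rfl⟩
    have h1 : Φ (x ^ j) = AI.yy p (C t * X : Om[X]) +
        ((h.choose : ℕ) : AI.EE p (C t * X : Om[X])) := by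
      rw [hΦ]
      exact dif_pos h
    rw [h1]
    congr 1
    have h2 := pow_eq_pow_iff_modEq.1 h.choose_spec
    rw [hx] at h2
    exact (CharP.natCast_eq_natCast _ p).2 h2
  have hΦ0 : ∀ g, (¬ ∃ j : ℕ, x ^ j = g) → Φ g = 0 := by
    intro g hg
    rw [hΦ]
    exact dif_neg hg
  have hp1 : 1 ≤ p := (Fact.out : p.Prime).one_le
  obtain ⟨w, hw⟩ := VAL_surj D Φ (by
    intro g
    by_cases hg : ∃ j : ℕ, x ^ j = g
    · obtain ⟨j, rfl⟩ := hg
      rw [← pow_succ', hΦ1, hΦ1, map_add, map_natCast, AI.tau_yy]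
      push_cast
      ring
    · rw [hΦ0 g hg, map_zero]
      refine hΦ0 _ ?_
      rintro ⟨j, hj⟩
      apply hg
      refine ⟨p - 1 + j, ?_⟩
      have h1 : x ^ p = 1 := by rw [← hx]; exact pow_orderOf_eq_one x
      rw [pow_add, hj, ← mul_assoc, ← pow_succ, Nat.sub_add_cancel hp1, h1, one_mul])
  have hzp : ∀ g, g ∉ Subgroup.zpowers x → ¬ ∃ j : ℕ, x ^ j = g := by
    rintro g hg ⟨j, rfl⟩
    exact hg (Subgroup.npow_mem_zpowers x j)
  have hzp' : ∀ g, g ∈ Subgroup.zpowers x → ∃ j : ℕ, x ^ j = g := by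
    intro g hg
    rw [mem_zpowers_iff_mem_range_orderOf, Finset.mem_image] at hg
    obtain ⟨j, -, hj⟩ := hg
    exact ⟨j, hj⟩
  obtain ⟨ex, hex1, hex2⟩ := exists_epsH D (Subgroup.zpowers x) (Subgroup.mem_zpowers x)
  set c : LaurentSeries Om := AI.zinv Om (C t * X : Om[X]) with hc
  have h0 : w ^ p - w - Al.cst (D.S.map (lz Om)) c * ex = 0 := by
    refine VAL_inj D _ fun g => ?_
    simp only [map_sub, map_mul, map_pow, Al.act_cst, hw, hex2]
    have h1 : D.R0 (Al.cst (D.S.map (lz Om)) c) = AI.ofL p (C t * X : Om[X]) c :=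
      extR_cst _ _ _ _ _ _
    rw [h1]
    by_cases hg : g ∈ Subgroup.zpowers x
    · obtain ⟨j, rfl⟩ := hzp' g hg
      rw [hΦ1, if_pos hg, mul_one, add_pow_char, AI.yy_pow_eq]
      have h2 : ((j : ℕ) : AI.EE p (C t * X : Om[X])) ^ p =
          ((j : ℕ) : AI.EE p (C t * X : Om[X])) := by
        have h3 := map_natCast (frobenius (AI.EE p (C t * X : Om[X])) p) j
        rwa [frobenius_def] at h3
      rw [h2, AI.ze_apply, ← hc]
      ring
    · rw [hΦ0 g (hzp g hg), if_neg hg, zero_pow (Fact.out : p.Prime).ne_zero]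
      ring
  have h1 : w ^ p - w = Al.cst (D.S.map (lz Om)) c * ex := sub_eq_zero.1 h0
  refine ⟨w, fun l => frob_conv p D.S w (fun l => ?_) l, fun j => (hw _).trans (hΦ1 j),
    fun g hg => (hw g).trans (hΦ0 g (hzp g hg))⟩
  rw [h1, Al.cst_mul]
  exact Cv_mul W7_zinv (hex1 l)

/-- the powers of `tau` on `ofL` and `yy` -/
private theorem W7_tau_ofL (i : ℕ) (c : LaurentSeries Om) :
    (AI.tau p (C t * X : Om[X]) ^ i) (AI.ofL p (C t * X : Om[X]) c) =
      AI.ofL p (C t * X : Om[X]) c := by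
  rw [RingHom.coe_pow]
  induction i with
  | zero => rfl
  | succ i ih => rw [Function.iterate_succ_apply', ih, AI.tau_ofL]

private theorem W7_tau_yy (i : ℕ) :
    (AI.tau p (C t * X : Om[X]) ^ i) (AI.yy p (C t * X : Om[X])) =
      AI.yy p (C t * X : Om[X]) + ((i : ℕ) : AI.EE p (C t * X : Om[X])) := by
  rw [RingHom.coe_pow]
  induction i with
  | zero => simp
  | succ i ih =>
    rw [Function.iterate_succ_apply', ih, map_add, map_natCast, AI.tau_yy]
    push_cast
    ring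

/-- the traces of the powers of `y` -/
private def W7_s (p : ℕ) [Fact p.Prime] (t : Om) (m : ℕ) : AI.EE p (C t * X : Om[X]) :=
  ∑ i ∈ Finset.range p,
    (AI.yy p (C t * X : Om[X]) + ((i : ℕ) : AI.EE p (C t * X : Om[X]))) ^ m

private theorem W7_s_lt (m : ℕ) (hm : m < p) : W7_s p t m = if m = p - 1 then -1 else 0 := by
  haveI : CharP (AI.EE p (C t * X : Om[X])) p := W7_charP
  exact W7_sum_pow _ m hm

private theorem W7_s_ge (m : ℕ) : W7_s p t (m + p) = W7_s p t (m + 1) +
    AI.ofL p (C t * X : Om[X]) (AI.zinv Om (C t * X : Om[X])) * W7_s p t m := by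
  haveI : CharP (AI.EE p (C t * X : Om[X])) p := W7_charP
  unfold W7_s
  rw [Finset.mul_sum, ← Finset.sum_add_distrib]
  refine Finset.sum_congr rfl fun i _ => ?_
  have h2 : ((i : ℕ) : AI.EE p (C t * X : Om[X])) ^ p =
      ((i : ℕ) : AI.EE p (C t * X : Om[X])) := by
    have h3 := map_natCast (frobenius (AI.EE p (C t * X : Om[X])) p) i
    rwa [frobenius_def] at h3
  have h4 : (AI.yy p (C t * X : Om[X]) + ((i : ℕ) : AI.EE p (C t * X : Om[X]))) ^ p =
      AI.yy p (C t * X : Om[X]) ^ p + ((i : ℕ) : AI.EE p (C t * X : Om[X])) ^ p :=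
    add_pow_char _ _ _
  rw [pow_add, h4, AI.yy_pow_eq, h2, AI.ze_apply, pow_succ]
  ring

/-- the trace of `z y^k` -/
private theorem W7_trace (z : AI.EE p (C t * X : Om[X])) (k : ℕ) :
    ∑ i ∈ Finset.range p, (AI.tau p (C t * X : Om[X]) ^ i) (z * AI.yy p (C t * X : Om[X]) ^ k) =
      ∑ a ∈ Finset.range p, AI.ofL p (C t * X : Om[X]) (AI.coordE p (C t * X : Om[X]) z a) *
        W7_s p t (a + k) := by
  have h1 : ∀ i ∈ Finset.range p,
      (AI.tau p (C t * X : Om[X]) ^ i) (z * AI.yy p (C t * X : Om[X]) ^ k) =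
      ∑ a ∈ Finset.range p, AI.ofL p (C t * X : Om[X]) (AI.coordE p (C t * X : Om[X]) z a) *
        (AI.yy p (C t * X : Om[X]) + ((i : ℕ) : AI.EE p (C t * X : Om[X]))) ^ (a + k) := by
    intro i _
    conv_lhs => rw [AI.eq_sum_coordE z]
    rw [Finset.sum_mul, map_sum]
    refine Finset.sum_congr rfl fun a _ => ?_
    rw [map_mul, map_mul, map_pow, map_pow, W7_tau_ofL, W7_tau_yy, pow_add, mul_assoc]
  rw [Finset.sum_congr rfl h1, Finset.sum_comm]
  refine Finset.sum_congr rfl fun a _ => ?_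
  rw [W7_s, Finset.mul_sum]

/-- the coordinates as traces -/
private theorem W7_coord_pos (z : AI.EE p (C t * X : Om[X])) (j : ℕ) (h0 : 0 < j) (hj : j < p) :
    ∑ i ∈ Finset.range p, (AI.tau p (C t * X : Om[X]) ^ i)
      (z * AI.yy p (C t * X : Om[X]) ^ (p - 1 - j)) =
      AI.ofL p (C t * X : Om[X]) (-AI.coordE p (C t * X : Om[X]) z j) := by
  rw [W7_trace]
  have h1 : ∀ a ∈ Finset.range p, AI.ofL p (C t * X : Om[X]) (AI.coordE p (C t * X : Om[X]) z a) *
      W7_s p t (a + (p - 1 - j)) =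
      if a = j then AI.ofL p (C t * X : Om[X]) (-AI.coordE p (C t * X : Om[X]) z j) else 0 := by
    intro a ha
    have ha' := Finset.mem_range.1 ha
    by_cases hlt : a + (p - 1 - j) < p
    · rw [W7_s_lt _ hlt]
      by_cases haj : a = j
      · rw [if_pos (by omega), if_pos haj, haj, map_neg]
        ring
      · rw [if_neg (by omega), if_neg haj, mul_zero]
    · obtain ⟨m, hm⟩ : ∃ m, a + (p - 1 - j) = m + p := ⟨a + (p - 1 - j) - p, by omega⟩
      rw [hm, W7_s_ge, W7_s_lt (m + 1) (by omega), W7_s_lt m (by omega), if_neg (by omega),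
        if_neg (by omega), if_neg (by omega)]
      ring
  rw [Finset.sum_congr rfl h1, Finset.sum_ite_eq', if_pos (Finset.mem_range.2 hj)]

private theorem W7_coord_zero (z : AI.EE p (C t * X : Om[X])) :
    ∑ i ∈ Finset.range p, (AI.tau p (C t * X : Om[X]) ^ i)
      (z * (AI.yy p (C t * X : Om[X]) ^ (p - 1) - 1)) =
      AI.ofL p (C t * X : Om[X]) (-AI.coordE p (C t * X : Om[X]) z 0) := by
  have h2p := (Fact.out : p.Prime).two_le
  have h0 : ∀ i ∈ Finset.range p, (AI.tau p (C t * X : Om[X]) ^ i)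
      (z * (AI.yy p (C t * X : Om[X]) ^ (p - 1) - 1)) =
      (AI.tau p (C t * X : Om[X]) ^ i) (z * AI.yy p (C t * X : Om[X]) ^ (p - 1)) -
      (AI.tau p (C t * X : Om[X]) ^ i) (z * AI.yy p (C t * X : Om[X]) ^ 0) := by
    intro i _
    rw [← map_sub]
    congr 1
    ring
  rw [Finset.sum_congr rfl h0, Finset.sum_sub_distrib, W7_trace, W7_trace,
    ← Finset.sum_sub_distrib]
  have h1 : ∀ a ∈ Finset.range p, AI.ofL p (C t * X : Om[X]) (AI.coordE p (C t * X : Om[X]) z a) *
      W7_s p t (a + (p - 1)) - AI.ofL p (C t * X : Om[X]) (AI.coordE p (C t * X : Om[X]) z a) *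
      W7_s p t (a + 0) =
      if a = 0 then AI.ofL p (C t * X : Om[X]) (-AI.coordE p (C t * X : Om[X]) z 0) else 0 := by
    intro a ha
    have ha' := Finset.mem_range.1 ha
    by_cases ha0 : a = 0
    · subst ha0
      rw [if_pos rfl, Nat.zero_add, Nat.zero_add, W7_s_lt (p - 1) (by omega), if_pos rfl,
        W7_s_lt 0 (by omega), if_neg (by omega), map_neg]
      ring
    · obtain ⟨m, hm⟩ : ∃ m, a = m + 1 := ⟨a - 1, by omega⟩
      have e1 : a + (p - 1) = m + p := by omega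
      have e2 : a + 0 = m + 1 := by omega
      rw [if_neg ha0, e1, e2, W7_s_ge, W7_s_lt m (by omega), if_neg (by omega)]
      ring
  rw [Finset.sum_congr rfl h1, Finset.sum_ite_eq', if_pos (Finset.mem_range.2 (by omega))]

include hx in
/-- traces of convergent elements are convergent -/
private theorem W7_key (ex : Al (D.S.map (lz Om))) (hex1 : W7_A D.S ex)
    (hex2 : ∀ g, D.R0 (Al.act (D.S.map (lz Om)) g ex) = if g ∈ Subgroup.zpowers x then 1 else 0)
    (u : Al (D.S.map (lz Om))) (hu : W7_A D.S u) (z : AI.EE p (C t * X : Om[X]))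
    (hz : D.R0 u = z) (c : LaurentSeries Om)
    (h : ∑ i ∈ Finset.range p, (AI.tau p (C t * X : Om[X]) ^ i) z =
      AI.ofL p (C t * X : Om[X]) (-c)) : Cv c := by
  have h1 : AI.ofL p (C t * X : Om[X]) (tA (D.S.map (lz Om)) (u * ex)) =
      ∑ i ∈ Finset.range p, (AI.tau p (C t * X : Om[X]) ^ i) z := by
    have h2 : D.R0 (Al.cst (D.S.map (lz Om)) (tA (D.S.map (lz Om)) (u * ex))) =
        AI.ofL p (C t * X : Om[X]) (tA (D.S.map (lz Om)) (u * ex)) := extR_cst _ _ _ _ _ _
    rw [← h2, cst_tA, map_sum]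
    have h3 : ∀ g ∈ (Finset.univ : Finset G), g ∉ (Finset.range (orderOf x)).image (x ^ ·) →
        D.R0 (Al.act (D.S.map (lz Om)) g (u * ex)) = 0 := by
      intro g _ hg
      rw [← mem_zpowers_iff_mem_range_orderOf] at hg
      rw [map_mul, map_mul, hex2, if_neg hg, mul_zero]
    rw [← Finset.sum_subset (Finset.subset_univ _) h3, Finset.sum_image, hx]
    · refine Finset.sum_congr rfl fun i _ => ?_
      rw [map_mul, map_mul, hex2, if_pos (Subgroup.npow_mem_zpowers x i), mul_one, R0_act_pow, hz,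
        RingHom.coe_pow]
    · intro a ha b hb hab
      exact pow_injOn_Iio_orderOf (by simpa using ha) (by simpa using hb) hab
  rw [h] at h1
  have h4 := AI.ofL_injective h1
  have h5 : c = -tA (D.S.map (lz Om)) (u * ex) := by rw [h4, neg_neg]
  rw [h5]
  exact W7_neg (W7_tA D.S (W7_mul D.S hu hex1))

include hx in
theorem coord_conv (g l : G) (j : ℕ) :
    Cv (AI.coordE p (C t * X : Om[X]) (D.r0 (Al.act D.S g (Al.e D.S l))) j) := by
  obtain ⟨ex, hex1, hex2⟩ := exists_epsH D (Subgroup.zpowers x) (Subgroup.mem_zpowers x)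
  obtain ⟨w, hw1, hw2, -⟩ := exists_W hx D
  have hw0 : D.R0 w = AI.yy p (C t * X : Om[X]) := by
    have h1 := hw2 0
    rw [pow_zero, Al.act_one_apply, Nat.cast_zero, add_zero] at h1
    exact h1
  set u : Al (D.S.map (lz Om)) := Al.mapA D.S (lz Om) (Al.act D.S g (Al.e D.S l)) with hu
  have hu0 : D.R0 u = D.r0 (Al.act D.S g (Al.e D.S l)) := extR_mapA _ _ _ _ _ _
  have hu1 : W7_A D.S u := W7_mapA D.S _
  by_cases hj : j < p
  · rcases Nat.eq_zero_or_pos j with h0 | h0
    · subst h0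
      refine W7_key hx D ex hex1 hex2 (u * (w ^ (p - 1) - 1))
        (W7_mul D.S hu1 (W7_sub D.S (W7_pow D.S hw1 _) (W7_one D.S))) _ ?_ _
        (W7_coord_zero (D.r0 (Al.act D.S g (Al.e D.S l))))
      rw [map_mul, map_sub, map_pow, map_one, hw0, hu0]
    · refine W7_key hx D ex hex1 hex2 (u * w ^ (p - 1 - j))
        (W7_mul D.S hu1 (W7_pow D.S hw1 _)) _ ?_ _
        (W7_coord_pos (D.r0 (Al.act D.S g (Al.e D.S l))) j h0 hj)
      rw [map_mul, map_pow, hw0, hu0]
  · rw [AI.coordE_of_le _ (not_lt.1 hj)]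
    exact Cv_zero

end

end Pool.Agent.MP_1c8e06_ag.CY
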