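import Pool.Agent.Lib.MP_1c8e06_ag.CY.W7
import Pool.Agent.Lib.MP_1c8e06_ag.CY.W13
import Pool.Agent.Lib.MP_1c8e06_ag.CY.Defs3

set_option autoImplicit false

open Polynomial
open scoped Classical

namespace Pool.Agent.MP_1c8e06_ag.CY

open Pool.Agent.MP_1c8e06_ag.AJ

noncomputable section

set_option linter.unusedSectionVars false

/-!
# CY Z1: the idempotent of `N` in the formal neighbourhoods of `0` and of infinity
-/

/-- An element with the values `1` on `N` and `0` outside is an `N`-idempotent. -/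
theorem NI_of_val {B E : Type} [CommRing B] [CommRing E] {G : Type} [Group G] [Fintype G]
    (S : SC B G) (R : Al S →+* E) (hinj : ∀ a, (∀ g, R (Al.act S g a) = 0) → a = 0)
    (N : Subgroup G) (e : Al S) (he : ∀ g, R (Al.act S g e) = if g ∈ N then 1 else 0) :
    NI S N e := by
  have key : ∀ a b : Al S, (∀ g, R (Al.act S g a) = R (Al.act S g b)) → a = b := by
    intro a b h
    refine sub_eq_zero.1 (hinj _ fun g => ?_)
    rw [map_sub, map_sub, h, sub_self]
  refine ⟨fun n hn => key _ _ fun g => ?_, key _ _ fun g => ?_, fun h hh => key _ _ fun g => ?_,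
    key _ _ fun g => ?_⟩
  · rw [← Al.act_mul_apply, he, he]
    have h1 : g * n ∈ N ↔ g ∈ N := Subgroup.mul_mem_cancel_right N hn
    simp only [h1]
  · rw [map_mul, map_mul, he]
    split_ifs <;> simp
  · rw [map_mul, map_mul, ← Al.act_mul_apply, he, he, map_zero, map_zero]
    by_cases hg : g ∈ N
    · have h1 : ¬ g * h ∈ N := fun h2 => hh ((Subgroup.mul_mem_cancel_left N hg).1 h2)
      rw [if_neg h1, mul_zero]
    · rw [if_neg hg, zero_mul]
  · rw [map_sum, map_sum, map_one, map_one]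
    have h1 : ∀ q : G ⧸ N, R (Al.act S g (Al.act S q.out e)) =
        if q = (QuotientGroup.mk g⁻¹ : G ⧸ N) then 1 else 0 := by
      intro q
      rw [← Al.act_mul_apply, he]
      have h2 : g * q.out ∈ N ↔ q = (QuotientGroup.mk g⁻¹ : G ⧸ N) := by
        constructor
        · intro h3
          have h4 : (QuotientGroup.mk g⁻¹ : G ⧸ N) = QuotientGroup.mk q.out :=
            QuotientGroup.eq.2 (by rw [inv_inv]; exact h3)
          rw [h4, QuotientGroup.out_eq']
        · intro h3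
          have h4 : (QuotientGroup.mk g⁻¹ : G ⧸ N) = QuotientGroup.mk q.out := by
            rw [QuotientGroup.out_eq', h3]
          have h5 := QuotientGroup.eq.1 h4
          rwa [inv_inv] at h5
      simp only [h2]
    simp only [h1]
    simp

/-- Equivariance of the extension. -/
theorem Z1_extR_x {B B' R : Type} [CommRing B] [CommRing B'] [CommRing R] {G : Type} [Group G]
    [Fintype G] (S : SC B G) (ρ : Al S →+* R) (φ : B →+* B') (ψ : B' →+* R)
    (h : ∀ b, ρ (Al.cst S b) = ψ (φ b)) (x : G) (τ : R →+* R)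
    (hx : ∀ a, ρ (Al.act S x a) = τ (ρ a)) (hψ : ∀ b, τ (ψ b) = ψ b) (a : Al (S.map φ)) :
    extR S ρ φ ψ h (Al.act (S.map φ) x a) = τ (extR S ρ φ ψ h a) := by
  have key : (extR S ρ φ ψ h).comp (Al.act (S.map φ) x) = τ.comp (extR S ρ φ ψ h) := by
    refine Al.hom_ext (S.map φ) (fun b => ?_) fun l => ?_
    · rw [RingHom.comp_apply, RingHom.comp_apply, Al.act_cst, extR_cst, hψ]
    · rw [RingHom.comp_apply, RingHom.comp_apply, ← Al.mapA_e, ← Al.mapA_act, extR_mapA, extR_mapA,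
        hx]
  exact RingHom.congr_fun key a

section
variable {p : ℕ} [Fact p.Prime] {K : Type} [Field K] [CharP K p] {G : Type} [Group G]
  [Fintype G] {x : G} {t : K}

theorem TPw.inv_h0 (D : TPw p x t) (b : Lam K) : D.r1 (Al.cst D.S b) =
    ((AI.ofL p (C t * X : K[X])).comp (lz K)) (lin K b) := by
  rw [D.r1_cst, RingHom.comp_apply, lz_lin]

theorem TPw.inv_h1 (D : TPw p x t) (b : Lam K) : D.r0 (Al.cst D.S b) =
    ((AI.ofL p (C t * X : K[X])).comp (lzi K)) (lin K b) := by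
  rw [D.r0_cst, RingHom.comp_apply, lzi_lin]

/-- The two point cover with `0` and infinity exchanged. -/
def TPw.inv (D : TPw p x t) : TPw p x t where
  S := D.S.map (lin K)
  r0 := extR D.S D.r1 (lin K) ((AI.ofL p (C t * X : K[X])).comp (lz K)) D.inv_h0
  r1 := extR D.S D.r0 (lin K) ((AI.ofL p (C t * X : K[X])).comp (lzi K)) D.inv_h1
  r0_cst := fun f => extR_cst D.S D.r1 (lin K) ((AI.ofL p (C t * X : K[X])).comp (lz K)) D.inv_h0 f
  r1_cst := fun f => extR_cst D.S D.r0 (lin K) ((AI.ofL p (C t * X : K[X])).comp (lzi K)) D.inv_h1 f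
  r0_x := fun a => Z1_extR_x D.S D.r1 (lin K) ((AI.ofL p (C t * X : K[X])).comp (lz K)) D.inv_h0 x
    (AI.tau p (C t * X : K[X])) D.r1_x (fun b => by rw [RingHom.comp_apply, AI.tau_ofL]) a
  r1_x := fun a => Z1_extR_x D.S D.r0 (lin K) ((AI.ofL p (C t * X : K[X])).comp (lzi K)) D.inv_h1 x
    (AI.tau p (C t * X : K[X])) D.r0_x (fun b => by rw [RingHom.comp_apply, AI.tau_ofL]) a

theorem TPw.inv_S (D : TPw p x t) : D.inv.S = D.S.map (lin K) := rfl

theorem TPw.inv_r0_mapA (D : TPw p x t) (a : Al D.S) :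
    D.inv.r0 (Al.mapA D.S (lin K) a) = D.r1 a :=
  extR_mapA D.S D.r1 (lin K) ((AI.ofL p (C t * X : K[X])).comp (lz K)) D.inv_h0 a

theorem TPw.inv_r1_mapA (D : TPw p x t) (a : Al D.S) :
    D.inv.r1 (Al.mapA D.S (lin K) a) = D.r0 a :=
  extR_mapA D.S D.r0 (lin K) ((AI.ofL p (C t * X : K[X])).comp (lzi K)) D.inv_h1 a

theorem TPw.inv_r0_e (D : TPw p x t) (l : G) : D.inv.r0 (Al.e D.inv.S l) = D.r1 (Al.e D.S l) := by
  have h := D.inv_r0_mapA (Al.e D.S l)
  rw [Al.mapA_e] at h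
  exact h

/-- The values at `0` only depend on the expansions of the coordinates. -/
theorem TPw.v0_transfer (D : TPw p x t) {B : Type} [CommRing B] (θ : Lam K →+* B)
    (e : B →+* LaurentSeries K) (h : ∀ q, e (θ q) = lz K q) (ε : Al (D.S.map θ))
    (A0 : Al (D.S.map (lz K))) (hA : ∀ l, e (ε l) = A0 l) (g : G) :
    D.v0 θ e h (Al.act _ g ε) = D.v0 (lz K) (RingHom.id _) (fun _ => rfl) (Al.act _ g A0) := by
  rw [TPw.v0_apply, TPw.v0_apply]
  refine Finset.sum_congr rfl fun l _ => ?_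
  congr 2
  rw [Al.act_apply, map_sum, RingHom.id_apply, Al.act_apply]
  refine Finset.sum_congr rfl fun k _ => ?_
  rw [map_mul, hA]
  exact congrArg (fun z => A0 k * z) (h _)

/-- The values at infinity only depend on the expansions of the coordinates. -/
theorem TPw.v1_transfer (D : TPw p x t) {B : Type} [CommRing B] (θ : Lam K →+* B)
    (e : B →+* LaurentSeries K) (h : ∀ q, e (θ q) = lzi K q) (ε : Al (D.S.map θ))
    (A1 : Al (D.S.map (lzi K))) (hA : ∀ l, e (ε l) = A1 l) (g : G) :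
    D.v1 θ e h (Al.act _ g ε) = D.v1 (lzi K) (RingHom.id _) (fun _ => rfl) (Al.act _ g A1) := by
  rw [TPw.v1_apply, TPw.v1_apply]
  refine Finset.sum_congr rfl fun l _ => ?_
  congr 2
  rw [Al.act_apply, map_sum, RingHom.id_apply, Al.act_apply]
  refine Finset.sum_congr rfl fun k _ => ?_
  rw [map_mul, hA]
  exact congrArg (fun z => A1 k * z) (h _)

end

theorem Z1_transport {B : Type} [CommRing B] {G : Type} [Group G] [Fintype G] {S1 S2 : SC B G}
    (h : S1 = S2) (P : ∀ S : SC B G, Al S → Prop) (e : Al S1) (he : P S1 e) :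
    ∃ a : Al S2, P S2 a := by
  subst h
  exact ⟨e, he⟩

theorem Z1_map_lin {K : Type} [Field K] {G : Type} [Group G] [Fintype G] (S : SC (Lam K) G) :
    (S.map (lin K)).map (lz K) = S.map (lzi K) := by
  have h : (lz K).comp (lin K) = lzi K := RingHom.ext fun f => lz_lin f
  rw [← h]
  rfl

variable {Om : Type} [NormedField Om] [CompleteSpace Om] [IsUltrametricDist Om] [IsAlgClosed Om]
  {G : Type} [Group G] [Fintype G] {p : ℕ} [Fact p.Prime] [CharP Om p] {x : G} {t : Om}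

/-- The idempotent of `N` near `0`. -/
theorem exists_eps0 (D : TPw p x t) (N : Subgroup G) (hN : x ∈ N) :
    ∃ (A0 : Al (D.S.map (lz Om))) (s : ℝ), 0 < s ∧ NI _ N A0 ∧ (∀ l, ∃ C, LB s (A0 l) C) ∧
      ∀ g, D.v0 (lz Om) (RingHom.id _) (fun _ => rfl) (Al.act _ g A0) =
        if g ∈ N then 1 else 0 := by
  obtain ⟨e, he, hval⟩ := exists_epsH D N hN
  obtain ⟨s, hs, hC⟩ := exists_common (fun l => e l) he
  obtain ⟨C, -, hLB⟩ := hC s hs le_rfl
  refine ⟨e, s, hs, NI_of_val _ D.R0 (VAL_inj D) N e hval, fun l => ⟨C, hLB l⟩, fun g => ?_⟩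
  rw [← hval g, TPw.v0_apply]
  exact (extR_apply _ _ _ _ _ _).symm

/-- The idempotent of `N` near infinity. -/
theorem exists_eps1 (D : TPw p x t) (N : Subgroup G) (hN : x ∈ N) :
    ∃ (A1 : Al (D.S.map (lzi Om))) (s : ℝ), 0 < s ∧ NI _ N A1 ∧ (∀ l, ∃ C, LB s (A1 l) C) ∧
      ∀ g, D.v1 (lzi Om) (RingHom.id _) (fun _ => rfl) (Al.act _ g A1) =
        if g ∈ N then 1 else 0 := by
  obtain ⟨e, s, hs, hNI, hLB, hval⟩ := exists_eps0 D.inv N hN
  obtain ⟨A1, h1, h2, h3⟩ := Z1_transport (Z1_map_lin D.S)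
    (fun S a => NI S N a ∧ (∀ l, ∃ C, LB s (a l) C) ∧
      ∀ g, ∑ l, AI.ofL p (C t * X : Om[X]) (Al.act S g a l) * D.r1 (Al.e D.S l) =
        if g ∈ N then 1 else 0) e ⟨hNI, hLB, fun g => by
      rw [← hval g, TPw.v0_apply]
      refine Finset.sum_congr rfl fun l _ => ?_
      rw [D.inv_r0_e]
      rfl⟩
  refine ⟨A1, s, hs, h1, h2, fun g => ?_⟩
  rw [← h3 g, TPw.v1_apply]
  rfl

end

end Pool.Agent.MP_1c8e06_ag.CY
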